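import Mathlib

/-!
# Parameters of biregular graphs with three eigenvalues, `θ₁ + θ₂ = -1`

The integers `τ, g, x, y, f, h, W` attached to such a graph: the squares of the entries of the
Perron vector are `g x ^ 2` and `g y ^ 2`, `τ` is the second eigenvalue of the quotient matrix,
`W - y h` and `W + x h` are the sizes of the two classes.
-/

set_option autoImplicit false

namespace Pool.Agent.TEV

/-- The arithmetic conditions on the parameters. -/
structure Par (τ g x y f h W : ℤ) : Prop where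
  hg : 1 ≤ g
  hy : 1 ≤ y
  hxy : y < x
  hcop : IsCoprime x y
  hP : g * x * y = τ ^ 2
  hf1 : -(g * y) < f
  hf2 : f < g * x
  hWd : W = g * (x ^ 2 + y ^ 2) + 2 * τ + 1 - (x - y) * f
  hW : f * W = τ ^ 2 * h
  hq : (2 * τ + 1) ∣ (x - y) * h
  h11 : g * x * (τ + 1) ≤ (g * x - f) * (W - g * x ^ 2)
  h22 : g * y * (τ + 1) ≤ (g * y + f) * (W - g * y ^ 2)
  hWP : τ ^ 2 ≤ W
  k11 : 0 ≤ x * (g * x - f) + τ
  k22 : 0 ≤ y * (g * y + f) + τ

/-- The parameters of the Petersen cone. -/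
def Pet (τ g x y f : ℤ) : Prop := τ = -2 ∧ g = 2 ∧ x = 2 ∧ y = 1 ∧ f = 3

variable {τ g x y f h W : ℤ}

theorem Par.hx (P : Par τ g x y f h W) : 2 ≤ x := by
  have := P.hy; have := P.hxy; omega

theorem Par.tau_sq (P : Par τ g x y f h W) : 2 ≤ τ ^ 2 := by
  rw [← P.hP]
  have h1 := P.hg; have h2 := P.hy; have h3 := P.hx
  nlinarith [mul_le_mul h1 h3 (by norm_num) (by omega), mul_pos (show 0 < g by omega) (show 0 < x by omega)]

theorem Par.cop (_P : Par τ g x y f h W) : IsCoprime (2 * τ + 1) τ :=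
  ⟨1, -2, by ring⟩

/-- The end of the cone case. -/
theorem cone_end (x : ℤ) (hx : 2 ≤ x) (hd : (2 * x - 1) ∣ (x - 1) * (x ^ 2 - 1)) : x = 2 := by
  have h1 : (2 * x - 1) ∣ 3 := by
    have h2 : (2 * x - 1) ∣ 8 * ((x - 1) * (x ^ 2 - 1)) - (2 * x - 1) * (4 * x ^ 2 - 2 * x - 5) :=
      dvd_sub (Dvd.dvd.mul_left hd 8) (dvd_mul_right _ _)
    have h3 : 8 * ((x - 1) * (x ^ 2 - 1)) - (2 * x - 1) * (4 * x ^ 2 - 2 * x - 5) = 3 := by ring
    rwa [h3] at h2
  have h2 := Int.le_of_dvd (by norm_num) h1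
  omega

/-- The case `W = τ ^ 2`: the two classes are completely joined. -/
theorem join (P : Par τ g x y f h W) (hj : W = τ ^ 2) : Pet τ g x y f := by
  obtain ⟨hg, hy, hxy, hcop, hP, hf1, hf2, hWd, hW, hq, h11, h22, hWP, k11, k22⟩ := P
  have hx : 2 ≤ x := by omega
  obtain ⟨v, hv⟩ : ∃ v, v = g * x - f := ⟨_, rfl⟩
  have hf : f = g * x - v := by omega
  have hv1 : 1 ≤ v := by omega
  have hE : g * y ^ 2 + 2 * τ + 1 + (x - y) * v = 0 := by
    have := hWd
    rw [hj, hf] at this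
    linear_combination -this - hP
  have hgx : 0 < g * x := by positivity
  have hgy : 1 ≤ g * y ^ 2 := by nlinarith [mul_pos (show 0 < g by omega) (show 0 < y by omega)]
  have hdv : 1 ≤ (x - y) * v := by nlinarith
  have hτ : τ ≤ -2 := by omega
  have hds : (x - y) * v ≤ -τ - 1 := by
    have h1 : g * x * (τ + 1) ≤ g * x * (-((x - y) * v)) := by
      calc g * x * (τ + 1) ≤ (g * x - f) * (W - g * x ^ 2) := h11
        _ = g * x * (-((x - y) * v)) := by
          rw [hj, ← hP, ← hv]; ring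
    have := le_of_mul_le_mul_left h1 hgx
    omega
  have hk : 0 ≤ x * v + τ := by rw [hv]; exact k11
  have hid : (x * v + τ) * (-τ - 1 - (x - y) * v) = τ * (τ + 1) * (y * v - 1) := by
    linear_combination (-(v * x)) * hE + (v * y) * hP
  have hyv : 1 ≤ y * v := by nlinarith
  have hyv1 : y * v = 1 := by
    by_contra hne
    have h2 : 1 ≤ y * v - 1 := by omega
    obtain ⟨r, hr⟩ : ∃ r, r = -τ - 1 - (x - y) * v := ⟨_, rfl⟩
    obtain ⟨k, hk'⟩ : ∃ k, k = x * v + τ := ⟨_, rfl⟩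
    obtain ⟨n, hn⟩ : ∃ n, n = y * v - 1 := ⟨_, rfl⟩
    have hsum : k + r = n := by rw [hk', hr, hn]; ring
    rw [← hr, ← hk', ← hn] at hid
    have hr0 : 0 ≤ r := by rw [hr]; omega
    have hr1 : r ≤ -τ - 2 := by rw [hr]; omega
    rw [← hk'] at hk
    rw [← hn] at h2
    have hkn : k ≤ n := by omega
    have h3 : k * r ≤ n * (-τ - 2) := by
      calc k * r ≤ n * r := mul_le_mul_of_nonneg_right hkn hr0
        _ ≤ n * (-τ - 2) := mul_le_mul_of_nonneg_left hr1 (by omega)
    have h4 : n * (-τ - 2) < n * (τ * (τ + 1)) :=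
      mul_lt_mul_of_pos_left (by nlinarith [sq_nonneg (τ + 1)]) (by omega)
    have h5 : τ * (τ + 1) * n = n * (τ * (τ + 1)) := by ring
    omega
  have hy1 : y = 1 := by
    have : y ∣ 1 := ⟨v, hyv1.symm⟩
    exact le_antisymm (Int.le_of_dvd one_pos this) hy
  subst hy1
  have hv2 : v = 1 := by omega
  subst hv2
  have hxτ : x = -τ := by omega
  have hgx2 : g = x := by
    have h5 : x * (g - x) = 0 := by rw [hxτ] at hP ⊢; linear_combination hP
    rcases mul_eq_zero.mp h5 with h6 | h6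
    · omega
    · omega
  have hτ0 : τ ^ 2 ≠ 0 := pow_ne_zero 2 (by omega)
  have hfh : f = h := by
    have : τ ^ 2 * (f - h) = 0 := by rw [hj] at hW; linear_combination hW
    rcases mul_eq_zero.mp this with h6 | h6
    · exact absurd h6 hτ0
    · omega
  have hfx : f = x ^ 2 - 1 := by rw [hf, hgx2]; ring
  have hx2 : x = 2 := by
    apply cone_end x hx
    have h7 : (2 * x - 1) ∣ (x - 1) * h := by
      have : 2 * τ + 1 = -(2 * x - 1) := by rw [hxτ]; ring
      rw [this] at hq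
      exact neg_dvd.mp hq
    rwa [← hfh, hfx] at h7
  refine ⟨by omega, by omega, hx2, rfl, ?_⟩
  rw [hfx, hx2]; norm_num

end Pool.Agent.TEV
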