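import Mathlib
import Pool.Agent.TEV.Par

/-!
# From the equations of the quotient matrix to the parameters
-/

set_option autoImplicit false

namespace Pool.Agent.TEV

/-- Two positive integers whose product is a square. -/
theorem sq_split (a b P : ℤ) (ha : 0 < a) (hb : 0 < b) (hP : 0 < P) (h : P ^ 2 = a * b) :
    ∃ g x y : ℤ, 1 ≤ g ∧ 1 ≤ x ∧ 1 ≤ y ∧ IsCoprime x y ∧ a = g * x ^ 2 ∧ b = g * y ^ 2 ∧
      P = g * x * y := by
  obtain ⟨g, hg⟩ : ∃ g : ℤ, g = (Int.gcd a b : ℤ) := ⟨_, rfl⟩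
  have hg1 : 0 < g := by
    rw [hg]
    exact_mod_cast Int.gcd_pos_of_ne_zero_left b ha.ne'
  obtain ⟨X, hX⟩ : g ∣ a := by rw [hg]; exact Int.gcd_dvd_left ..
  obtain ⟨Y, hY⟩ : g ∣ b := by rw [hg]; exact Int.gcd_dvd_right ..
  have hX0 : 0 < X := by
    rw [hX] at ha
    exact (mul_pos_iff_of_pos_left hg1).mp ha
  have hY0 : 0 < Y := by
    rw [hY] at hb
    exact (mul_pos_iff_of_pos_left hg1).mp hb
  have hcop : IsCoprime X Y := by
    rw [Int.isCoprime_iff_gcd_eq_one]
    have h1 : Int.gcd (g * X) (g * Y) = g.natAbs * Int.gcd X Y := Int.gcd_mul_left ..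
    rw [← hX, ← hY] at h1
    have h2 : g.natAbs = Int.gcd a b := by rw [hg]; rfl
    have h3 : 0 < Int.gcd a b := Int.gcd_pos_of_ne_zero_left b ha.ne'
    rw [h2] at h1
    exact (Nat.eq_of_mul_eq_mul_left h3 (by rw [← h1, mul_one]))
  have hgP : g ^ 2 ∣ P ^ 2 := ⟨X * Y, by rw [h, hX, hY]; ring⟩
  obtain ⟨R, hR⟩ : g ∣ P := (Int.pow_dvd_pow_iff (by norm_num)).mp hgP
  have hR0 : 0 < R := by
    rw [hR] at hP
    exact (mul_pos_iff_of_pos_left hg1).mp hP
  have hRXY : X * Y = R ^ 2 := by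
    have h1 : g ^ 2 * (X * Y) = g ^ 2 * R ^ 2 := by
      rw [hR, hX, hY] at h
      linear_combination -h
    exact mul_left_cancel₀ (pow_ne_zero 2 hg1.ne') h1
  have key : ∀ X Y : ℤ, 0 < X → IsCoprime X Y → X * Y = R ^ 2 → ∃ x : ℤ, 1 ≤ x ∧ X = x ^ 2 := by
    intro X Y hX0 hc he
    obtain ⟨x, hx⟩ := Int.sq_of_isCoprime hc he
    rcases hx with hx | hx
    · refine ⟨|x|, ?_, by rw [sq_abs]; exact hx⟩
      have : x ≠ 0 := by
        rintro rfl
        rw [hx] at hX0
        norm_num at hX0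
      exact Int.one_le_abs this
    · exfalso
      have := sq_nonneg x
      omega
  obtain ⟨x, hx1, hx⟩ := key X Y hX0 hcop hRXY
  obtain ⟨y, hy1, hy⟩ := key Y X hY0 hcop.symm (by rw [mul_comm]; exact hRXY)
  have hxy : R = x * y := by
    have h1 : R ^ 2 = (x * y) ^ 2 := by rw [← hRXY, hx, hy]; ring
    have h2 : 0 ≤ x * y := by positivity
    exact (pow_left_inj₀ hR0.le h2 (by norm_num)).mp h1
  refine ⟨g, x, y, hg1, hx1, hy1, ?_, by rw [hX, hx], by rw [hY, hy], by rw [hR, hxy]; ring⟩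
  rw [hx, hy] at hcop
  exact (IsCoprime.pow_iff (by norm_num) (by norm_num)).mp hcop

/-- From the equations of the quotient matrix to the parameters. -/
theorem par_alg (θ₀ θ₁ θ₂ : ℝ) (h01 : θ₁ < θ₀) (h12 : θ₂ < θ₁) (hsum : θ₁ + θ₂ = -1)
    (k₁ k₂ A B C D n₁ n₂ P T : ℤ) (hk : k₂ < k₁) (hT : (T : ℝ) = -(θ₁ * θ₂))
    (hAB : A + B = k₁) (hCD : C + D = k₂) (hA : 0 ≤ A) (hD : 0 ≤ D)
    (ha2 : T < k₂) (hP0 : 0 < P) (hP : P ^ 2 = (k₁ - T) * (k₂ - T))
    (e1 : (A : ℝ) * (k₁ - T) + B * P = θ₀ * (k₁ - T))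
    (e4 : (C : ℝ) * P + D * (k₂ - T) = θ₀ * (k₂ - T))
    (c12 : A * B + B * D + B = P * n₂) (c21 : C * A + D * C + C = P * n₁)
    (c11 : A * A + B * C + A - T = (k₁ - T) * n₁) (c22 : C * B + D * D + D - T = (k₂ - T) * n₂)
    (hn1 : A + 1 ≤ n₁) (hn2 : D + 1 ≤ n₂) (hBn : B ≤ n₂)
    (hm : ∀ τ : ℝ, (τ = θ₁ ∨ τ = θ₂) →
      ∃ m : ℕ, (((n₁ : ℝ) + n₂) - 1) * (τ + 1) - θ₀ = (2 * τ + 1) * m) :
    ∃ τ g x y f h W : ℤ, Par τ g x y f h W ∧ ((τ : ℝ) = θ₁ ∨ (τ : ℝ) = θ₂) ∧
      k₁ - T = g * x ^ 2 ∧ k₂ - T = g * y ^ 2 ∧ T = τ ^ 2 + τ ∧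
      n₁ = W - y * h ∧ n₂ = W + x * h ∧ A = x * (g * x - f) + τ ∧ D = y * (g * y + f) + τ := by
  obtain ⟨g, x, y, hg, hx, hy, hcop, ha, hb, hPe⟩ :=
    sq_split (k₁ - T) (k₂ - T) P (by omega) (by omega) hP0 hP
  have hxy : y < x := by
    by_contra hle
    push Not at hle
    have h1 : g * x ^ 2 ≤ g * y ^ 2 := by
      apply mul_le_mul_of_nonneg_left _ (by omega)
      nlinarith
    omega
  have hk1 : k₁ = g * x ^ 2 + T := by omega
  have hk2 : k₂ = g * y ^ 2 + T := by omega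
  -- `θ₀` is an integer
  have hgR : (0 : ℝ) < g := by exact_mod_cast (by omega : 0 < g)
  have hxR : (0 : ℝ) < x := by exact_mod_cast (by omega : 0 < x)
  have hyR : (0 : ℝ) < y := by exact_mod_cast (by omega : 0 < y)
  have hxyR : (0 : ℝ) < x - y := by
    have : (y : ℝ) < x := by exact_mod_cast hxy
    linarith
  have hABR : (A : ℝ) + B = g * x ^ 2 + T := by exact_mod_cast (by omega : A + B = g * x ^ 2 + T)
  have hCDR : (C : ℝ) + D = g * y ^ 2 + T := by exact_mod_cast (by omega : C + D = g * y ^ 2 + T)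
  have haR : ((k₁ : ℝ) - T) = g * x ^ 2 := by exact_mod_cast ha
  have hbR : ((k₂ : ℝ) - T) = g * y ^ 2 := by exact_mod_cast hb
  have hPR : (P : ℝ) = g * x * y := by exact_mod_cast hPe
  rw [haR, hPR] at e1
  rw [hbR, hPR] at e4
  have e1' : (B : ℝ) * (x - y) = x * (g * x ^ 2 + T - θ₀) := by
    have h1 : (g * x : ℝ) * (B * (x - y) - x * (g * x ^ 2 + T - θ₀)) = 0 := by
      linear_combination (-1 : ℝ) * e1 + (g * x ^ 2 : ℝ) * hABR
    rcases mul_eq_zero.mp h1 with h | h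
    · exact absurd h (mul_pos hgR hxR).ne'
    · linarith
  have e4' : (C : ℝ) * (x - y) = y * (θ₀ - g * y ^ 2 - T) := by
    have h1 : (g * y : ℝ) * (C * (x - y) - y * (θ₀ - g * y ^ 2 - T)) = 0 := by
      linear_combination (1 : ℝ) * e4 - (g * y ^ 2 : ℝ) * hCDR
    rcases mul_eq_zero.mp h1 with h | h
    · exact absurd h (mul_pos hgR hyR).ne'
    · linarith
  obtain ⟨Θ, hΘ⟩ : ∃ Θ : ℤ, Θ = A + D - (T - P) := ⟨_, rfl⟩
  have hΘR : (Θ : ℝ) = θ₀ := by
    have h1 : ((x : ℝ) - y) * (Θ - θ₀) = 0 := by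
      have : (Θ : ℝ) = A + D - (T - g * x * y) := by rw [hΘ]; push_cast; rw [hPR]
      rw [this]
      linear_combination ((x : ℝ) - y) * hABR + ((x : ℝ) - y) * hCDR - e1' - e4'
    rcases mul_eq_zero.mp h1 with h | h
    · exact absurd h hxyR.ne'
    · linarith
  obtain ⟨τ, hτ⟩ : ∃ τ : ℤ, τ = T - P := ⟨_, rfl⟩
  have hΘ' : Θ = A + D - τ := by rw [hτ]; exact hΘ
  rw [← hΘR] at e1' e4'
  have e1i : B * (x - y) = x * (g * x ^ 2 + T - Θ) := by exact_mod_cast e1'
  have e4i : C * (x - y) = y * (Θ - g * y ^ 2 - T) := by exact_mod_cast e4'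
  -- the factorisation
  have hcx : IsCoprime x (x - y) := by
    obtain ⟨a, b, hab⟩ := hcop
    exact ⟨a + b, -b, by linear_combination hab⟩
  have hcy : IsCoprime y (x - y) := by
    obtain ⟨a, b, hab⟩ := hcop
    exact ⟨a + b, a, by linear_combination hab⟩
  obtain ⟨w, hw⟩ : x ∣ B := hcx.dvd_of_dvd_mul_right ⟨_, e1i⟩
  obtain ⟨v, hv⟩ : y ∣ C := hcy.dvd_of_dvd_mul_right ⟨_, e4i⟩
  have hw' : w * (x - y) = g * x ^ 2 + T - Θ := by
    rw [hw] at e1i
    exact mul_left_cancel₀ (by omega : x ≠ 0) (by linear_combination e1i)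
  have hv' : v * (x - y) = Θ - g * y ^ 2 - T := by
    rw [hv] at e4i
    exact mul_left_cancel₀ (by omega : y ≠ 0) (by linear_combination e4i)
  have hwv : w + v = g * (x + y) := by
    exact mul_right_cancel₀ (by omega : x - y ≠ 0) (by linear_combination hw' + hv')
  -- the second eigenvalue
  have hAx : A * x + B * y = Θ * x := by
    have h1 : A + B = g * x ^ 2 + T := by omega
    linear_combination x * h1 - e1i
  have hDy : C * x + D * y = Θ * y := by
    have h1 : C + D = g * y ^ 2 + T := by omega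
    linear_combination y * h1 + e4i
  have hBC : (Θ - A) * (Θ - D) = B * C := by
    have h1 : (x * y) * ((Θ - A) * (Θ - D) - B * C) = 0 := by
      have h2 : (Θ - A) * x = B * y := by linear_combination -hAx
      have h3 : (Θ - D) * y = C * x := by linear_combination -hDy
      calc (x * y) * ((Θ - A) * (Θ - D) - B * C) = ((Θ - A) * x) * ((Θ - D) * y) - x * y * (B * C) := by
            ring
        _ = 0 := by rw [h2, h3]; ring
    rcases mul_eq_zero.mp h1 with h | h
    · exact absurd h (mul_pos (by omega : 0 < x) (by omega : 0 < y)).ne'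
    · linarith
  have hdet : (Θ ^ 2 + Θ - T) * (τ ^ 2 + τ - T) = 0 := by
    have h1 : (A * A + B * C + A - T) * (C * B + D * D + D - T)
        - (A * B + B * D + B) * (C * A + D * C + C) = 0 := by
      rw [c11, c22, c12, c21]
      linear_combination (-(n₁ * n₂)) * hP
    have h2 : τ = A + D - Θ := by omega
    have h3 : (A * A + B * C + A - T) * (C * B + D * D + D - T)
        - (A * B + B * D + B) * (C * A + D * C + C) =
        (A * A + B * C + A - T) * (B * C + D * D + D - T) - (B * C) * (A + D + 1) ^ 2 := by ring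
    rw [h3, ← hBC] at h1
    rw [h2]
    linear_combination h1
  have hfac : ∀ z : ℝ, z ^ 2 + z - T = (z - θ₁) * (z - θ₂) := by
    intro z
    have : z = -((θ₁ + θ₂) * z) := by rw [hsum]; ring
    rw [hT]
    linear_combination this
  have hTτ : T = τ ^ 2 + τ := by
    rcases mul_eq_zero.mp hdet with h | h
    · exfalso
      have h1 : (Θ : ℝ) ^ 2 + Θ - T = 0 := by exact_mod_cast h
      rw [hfac, hΘR] at h1
      have h2 : 0 < (θ₀ - θ₁) * (θ₀ - θ₂) := mul_pos (by linarith) (by linarith)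
      linarith
    · linarith
  have hτ12 : (τ : ℝ) = θ₁ ∨ (τ : ℝ) = θ₂ := by
    have h1 : (τ : ℝ) ^ 2 + τ - T = 0 := by
      have : (T : ℝ) = τ ^ 2 + τ := by exact_mod_cast hTτ
      rw [this]; ring
    rw [hfac] at h1
    rcases mul_eq_zero.mp h1 with h | h
    · left; linarith
    · right; linarith
  have hPτ : P = τ ^ 2 := by omega
  -- the size of `W`
  obtain ⟨W, hW⟩ : ∃ W, W = A + D + 1 := ⟨_, rfl⟩
  have hvW : v * W = g * x * n₁ := by
    have h1 : y * (v * W) = y * (g * x * n₁) := by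
      have : C * (A + D + 1) = P * n₁ := by linear_combination c21
      rw [hW]
      calc y * (v * (A + D + 1)) = C * (A + D + 1) := by rw [hv]; ring
        _ = y * (g * x * n₁) := by rw [this, hPe]; ring
    exact mul_left_cancel₀ (by omega : y ≠ 0) h1
  have hwW : w * W = g * y * n₂ := by
    have h1 : x * (w * W) = x * (g * y * n₂) := by
      have : B * (A + D + 1) = P * n₂ := by linear_combination c12
      rw [hW]
      calc x * (w * (A + D + 1)) = B * (A + D + 1) := by rw [hw]; ring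
        _ = x * (g * y * n₂) := by rw [this, hPe]; ring
    exact mul_left_cancel₀ (by omega : x ≠ 0) h1
  have hn1' : 1 ≤ n₁ := by omega
  have hn2' : 1 ≤ n₂ := by omega
  have hW1 : 1 ≤ W := by omega
  have hgx : 0 < g * x := mul_pos (by omega) (by omega)
  have hgy : 0 < g * y := mul_pos (by omega) (by omega)
  have hv0 : 0 < v := by
    have h1 : 0 < v * W := by rw [hvW]; exact mul_pos hgx (by omega)
    exact (mul_pos_iff_of_pos_right (by omega)).mp h1
  have hw0 : 0 < w := by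
    have h1 : 0 < w * W := by rw [hwW]; exact mul_pos hgy (by omega)
    exact (mul_pos_iff_of_pos_right (by omega)).mp h1
  obtain ⟨f, hf⟩ : ∃ f, f = g * x - v := ⟨_, rfl⟩
  have hvf : v = g * x - f := by omega
  have hwf : w = g * y + f := by linear_combination hwv - hvf
  have hA' : A = x * (g * x - f) + τ := by
    have h1 : A + B = g * x ^ 2 + T := by omega
    have h2 : T = τ + g * x * y := by rw [hτ, ← hPe]; ring
    rw [hw, hwf, h2] at h1
    linear_combination h1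
  have hD' : D = y * (g * y + f) + τ := by
    have h1 : C + D = g * y ^ 2 + T := by omega
    have h2 : T = τ + g * x * y := by rw [hτ, ← hPe]; ring
    rw [hv, hvf, h2] at h1
    linear_combination h1
  have hfW1 : f * W = g * x * (W - n₁) := by
    rw [hf]; linear_combination -hvW
  have hfW2 : f * W = g * y * (n₂ - W) := by
    have : f = w - g * y := by omega
    rw [this]; linear_combination hwW
  have hxn : x * (W - n₁) = y * (n₂ - W) := by
    have h1 : g * (x * (W - n₁)) = g * (y * (n₂ - W)) := by linear_combination hfW2 - hfW1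
    exact mul_left_cancel₀ (by omega : g ≠ 0) h1
  obtain ⟨h, hh⟩ : y ∣ (W - n₁) := hcop.symm.dvd_of_dvd_mul_left ⟨_, hxn⟩
  have hh2 : n₂ - W = x * h := by
    rw [hh] at hxn
    exact mul_left_cancel₀ (by omega : y ≠ 0) (by linear_combination -hxn)
  refine ⟨τ, g, x, y, f, h, W, ?_, hτ12, ha, hb, hTτ, by omega, by omega, hA', hD'⟩
  refine ⟨hg, hy, hxy, hcop, by rw [← hPe, hPτ], ?_, ?_, ?_, ?_, ?_, ?_, ?_, ?_, ?_, ?_⟩
  · omega
  · omega
  · rw [hW, hA', hD']; ring
  · rw [hfW1, hh, ← hPτ, hPe]; ring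
  · obtain ⟨m, hm'⟩ := hm τ hτ12
    rw [← hΘR] at hm'
    have h1 : (n₁ + n₂ - 1) * (τ + 1) - Θ = (2 * τ + 1) * (m : ℤ) := by exact_mod_cast hm'
    refine ⟨2 * (m : ℤ) - (n₁ + n₂ - 1) - 1, ?_⟩
    have h2 : Θ = W - 1 - τ := by omega
    have h3 : n₁ = W - y * h := by omega
    have h4 : n₂ = W + x * h := by omega
    rw [h2, h3, h4] at h1
    rw [h3, h4]
    linear_combination 2 * h1
  · rw [← hvf]
    have h1 : v * (W - g * x ^ 2) = g * x * (n₁ - x * v) := by linear_combination hvW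
    rw [h1]
    apply mul_le_mul_of_nonneg_left _ hgx.le
    rw [← hvf] at hA'
    omega
  · rw [← hwf]
    have h1 : w * (W - g * y ^ 2) = g * y * (n₂ - y * w) := by linear_combination hwW
    rw [h1]
    apply mul_le_mul_of_nonneg_left _ hgy.le
    rw [← hwf] at hD'
    omega
  · rw [← hPτ]
    have hB0 : 0 < B := by rw [hw]; exact mul_pos (by omega) hw0
    have h1 : B * W = P * n₂ := by rw [hW]; linear_combination c12
    have h2 : B * P ≤ B * W := by
      rw [h1, mul_comm B P]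
      exact mul_le_mul_of_nonneg_left hBn hP0.le
    exact le_of_mul_le_mul_left h2 hB0
  · rw [← hA']; exact hA
  · rw [← hD']; exact hD

end Pool.Agent.TEV
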