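import Mathlib

/-!
# Biregular graphs with three distinct eigenvalues, and the Petersen cone: definitions
-/

set_option autoImplicit false

namespace Pool.Agent.TEV

open Matrix

/-- `G` is a connected graph whose adjacency matrix has exactly the three distinct eigenvalues
`θ₀ > θ₁ > θ₂`, and whose vertices have exactly the two distinct valencies `k₁ > k₂`. -/
structure BiThree {V : Type*} [Fintype V] [DecidableEq V] (G : SimpleGraph V) [DecidableRel G.Adj]
    (θ₀ θ₁ θ₂ : ℝ) (k₁ k₂ : ℕ) : Prop where
  conn : G.Connected
  spec : spectrum ℝ (G.adjMatrix ℝ) = {θ₀, θ₁, θ₂}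
  h01 : θ₁ < θ₀
  h12 : θ₂ < θ₁
  hk : k₂ < k₁
  deg : ∀ v, G.degree v = k₁ ∨ G.degree v = k₂
  ex1 : ∃ v, G.degree v = k₁
  ex2 : ∃ v, G.degree v = k₂

/-- The Petersen graph: the `2`-subsets of `Fin 5`, two of them adjacent when disjoint. -/
def petersen : SimpleGraph {s : Finset (Fin 5) // s.card = 2} where
  Adj s t := Disjoint s.1 t.1
  symm := ⟨fun _ _ h => h.symm⟩
  loopless := ⟨fun s h => by
    have h1 : s.1 = ∅ := by simpa using h
    have h2 := s.2
    rw [h1] at h2
    simp at h2⟩

/-- The cone over a graph: one new vertex `none`, adjacent to every old vertex. -/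
def cone {W : Type*} (H : SimpleGraph W) : SimpleGraph (Option W) where
  Adj
    | some a, some b => H.Adj a b
    | none, none => False
    | _, _ => True
  symm := ⟨by
    intro a b h
    cases a <;> cases b <;> simp_all [SimpleGraph.adj_comm]⟩
  loopless := ⟨by
    intro a h
    cases a <;> simp_all⟩

end Pool.Agent.TEV
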