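import Mathlib

/-!
# Spectral facts for connected graphs with three distinct eigenvalues

For a connected graph with adjacency matrix `A` and eigenvalues `θ₀ > θ₁ > θ₂`, `θ₁ + θ₂ = -1`, the
matrix `M = A ^ 2 + A + θ₁ θ₂` has rank one and positive entries; and a divisibility condition
from the multiplicities.
-/

set_option autoImplicit false

namespace Pool.Agent.TEV

open Matrix Finset

variable {V : Type*} [Fintype V] [DecidableEq V]

/-- A real symmetric matrix is diagonalised by an orthogonal matrix. -/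
theorem diag_data (A : Matrix V V ℝ) (hA : A.IsHermitian) :
    ∃ (U U' : Matrix V V ℝ) (l : V → ℝ), U * U' = 1 ∧ U' * U = 1 ∧ A = U * diagonal l * U' ∧
      (∀ i, l i ∈ spectrum ℝ A) ∧ (∀ x ∈ spectrum ℝ A, ∃ i, l i = x) := by
  refine ⟨hA.eigenvectorUnitary, star (hA.eigenvectorUnitary : Matrix V V ℝ), hA.eigenvalues,
    ?_, ?_, ?_, hA.eigenvalues_mem_spectrum_real, ?_⟩
  · exact Unitary.coe_mul_star_self _
  · exact Unitary.coe_star_mul_self _
  · have := hA.spectral_theorem
    rw [Unitary.conjStarAlgAut_apply] at this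
    exact this
  · intro x hx
    rw [hA.spectrum_real_eq_range_eigenvalues] at hx
    exact hx

/-- A polynomial expression of a diagonalised matrix. -/
theorem conj_mul (U U' : Matrix V V ℝ) (h : U' * U = 1) (D E : Matrix V V ℝ) :
    (U * D * U') * (U * E * U') = U * (D * E) * U' := by
  calc (U * D * U') * (U * E * U') = U * D * (U' * U) * E * U' := by simp only [Matrix.mul_assoc]
    _ = U * (D * E) * U' := by rw [h]; simp only [Matrix.mul_assoc, Matrix.one_mul]

theorem sum_zero_or {ι : Type*} (s : Finset ι) (F : ι → ℝ) (c : ℝ) (h : ∀ i ∈ s, F i = c ∨ F i = 0) :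
    ∃ m : ℕ, ∑ i ∈ s, F i = c * m := by
  classical
  refine ⟨(s.filter (fun i => F i = c)).card, ?_⟩
  by_cases hc : c = 0
  · subst hc
    rw [zero_mul]
    exact Finset.sum_eq_zero (fun i hi => by rcases h i hi with h | h <;> exact h)
  rw [Finset.card_filter]
  push_cast
  rw [Finset.mul_sum]
  refine Finset.sum_congr rfl (fun i hi => ?_)
  rcases h i hi with h | h
  · simp [h]
  · rw [if_neg (by rw [h]; exact fun e => hc e.symm), h]; simp

omit [DecidableEq V] in
/-- Positivity and proportionality: Perron vectors on a connected graph. -/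
theorem perron (G : SimpleGraph V) [DecidableRel G.Adj] (hG : G.Connected) (θ : ℝ) (p x : V → ℝ)
    (hp : ∀ v, 0 < p v) (hpe : G.adjMatrix ℝ *ᵥ p = θ • p) (hxe : G.adjMatrix ℝ *ᵥ x = θ • x) :
    ∃ c : ℝ, x = c • p := by
  have hne : (Finset.univ : Finset V).Nonempty := by
    have := hG.nonempty
    exact Finset.univ_nonempty
  obtain ⟨u, -, hu⟩ := Finset.exists_min_image Finset.univ (fun v => x v / p v) hne
  refine ⟨x u / p u, ?_⟩
  obtain ⟨c, hc⟩ : ∃ c, c = x u / p u := ⟨_, rfl⟩
  obtain ⟨z, hz⟩ : ∃ z : V → ℝ, z = x - c • p := ⟨_, rfl⟩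
  have hz0 : ∀ v, 0 ≤ z v := by
    intro v
    have h1 := hu v (Finset.mem_univ v)
    have h2 : c ≤ x v / p v := by rw [hc]; exact h1
    rw [le_div_iff₀ (hp v)] at h2
    rw [hz]
    simp only [Pi.sub_apply, Pi.smul_apply, smul_eq_mul]
    linarith
  have hzu : z u = 0 := by
    rw [hz, hc]
    simp only [Pi.sub_apply, Pi.smul_apply, smul_eq_mul]
    rw [div_mul_cancel₀ _ (hp u).ne']
    ring
  have hze : G.adjMatrix ℝ *ᵥ z = θ • z := by
    rw [hz, Matrix.mulVec_sub, Matrix.mulVec_smul, hpe, hxe]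
    ext v
    simp only [Pi.sub_apply, Pi.smul_apply, smul_eq_mul]
    ring
  have hstep : ∀ a b, G.Adj a b → z a = 0 → z b = 0 := by
    intro a b hab ha
    have h1 := congrFun hze a
    rw [SimpleGraph.adjMatrix_mulVec_apply] at h1
    simp only [Pi.smul_apply, smul_eq_mul, ha, mul_zero] at h1
    rw [Finset.sum_eq_zero_iff_of_nonneg (fun v _ => hz0 v)] at h1
    exact h1 b (by simpa using hab)
  have hall : ∀ v, z v = 0 := by
    intro v
    obtain ⟨w⟩ := hG.preconnected u v
    clear hze hu hc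
    induction w with
    | nil => exact hzu
    | cons hadj _ ih => exact ih (hstep _ _ hadj hzu)
  ext v
  have h3 := hall v
  rw [hz] at h3
  simp only [Pi.sub_apply, Pi.smul_apply, smul_eq_mul] at h3
  rw [← hc]
  simp only [Pi.smul_apply, smul_eq_mul]
  linarith


theorem trace_conj (U U' : Matrix V V ℝ) (h : U' * U = 1) (l : V → ℝ) :
    Matrix.trace (U * diagonal l * U') = ∑ i, l i := by
  rw [Matrix.trace_mul_comm, ← Matrix.mul_assoc, h, Matrix.one_mul, Matrix.trace_diagonal]

/-- The spectral facts used later. -/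
theorem spec_facts (G : SimpleGraph V) [DecidableRel G.Adj] (hG : G.Connected)
    (hnt : ∀ v, ∃ w, G.Adj v w) (θ₀ θ₁ θ₂ : ℝ) (h01 : θ₁ < θ₀) (h12 : θ₂ < θ₁)
    (hspec : spectrum ℝ (G.adjMatrix ℝ) = {θ₀, θ₁, θ₂}) (hsum : θ₁ + θ₂ = -1) :
    ∃ M : Matrix V V ℝ, M = G.adjMatrix ℝ * G.adjMatrix ℝ + G.adjMatrix ℝ + (θ₁ * θ₂) • 1 ∧
      (∀ u v, 0 < M u v) ∧ (∀ u v, M u v = M v u) ∧ G.adjMatrix ℝ * M = θ₀ • M ∧
      (∀ u v w z, M w u * M z v = M w v * M z u) ∧
      ∀ τ : ℝ, (τ = θ₁ ∨ τ = θ₂) →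
        ∃ m : ℕ, ((Fintype.card V : ℝ) - 1) * (τ + 1) - θ₀ = (2 * τ + 1) * m := by
  obtain ⟨A, hAdef⟩ : ∃ A, A = G.adjMatrix ℝ := ⟨_, rfl⟩
  have hAsym : Aᵀ = A := by rw [hAdef]; exact G.transpose_adjMatrix
  have hAh : A.IsHermitian := by
    rw [Matrix.IsHermitian, Matrix.conjTranspose_eq_transpose_of_trivial]
    exact hAsym
  obtain ⟨U, U', l, hUU', hU'U, hAD, hl, hl'⟩ := diag_data A hAh
  have hlc : ∀ i, l i = θ₀ ∨ l i = θ₁ ∨ l i = θ₂ := by
    intro i
    have := hl i
    rw [hAdef, hspec] at this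
    simpa using this
  obtain ⟨c, hc⟩ : ∃ c, c = (θ₀ - θ₁) * (θ₀ - θ₂) := ⟨_, rfl⟩
  have hc0 : 0 < c := by rw [hc]; exact mul_pos (by linarith) (by linarith)
  have hfac : ∀ x : ℝ, x ^ 2 + x + θ₁ * θ₂ = (x - θ₁) * (x - θ₂) := by
    intro x
    have : x = -((θ₁ + θ₂) * x) := by rw [hsum]; ring
    linear_combination this
  obtain ⟨e, he⟩ : ∃ e : V → ℝ, e = fun i => l i ^ 2 + l i + θ₁ * θ₂ := ⟨_, rfl⟩
  have hev : ∀ i, (l i = θ₀ ∧ e i = c) ∨ (l i ≠ θ₀ ∧ e i = 0) := by
    intro i
    have hei : e i = (l i - θ₁) * (l i - θ₂) := by rw [he]; exact hfac (l i)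
    rcases hlc i with h | h | h
    · left; exact ⟨h, by rw [hei, h, hc]⟩
    · right; exact ⟨by rw [h]; exact h01.ne, by rw [hei, h]; ring⟩
    · right; exact ⟨by rw [h]; exact (h12.trans h01).ne, by rw [hei, h]; ring⟩
  obtain ⟨M, hM⟩ : ∃ M, M = A * A + A + (θ₁ * θ₂) • (1 : Matrix V V ℝ) := ⟨_, rfl⟩
  have hMD : M = U * diagonal e * U' := by
    have h1 : A * A = U * (diagonal l * diagonal l) * U' := by
      conv_lhs => rw [hAD]
      exact conj_mul U U' hU'U _ _
    have h2 : (1 : Matrix V V ℝ) = U * 1 * U' := by rw [Matrix.mul_one, hUU']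
    have h3 : diagonal e = diagonal l * diagonal l + diagonal l + (θ₁ * θ₂) • (1 : Matrix V V ℝ) := by
      rw [Matrix.diagonal_mul_diagonal, Matrix.diagonal_add, ← Matrix.diagonal_one,
        ← Matrix.diagonal_smul, Matrix.diagonal_add, he]
      congr 1
      ext i
      simp only [Pi.smul_apply, smul_eq_mul]
      ring
    rw [h3, Matrix.mul_add, Matrix.mul_add, Matrix.add_mul, Matrix.add_mul, hM, ← h1, ← hAD,
      Matrix.mul_smul, Matrix.smul_mul, ← h2]
  have hAM : A * M = θ₀ • M := by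
    conv_lhs => rw [hAD, hMD]
    rw [conj_mul U U' hU'U, hMD, ← Matrix.smul_mul, ← Matrix.mul_smul, Matrix.diagonal_mul_diagonal,
      ← Matrix.diagonal_smul]
    congr 3
    ext i
    simp only [Pi.smul_apply, smul_eq_mul]
    rcases hev i with ⟨h1, -⟩ | ⟨-, h2⟩
    · rw [h1]
    · rw [h2]; ring
  have hMM : M * M = c • M := by
    conv_lhs => rw [hMD]
    rw [conj_mul U U' hU'U, hMD, ← Matrix.smul_mul, ← Matrix.mul_smul, Matrix.diagonal_mul_diagonal,
      ← Matrix.diagonal_smul]
    congr 3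
    ext i
    simp only [Pi.smul_apply, smul_eq_mul]
    rcases hev i with ⟨-, h1⟩ | ⟨-, h2⟩
    · rw [h1]
    · rw [h2]; ring
  have hMs : ∀ u v, M u v = M v u := by
    intro u v
    have h1 : Mᵀ = M := by
      rw [hM, Matrix.transpose_add, Matrix.transpose_add, Matrix.transpose_mul, hAsym,
        Matrix.transpose_smul, Matrix.transpose_one]
    conv_lhs => rw [← h1]
    rfl
  have hA0 : ∀ u v, 0 ≤ A u v := by
    intro u v
    rw [hAdef, SimpleGraph.adjMatrix_apply]
    split_ifs <;> norm_num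
  have hAA0 : ∀ u v, 0 ≤ (A * A) u v := by
    intro u v
    rw [Matrix.mul_apply]
    exact Finset.sum_nonneg (fun i _ => mul_nonneg (hA0 _ _) (hA0 _ _))
  have hMuv : ∀ u v, u ≠ v → M u v = (A * A) u v + A u v := by
    intro u v huv
    rw [hM]
    simp only [Matrix.add_apply, Matrix.smul_apply, Matrix.one_apply_ne huv, smul_eq_mul, mul_zero,
      add_zero]
  have hMM' : ∀ u v, ∑ w, M u w * M w v = c * M u v := by
    intro u v
    have h1 := congrFun (congrFun hMM u) v
    rw [Matrix.mul_apply] at h1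
    rw [h1]
    rfl
  have hMadj : ∀ u v, G.Adj u v → 0 < M u v := by
    intro u v h
    rw [hMuv u v h.ne]
    have h1 : A u v = 1 := by rw [hAdef, SimpleGraph.adjMatrix_apply, if_pos h]
    have h2 := hAA0 u v
    rw [h1]; linarith
  have hMuu : ∀ u, 0 < M u u := by
    intro u
    obtain ⟨w, hw⟩ := hnt u
    have h1 := hMM' u u
    have h2 : M u w * M w u ≤ ∑ w, M u w * M w u :=
      Finset.single_le_sum (f := fun w => M u w * M w u)
        (fun i _ => by
          show 0 ≤ M u i * M i u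
          rw [hMs i u]; exact mul_self_nonneg _) (Finset.mem_univ w)
    have h3 : 0 < M u w * M w u := mul_pos (hMadj _ _ hw) (hMadj _ _ hw.symm)
    have h4 : 0 < c * M u u := by linarith
    exact (mul_pos_iff_of_pos_left hc0).mp h4
  have hM0 : ∀ u v, 0 ≤ M u v := by
    intro u v
    by_cases h : u = v
    · subst h; exact (hMuu u).le
    · rw [hMuv u v h]; exact add_nonneg (hAA0 u v) (hA0 u v)
  have hMpos : ∀ u v, 0 < M u v := by
    intro u v
    have hstep : ∀ a b, G.Adj a b → 0 < M u a → 0 < M u b := by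
      intro a b hab ha
      have h1 := hMM' u b
      have h2 : M u a * M a b ≤ ∑ w, M u w * M w b :=
        Finset.single_le_sum (f := fun w => M u w * M w b)
          (fun i _ => mul_nonneg (hM0 _ _) (hM0 _ _)) (Finset.mem_univ a)
      have h3 : 0 < M u a * M a b := mul_pos ha (hMadj _ _ hab)
      have h4 : 0 < c * M u b := by linarith
      exact (mul_pos_iff_of_pos_left hc0).mp h4
    have key : ∀ a b, G.Walk a b → 0 < M u a → 0 < M u b := by
      intro a b w
      induction w with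
      | nil => exact id
      | cons hadj _ ih => exact fun h => ih (hstep _ _ hadj h)
    obtain ⟨w⟩ := hG.preconnected u v
    exact key u v w (hMuu u)
  have hcol : ∀ v, A *ᵥ (fun z => M z v) = θ₀ • (fun z => M z v) := by
    intro v
    ext z
    have h1 := congrFun (congrFun hAM z) v
    rw [Matrix.mul_apply] at h1
    simpa [Matrix.mulVec, dotProduct] using h1
  have hrank : ∀ u v w z, M w u * M z v = M w v * M z u := by
    intro u v w z
    obtain ⟨r, hr⟩ := perron G hG θ₀ (fun z => M z u) (fun z => M z v) (fun z => hMpos z u)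
      (by rw [← hAdef]; exact hcol u) (by rw [← hAdef]; exact hcol v)
    have h1 : ∀ z, M z v = r * M z u := fun z => congrFun hr z
    rw [h1 z, h1 w]; ring
  have htr : Matrix.trace M = c := by
    obtain ⟨u⟩ := hG.nonempty
    have h1 := hMM' u u
    have h2 : ∑ w, M u w * M w u = M u u * Matrix.trace M := by
      rw [Matrix.trace, Finset.mul_sum]
      refine Finset.sum_congr rfl (fun w _ => ?_)
      exact hrank w u u w
    rw [h2] at h1
    have h3 : M u u * (Matrix.trace M - c) = 0 := by linear_combination h1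
    rcases mul_eq_zero.mp h3 with h | h
    · exact absurd h (hMuu u).ne'
    · linarith
  have htrA : ∑ i, l i = 0 := by
    rw [← trace_conj U U' hU'U l, ← hAD, hAdef]
    exact G.trace_adjMatrix ℝ
  have htrM : ∑ i, e i = c := by
    rw [← trace_conj U U' hU'U e, ← hMD, htr]
  have hcard : (Finset.univ.filter (fun i => l i = θ₀)).card = 1 := by
    have h1 : ∑ i, e i = ∑ i, (if l i = θ₀ then c else 0) := by
      refine Finset.sum_congr rfl (fun i _ => ?_)
      rcases hev i with ⟨h1, h2⟩ | ⟨h1, h2⟩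
      · rw [if_pos h1, h2]
      · rw [if_neg h1, h2]
    rw [htrM, ← Finset.sum_filter, Finset.sum_const, nsmul_eq_mul] at h1
    have h2 : c * (((Finset.univ.filter (fun i => l i = θ₀)).card : ℝ) - 1) = 0 := by
      linear_combination -h1
    rcases mul_eq_zero.mp h2 with h | h
    · exact absurd h hc0.ne'
    · have : ((Finset.univ.filter (fun i => l i = θ₀)).card : ℝ) = (1 : ℕ) := by
        push_cast; linarith
      exact_mod_cast this
  obtain ⟨i₀, hi₀⟩ := Finset.card_eq_one.mp hcard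
  have hi₀' : ∀ i, l i = θ₀ ↔ i = i₀ := by
    intro i
    have : i ∈ Finset.univ.filter (fun i => l i = θ₀) ↔ i ∈ ({i₀} : Finset V) := by rw [hi₀]
    simpa using this
  refine ⟨M, by rw [hM, hAdef], hMpos, hMs, by rw [← hAdef]; exact hAM, hrank, ?_⟩
  intro τ hτ
  obtain ⟨m, hm⟩ := sum_zero_or (Finset.univ.erase i₀) (fun i => l i + (τ + 1)) (2 * τ + 1) (by
    intro i hi
    have h1 : l i ≠ θ₀ := by
      intro h
      exact (Finset.mem_erase.mp hi).1 ((hi₀' i).mp h)
    rcases hlc i with h | h | h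
    · exact absurd h h1
    · show l i + (τ + 1) = 2 * τ + 1 ∨ l i + (τ + 1) = 0
      rw [h]
      rcases hτ with h | h
      · left; rw [h]; ring
      · right; rw [h]; linarith
    · show l i + (τ + 1) = 2 * τ + 1 ∨ l i + (τ + 1) = 0
      rw [h]
      rcases hτ with h | h
      · right; rw [h]; linarith
      · left; rw [h]; ring)
  refine ⟨m, ?_⟩
  rw [← hm, Finset.sum_add_distrib, Finset.sum_const, nsmul_eq_mul,
    Finset.card_erase_of_mem (Finset.mem_univ i₀), Finset.card_univ]
  have h5 : ∑ i ∈ Finset.univ.erase i₀, l i = -θ₀ := by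
    have h6 := Finset.add_sum_erase Finset.univ l (Finset.mem_univ i₀)
    rw [htrA, (hi₀' i₀).mpr rfl] at h6
    linarith
  have h7 : 1 ≤ Fintype.card V := Fintype.card_pos_iff.mpr ⟨i₀⟩
  rw [h5, Nat.cast_sub h7]
  push_cast
  ring

end Pool.Agent.TEV
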