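import Mathlib
import Pool.Agent.TEV.GDefs
import Pool.Agent.TEV.Spec
import Pool.Agent.TEV.Alg

/-!
# Biregular graphs with three distinct eigenvalues
-/

set_option autoImplicit false

namespace Pool.Agent.TEV

open Matrix Finset

variable {V : Type*} [Fintype V] [DecidableEq V]

/-- The vertices of valency `k`. -/
def cls (G : SimpleGraph V) [DecidableRel G.Adj] (k : ℕ) : Finset V :=
  Finset.univ.filter (fun v => G.degree v = k)

omit [DecidableEq V] in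
theorem mem_cls (G : SimpleGraph V) [DecidableRel G.Adj] (k : ℕ) (v : V) :
    v ∈ cls G k ↔ G.degree v = k := by simp [cls]

/-- The number of neighbours of `u` of valency `k`. -/
def nb (G : SimpleGraph V) [DecidableRel G.Adj] (k : ℕ) (u : V) : ℕ :=
  ((G.neighborFinset u).filter (fun v => G.degree v = k)).card

/-- common neighbours. -/
def com (G : SimpleGraph V) [DecidableRel G.Adj] (u v : V) : ℕ :=
  (G.neighborFinset u ∩ G.neighborFinset v).card

omit [DecidableEq V] in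
theorem sum_two (G : SimpleGraph V) [DecidableRel G.Adj] (k₁ k₂ : ℕ) (hk : k₂ < k₁)
    (hdeg : ∀ v, G.degree v = k₁ ∨ G.degree v = k₂) (F : V → ℝ) (α β : ℝ)
    (h1 : ∀ v, G.degree v = k₁ → F v = α) (h2 : ∀ v, G.degree v = k₂ → F v = β) (s : Finset V) :
    ∑ v ∈ s, F v = ((s.filter (fun v => G.degree v = k₁)).card : ℝ) * α +
      ((s.filter (fun v => G.degree v = k₂)).card : ℝ) * β := by
  have h3 : ∀ v, F v = (if G.degree v = k₁ then α else 0) + (if G.degree v = k₂ then β else 0) := by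
    intro v
    rcases hdeg v with h | h
    · rw [h1 v h, if_pos h, if_neg (by rw [h]; exact hk.ne'), add_zero]
    · rw [h2 v h, if_neg (by rw [h]; exact hk.ne), if_pos h, zero_add]
  rw [Finset.sum_congr rfl (fun v _ => h3 v), Finset.sum_add_distrib, ← Finset.sum_filter,
    ← Finset.sum_filter, Finset.sum_const, Finset.sum_const, nsmul_eq_mul, nsmul_eq_mul]

omit [DecidableEq V] in
theorem nb_add (G : SimpleGraph V) [DecidableRel G.Adj] (k₁ k₂ : ℕ) (hk : k₂ < k₁)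
    (hdeg : ∀ v, G.degree v = k₁ ∨ G.degree v = k₂) (u : V) :
    nb G k₁ u + nb G k₂ u = G.degree u := by
  have h := sum_two G k₁ k₂ hk hdeg (fun _ => 1) 1 1 (fun _ _ => rfl) (fun _ _ => rfl)
    (G.neighborFinset u)
  rw [Finset.sum_const, nsmul_eq_mul, G.card_neighborFinset_eq_degree, mul_one, mul_one, mul_one] at h
  exact_mod_cast h.symm

omit [DecidableEq V] in
theorem cls_add (G : SimpleGraph V) [DecidableRel G.Adj] (k₁ k₂ : ℕ) (hk : k₂ < k₁)
    (hdeg : ∀ v, G.degree v = k₁ ∨ G.degree v = k₂) :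
    (cls G k₁).card + (cls G k₂).card = Fintype.card V := by
  have h := sum_two G k₁ k₂ hk hdeg (fun _ => 1) 1 1 (fun _ _ => rfl) (fun _ _ => rfl)
    Finset.univ
  rw [Finset.sum_const, nsmul_eq_mul, mul_one, mul_one, mul_one, Finset.card_univ] at h
  exact_mod_cast h.symm

theorem entry_ne (G : SimpleGraph V) [DecidableRel G.Adj] (r : ℝ) (u v : V) (huv : u ≠ v) :
    (G.adjMatrix ℝ * G.adjMatrix ℝ + G.adjMatrix ℝ + r • (1 : Matrix V V ℝ)) u v =
      ((com G u v + if G.Adj u v then 1 else 0 : ℕ) : ℝ) := by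
  rw [Matrix.add_apply, Matrix.add_apply, Matrix.smul_apply, Matrix.one_apply_ne huv,
    smul_eq_mul, mul_zero, add_zero, SimpleGraph.adjMatrix_mul_apply, SimpleGraph.adjMatrix_apply]
  push_cast
  congr 1
  simp only [SimpleGraph.adjMatrix_apply]
  rw [Finset.sum_boole, com]
  congr 2
  ext z
  simp [SimpleGraph.adj_comm]

theorem entry_eq (G : SimpleGraph V) [DecidableRel G.Adj] (r : ℝ) (u : V) :
    (G.adjMatrix ℝ * G.adjMatrix ℝ + G.adjMatrix ℝ + r • (1 : Matrix V V ℝ)) u u =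
      (G.degree u : ℝ) + r := by
  rw [Matrix.add_apply, Matrix.add_apply, Matrix.smul_apply, Matrix.one_apply_eq,
    SimpleGraph.adjMatrix_mul_self_apply_self, SimpleGraph.adjMatrix_apply, if_neg (G.loopless.irrefl u)]
  simp

theorem row_sum (G : SimpleGraph V) [DecidableRel G.Adj] (r : ℝ) (F : V → ℝ) (u : V) :
    ∑ w, (G.adjMatrix ℝ * G.adjMatrix ℝ + G.adjMatrix ℝ + r • (1 : Matrix V V ℝ)) u w * F w =
      ∑ z ∈ G.neighborFinset u, (∑ w ∈ G.neighborFinset z, F w) + ∑ z ∈ G.neighborFinset u, F z +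
        r * F u := by
  have h1 : ∑ w, (G.adjMatrix ℝ * G.adjMatrix ℝ + G.adjMatrix ℝ + r • (1 : Matrix V V ℝ)) u w * F w =
      ((G.adjMatrix ℝ * G.adjMatrix ℝ + G.adjMatrix ℝ + r • (1 : Matrix V V ℝ)) *ᵥ F) u := rfl
  rw [h1, Matrix.add_mulVec, Matrix.add_mulVec, ← Matrix.mulVec_mulVec, Matrix.smul_mulVec,
    Matrix.one_mulVec]
  simp only [Pi.add_apply, Pi.smul_apply, smul_eq_mul, SimpleGraph.adjMatrix_mulVec_apply]

/-- The parameters of a biregular graph with three eigenvalues and `θ₁ + θ₂ = -1`. -/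
theorem par_of_graph (G : SimpleGraph V) [DecidableRel G.Adj] (θ₀ θ₁ θ₂ : ℝ) (k₁ k₂ : ℕ)
    (B : BiThree G θ₀ θ₁ θ₂ k₁ k₂) (hsum : θ₁ + θ₂ = -1) :
    ∃ τ g x y f h W : ℤ, Par τ g x y f h W ∧ ((τ : ℝ) = θ₁ ∨ (τ : ℝ) = θ₂) ∧
      (k₁ : ℤ) = g * x ^ 2 + (τ ^ 2 + τ) ∧ (k₂ : ℤ) = g * y ^ 2 + (τ ^ 2 + τ) ∧
      θ₁ * θ₂ = -((τ : ℝ) ^ 2 + τ) ∧
      ((cls G k₁).card : ℤ) = W - y * h ∧ ((cls G k₂).card : ℤ) = W + x * h ∧
      (∀ u, G.degree u = k₁ → (nb G k₁ u : ℤ) = x * (g * x - f) + τ) ∧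
      (∀ u, G.degree u = k₂ → (nb G k₂ u : ℤ) = y * (g * y + f) + τ) ∧
      (∀ u v, u ≠ v → G.degree u = k₂ → G.degree v = k₂ →
        ((com G u v + if G.Adj u v then 1 else 0 : ℕ) : ℤ) = g * y ^ 2) := by
  obtain ⟨u₁, hu₁⟩ := B.ex1
  obtain ⟨u₂, hu₂⟩ := B.ex2
  have hk := B.hk
  have hdeg := B.deg
  have hne : u₁ ≠ u₂ := by
    rintro rfl
    omega
  have : Nontrivial V := ⟨⟨u₁, u₂, hne⟩⟩
  have hnt : ∀ v, ∃ w, G.Adj v w := fun v => B.conn.preconnected.exists_adj_of_nontrivial v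
  obtain ⟨M, hM, hpos, hsym, hAM, hrank, hm⟩ := spec_facts G B.conn hnt θ₀ θ₁ θ₂ B.h01 B.h12 B.spec hsum
  obtain ⟨t, ht⟩ : ∃ t : ℝ, t = -(θ₁ * θ₂) := ⟨_, rfl⟩
  obtain ⟨a₁, ha₁⟩ : ∃ a : ℝ, a = k₁ - t := ⟨_, rfl⟩
  obtain ⟨a₂, ha₂⟩ : ∃ a : ℝ, a = k₂ - t := ⟨_, rfl⟩
  have hd1 : ∀ u, G.degree u = k₁ → M u u = a₁ := by
    intro u hu
    rw [hM, entry_eq, hu, ha₁, ht]; ring
  have hd2 : ∀ u, G.degree u = k₂ → M u u = a₂ := by
    intro u hu
    rw [hM, entry_eq, hu, ha₂, ht]; ring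
  have hoff : ∀ u v, u ≠ v → M u v = ((com G u v + if G.Adj u v then 1 else 0 : ℕ) : ℝ) := by
    intro u v huv
    rw [hM, entry_ne G _ u v huv]
  have hsq : ∀ u v, M u v ^ 2 = M u u * M v v := by
    intro u v
    have h1 := hrank u v u v
    rw [h1, hsym v u]; ring
  have ha1 : 0 < a₁ := by rw [← hd1 u₁ hu₁]; exact hpos _ _
  have ha2 : 0 < a₂ := by rw [← hd2 u₂ hu₂]; exact hpos _ _
  have h11 : ∀ u v, G.degree u = k₁ → G.degree v = k₁ → M u v = a₁ := by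
    intro u v hu hv
    have h1 := hsq u v
    rw [hd1 u hu, hd1 v hv, ← sq] at h1
    exact (pow_left_inj₀ (hpos u v).le ha1.le (by norm_num)).mp h1
  have h22 : ∀ u v, G.degree u = k₂ → G.degree v = k₂ → M u v = a₂ := by
    intro u v hu hv
    have h1 := hsq u v
    rw [hd2 u hu, hd2 v hv, ← sq] at h1
    exact (pow_left_inj₀ (hpos u v).le ha2.le (by norm_num)).mp h1
  obtain ⟨P, hP⟩ : ∃ P : ℕ, P = com G u₁ u₂ + if G.Adj u₁ u₂ then 1 else 0 := ⟨_, rfl⟩
  have hP' : M u₁ u₂ = P := by rw [hP]; exact hoff u₁ u₂ hne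
  have hP2 : (P : ℝ) ^ 2 = a₁ * a₂ := by rw [← hP', hsq, hd1 u₁ hu₁, hd2 u₂ hu₂]
  have hP0 : (0 : ℝ) < P := by rw [← hP']; exact hpos _ _
  have h12 : ∀ u v, G.degree u = k₁ → G.degree v = k₂ → M u v = P := by
    intro u v hu hv
    have h1 := hsq u v
    rw [hd1 u hu, hd2 v hv, ← hP2] at h1
    exact (pow_left_inj₀ (hpos u v).le hP0.le (by norm_num)).mp h1
  have h21 : ∀ u v, G.degree u = k₂ → G.degree v = k₁ → M u v = P := by
    intro u v hu hv
    rw [hsym]; exact h12 v u hv hu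
  have ha12 : a₂ < a₁ := by
    rw [ha₁, ha₂]
    have : (k₂ : ℝ) < k₁ := by exact_mod_cast hk
    linarith
  have hPa1 : (P : ℝ) < a₁ := by
    by_contra hle
    push Not at hle
    nlinarith
  have hPa2 : a₂ < (P : ℝ) := by
    by_contra hle
    push Not at hle
    nlinarith
  -- the eigenvector equation
  have hev : ∀ u w, ∑ z ∈ G.neighborFinset u, M z w = θ₀ * M u w := by
    intro u w
    have h1 := congrFun (congrFun hAM u) w
    rw [SimpleGraph.adjMatrix_mul_apply] at h1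
    rw [h1]
    rfl
  have hev1 : ∀ u, (nb G k₁ u : ℝ) * a₁ + nb G k₂ u * P = θ₀ * M u u₁ := by
    intro u
    rw [← hev u u₁]
    exact (sum_two G k₁ k₂ hk hdeg (fun z => M z u₁) a₁ P (fun v hv => h11 v u₁ hv hu₁)
      (fun v hv => h21 v u₁ hv hu₁) (G.neighborFinset u)).symm
  have hev2 : ∀ u, (nb G k₁ u : ℝ) * P + nb G k₂ u * a₂ = θ₀ * M u u₂ := by
    intro u
    rw [← hev u u₂]
    exact (sum_two G k₁ k₂ hk hdeg (fun z => M z u₂) P a₂ (fun v hv => h12 v u₂ hv hu₂)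
      (fun v hv => h22 v u₂ hv hu₂) (G.neighborFinset u)).symm
  have hadd := nb_add G k₁ k₂ hk hdeg
  have hc1 : ∀ u, G.degree u = k₁ → nb G k₁ u = nb G k₁ u₁ ∧ nb G k₂ u = nb G k₂ u₁ := by
    intro u hu
    have e1 := hev1 u
    have e2 := hev1 u₁
    rw [h11 u u₁ hu hu₁] at e1
    rw [h11 u₁ u₁ hu₁ hu₁] at e2
    have s1 : (nb G k₁ u : ℝ) + nb G k₂ u = k₁ := by exact_mod_cast (by rw [hadd u, hu])
    have s2 : (nb G k₁ u₁ : ℝ) + nb G k₂ u₁ = k₁ := by exact_mod_cast (by rw [hadd u₁, hu₁])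
    have h1 : (a₁ - P) * ((nb G k₁ u : ℝ) - nb G k₁ u₁) = 0 := by
      linear_combination e1 - e2 - P * s1 + P * s2
    rcases mul_eq_zero.mp h1 with h | h
    · exact absurd h (by linarith)
    · have h2 : (nb G k₁ u : ℝ) = nb G k₁ u₁ := by linarith
      have h3 : nb G k₁ u = nb G k₁ u₁ := by exact_mod_cast h2
      refine ⟨h3, ?_⟩
      have h4 := hadd u
      have h5 := hadd u₁
      omega
  have hc2 : ∀ u, G.degree u = k₂ → nb G k₁ u = nb G k₁ u₂ ∧ nb G k₂ u = nb G k₂ u₂ := by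
    intro u hu
    have e1 := hev2 u
    have e2 := hev2 u₂
    rw [h22 u u₂ hu hu₂] at e1
    rw [h22 u₂ u₂ hu₂ hu₂] at e2
    have s1 : (nb G k₁ u : ℝ) + nb G k₂ u = k₂ := by exact_mod_cast (by rw [hadd u, hu])
    have s2 : (nb G k₁ u₂ : ℝ) + nb G k₂ u₂ = k₂ := by exact_mod_cast (by rw [hadd u₂, hu₂])
    have h1 : (a₂ - P) * ((nb G k₂ u : ℝ) - nb G k₂ u₂) = 0 := by
      linear_combination e1 - e2 - P * s1 + P * s2
    rcases mul_eq_zero.mp h1 with h | h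
    · exact absurd h (by linarith)
    · have h2 : (nb G k₂ u : ℝ) = nb G k₂ u₂ := by linarith
      have h3 : nb G k₂ u = nb G k₂ u₂ := by exact_mod_cast h2
      refine ⟨?_, h3⟩
      have h4 := hadd u
      have h5 := hadd u₂
      omega
  obtain ⟨n₁, hn₁⟩ : ∃ n, n = (cls G k₁).card := ⟨_, rfl⟩
  obtain ⟨n₂, hn₂⟩ : ∃ n, n = (cls G k₂).card := ⟨_, rfl⟩
  obtain ⟨k11, hk11⟩ : ∃ n, n = nb G k₁ u₁ := ⟨_, rfl⟩
  obtain ⟨k12, hk12⟩ : ∃ n, n = nb G k₂ u₁ := ⟨_, rfl⟩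
  obtain ⟨k21, hk21⟩ : ∃ n, n = nb G k₁ u₂ := ⟨_, rfl⟩
  obtain ⟨k22, hk22⟩ : ∃ n, n = nb G k₂ u₂ := ⟨_, rfl⟩
  rw [← hk11, ← hk12] at hc1
  rw [← hk21, ← hk22] at hc2
  -- sums of indicator functions
  have hind : ∀ (k : ℕ) (u : V),
      ∑ z ∈ G.neighborFinset u, (if G.degree z = k then (1 : ℝ) else 0) = nb G k u := by
    intro k u
    rw [Finset.sum_boole, nb]
  have hrow : ∀ (k : ℕ) (u : V) (α β γ δ : ℝ), (∀ v, G.degree v = k₁ → (nb G k v : ℝ) = α) →
      (∀ v, G.degree v = k₂ → (nb G k v : ℝ) = β) →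
      (∀ v, G.degree v = k₁ → M u v * (if G.degree v = k then (1 : ℝ) else 0) = γ) →
      (∀ v, G.degree v = k₂ → M u v * (if G.degree v = k then (1 : ℝ) else 0) = δ) →
      (nb G k₁ u : ℝ) * α + nb G k₂ u * β + nb G k u - t * (if G.degree u = k then (1 : ℝ) else 0) =
        n₁ * γ + n₂ * δ := by
    intro k u α β γ δ hα hβ hγ hδ
    have h1 := row_sum G (θ₁ * θ₂) (fun z => if G.degree z = k then (1 : ℝ) else 0) u
    rw [← hM] at h1
    rw [sum_two G k₁ k₂ hk hdeg _ γ δ hγ hδ] at h1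
    simp only [hind] at h1
    rw [sum_two G k₁ k₂ hk hdeg (fun z => (nb G k z : ℝ)) α β hα hβ] at h1
    rw [hn₁, hn₂, ht]
    have h2 : (nb G k₁ u : ℝ) * α + nb G k₂ u * β + nb G k u +
        θ₁ * θ₂ * (if G.degree u = k then (1 : ℝ) else 0) =
        (cls G k₁).card * γ + (cls G k₂).card * δ := h1.symm
    linear_combination h2
  have hkne : ¬ k₁ = k₂ := by omega
  have hkne' : ¬ k₂ = k₁ := by omega
  have c12R : (k11 : ℝ) * k12 + k12 * k22 + k12 = P * n₂ := by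
    have h1 := hrow k₂ u₁ k12 k22 0 P (fun v hv => by rw [(hc1 v hv).2])
      (fun v hv => by rw [(hc2 v hv).2])
      (fun v hv => by rw [hv, if_neg hkne, mul_zero])
      (fun v hv => by rw [if_pos hv, mul_one]; exact h12 u₁ v hu₁ hv)
    rw [hu₁, if_neg hkne, ← hk11, ← hk12] at h1
    linear_combination h1
  have c21R : (k21 : ℝ) * k11 + k22 * k21 + k21 = P * n₁ := by
    have h1 := hrow k₁ u₂ k11 k21 P 0 (fun v hv => by rw [(hc1 v hv).1])
      (fun v hv => by rw [(hc2 v hv).1])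
      (fun v hv => by rw [if_pos hv, mul_one]; exact h21 u₂ v hu₂ hv)
      (fun v hv => by rw [hv, if_neg hkne', mul_zero])
    rw [hu₂, if_neg hkne', ← hk21, ← hk22] at h1
    linear_combination h1
  have c11R : (k11 : ℝ) * k11 + k12 * k21 + k11 - t = a₁ * n₁ := by
    have h1 := hrow k₁ u₁ k11 k21 a₁ 0 (fun v hv => by rw [(hc1 v hv).1])
      (fun v hv => by rw [(hc2 v hv).1])
      (fun v hv => by rw [if_pos hv, mul_one]; exact h11 u₁ v hu₁ hv)
      (fun v hv => by rw [hv, if_neg hkne', mul_zero])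
    rw [if_pos hu₁, ← hk11, ← hk12] at h1
    linear_combination h1
  have c22R : (k21 : ℝ) * k12 + k22 * k22 + k22 - t = a₂ * n₂ := by
    have h1 := hrow k₂ u₂ k12 k22 0 a₂ (fun v hv => by rw [(hc1 v hv).2])
      (fun v hv => by rw [(hc2 v hv).2])
      (fun v hv => by rw [hv, if_neg hkne, mul_zero])
      (fun v hv => by rw [if_pos hv, mul_one]; exact h22 u₂ v hu₂ hv)
    rw [if_pos hu₂, ← hk21, ← hk22] at h1
    linear_combination h1
  -- `t` is an integer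
  have hsum12 : n₁ + n₂ = Fintype.card V := by rw [hn₁, hn₂]; exact cls_add G k₁ k₂ hk hdeg
  have hk2pos : 0 < k₂ := by
    rw [← hu₂]
    exact B.conn.preconnected.degree_pos_of_nontrivial u₂
  have hcard3 : 3 ≤ Fintype.card V := by
    have h1 := G.degree_lt_card_verts u₁
    omega
  obtain ⟨T, hT⟩ : ∃ T : ℤ, (T : ℝ) = t := by
    have h1 : 1 < n₁ ∨ 1 < n₂ := by omega
    rcases h1 with h1 | h1
    · rw [hn₁] at h1
      obtain ⟨a, ha, b, hb, hab⟩ := Finset.one_lt_card.mp h1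
      rw [mem_cls] at ha hb
      have h2 := h11 a b ha hb
      rw [hoff a b hab] at h2
      refine ⟨(k₁ : ℤ) - ((com G a b + if G.Adj a b then 1 else 0 : ℕ) : ℤ), ?_⟩
      push_cast
      push_cast at h2
      linarith
    · rw [hn₂] at h1
      obtain ⟨a, ha, b, hb, hab⟩ := Finset.one_lt_card.mp h1
      rw [mem_cls] at ha hb
      have h2 := h22 a b ha hb
      rw [hoff a b hab] at h2
      refine ⟨(k₂ : ℤ) - ((com G a b + if G.Adj a b then 1 else 0 : ℕ) : ℤ), ?_⟩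
      push_cast
      push_cast at h2
      linarith
  have ha₁' : a₁ = (k₁ : ℤ) - T := by rw [ha₁, hT]; push_cast; rfl
  have ha₂' : a₂ = (k₂ : ℤ) - T := by rw [ha₂, hT]; push_cast; rfl
  have hTk : T < k₂ := by
    have : (T : ℝ) < (k₂ : ℤ) := by rw [ha₂'] at ha2; linarith
    exact_mod_cast this
  have e1 := hev1 u₁
  rw [h11 u₁ u₁ hu₁ hu₁, ← hk11, ← hk12, ha₁'] at e1
  have e4 := hev2 u₂
  rw [h22 u₂ u₂ hu₂ hu₂, ← hk21, ← hk22, ha₂'] at e4
  have hA1 : k11 + 1 ≤ n₁ := by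
    rw [hk11, hn₁]
    have h1 : (G.neighborFinset u₁).filter (fun v => G.degree v = k₁) ⊆ (cls G k₁).erase u₁ := by
      intro z hz
      rw [Finset.mem_filter, SimpleGraph.mem_neighborFinset] at hz
      rw [Finset.mem_erase, mem_cls]
      exact ⟨hz.1.ne', hz.2⟩
    have h2 := Finset.card_le_card h1
    have h3 := Finset.card_erase_add_one ((mem_cls G k₁ u₁).mpr hu₁)
    rw [nb]
    omega
  have hD1 : k22 + 1 ≤ n₂ := by
    rw [hk22, hn₂]
    have h1 : (G.neighborFinset u₂).filter (fun v => G.degree v = k₂) ⊆ (cls G k₂).erase u₂ := by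
      intro z hz
      rw [Finset.mem_filter, SimpleGraph.mem_neighborFinset] at hz
      rw [Finset.mem_erase, mem_cls]
      exact ⟨hz.1.ne', hz.2⟩
    have h2 := Finset.card_le_card h1
    have h3 := Finset.card_erase_add_one ((mem_cls G k₂ u₂).mpr hu₂)
    rw [nb]
    omega
  have hB1 : k12 ≤ n₂ := by
    rw [hk12, hn₂, nb]
    apply Finset.card_le_card
    intro z hz
    rw [Finset.mem_filter] at hz
    rw [mem_cls]
    exact hz.2
  have hPZ : ((P : ℤ)) ^ 2 = ((k₁ : ℤ) - T) * ((k₂ : ℤ) - T) := by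
    rw [ha₁', ha₂'] at hP2
    exact_mod_cast hP2
  have hPp : (0 : ℤ) < (P : ℤ) := by exact_mod_cast hP0
  have hTr : (T : ℝ) = -(θ₁ * θ₂) := by rw [hT, ht]
  have s1 : (k11 : ℤ) + k12 = k₁ := by
    have := hadd u₁
    rw [hu₁, ← hk11, ← hk12] at this
    exact_mod_cast this
  have s2 : (k21 : ℤ) + k22 = k₂ := by
    have := hadd u₂
    rw [hu₂, ← hk21, ← hk22] at this
    exact_mod_cast this
  rw [← hT] at c11R c22R
  rw [ha₁'] at c11R
  rw [ha₂'] at c22R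
  obtain ⟨τ, g, x, y, f, h, W, hPar, hτ, q1, q2, q3, q4, q5, q6, q7⟩ :=
    par_alg θ₀ θ₁ θ₂ B.h01 B.h12 hsum k₁ k₂ k11 k12 k21 k22 n₁ n₂ P T (by exact_mod_cast hk) hTr
      s1 s2 (by positivity) (by positivity) hTk hPp hPZ (by exact_mod_cast e1) (by exact_mod_cast e4)
      (by exact_mod_cast c12R) (by exact_mod_cast c21R) (by exact_mod_cast c11R)
      (by exact_mod_cast c22R) (by exact_mod_cast hA1) (by exact_mod_cast hD1)
      (by exact_mod_cast hB1)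
      (by
        intro τ hτ
        obtain ⟨m, hm'⟩ := hm τ hτ
        refine ⟨m, ?_⟩
        rw [← hm', ← hsum12]
        push_cast
        ring)
  refine ⟨τ, g, x, y, f, h, W, hPar, hτ, by linarith, by linarith, ?_, ?_, ?_, ?_, ?_, ?_⟩
  · have : (T : ℝ) = (τ : ℝ) ^ 2 + τ := by exact_mod_cast q3
    rw [← this]; linarith
  · rw [← hn₁]; exact q4
  · rw [← hn₂]; exact q5
  · intro u hu
    rw [(hc1 u hu).1]; exact q6
  · intro u hu
    rw [(hc2 u hu).2]; exact q7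
  · intro u v huv hu hv
    have h1 := h22 u v hu hv
    rw [hoff u v huv, ha₂'] at h1
    rw [← q2]
    exact_mod_cast h1

end Pool.Agent.TEV
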