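import Mathlib
import Pool.Agent.TEV.GDefs

/-!
# The Petersen cone

The Petersen graph on the 2-subsets of a 5-element set, its cone, and a characterisation.
-/

set_option autoImplicit false

namespace Pool.Agent.TEV

open Finset

instance : DecidableRel petersen.Adj := fun s t => inferInstanceAs (Decidable (Disjoint s.1 t.1))

instance : DecidableRel (cone petersen).Adj
  | some a, some b => inferInstanceAs (Decidable (petersen.Adj a b))
  | none, none => inferInstanceAs (Decidable False)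
  | none, some _ => inferInstanceAs (Decidable True)
  | some _, none => inferInstanceAs (Decidable True)

theorem petersen_cone_degree_none : (cone petersen).degree none = 10 := by decide

theorem petersen_cone_degree_some : ∀ s, (cone petersen).degree (some s) = 4 := by decide

theorem petersen_cone_card : Fintype.card (Option {s : Finset (Fin 5) // s.card = 2}) = 11 := by decide

variable {V : Type*} [Fintype V] [DecidableEq V]

/-- A bijective homomorphism which does not increase valencies is an isomorphism. -/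
theorem iso_of_hom {W : Type*} [Fintype W] [DecidableEq W] (H : SimpleGraph W) [DecidableRel H.Adj]
    (G : SimpleGraph V) [DecidableRel G.Adj] (Φ : W ≃ V)
    (hom : ∀ x y, H.Adj x y → G.Adj (Φ x) (Φ y)) (hdeg : ∀ x, G.degree (Φ x) ≤ H.degree x) :
    Nonempty (G ≃g H) := by
  have key : ∀ x y, G.Adj (Φ x) (Φ y) → H.Adj x y := by
    intro x y hxy
    have h1 : (H.neighborFinset x).image Φ ⊆ G.neighborFinset (Φ x) := by
      intro z hz
      rw [Finset.mem_image] at hz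
      obtain ⟨w, hw, rfl⟩ := hz
      rw [SimpleGraph.mem_neighborFinset] at hw ⊢
      exact hom x w hw
    have h2 : (H.neighborFinset x).image Φ = G.neighborFinset (Φ x) := by
      apply Finset.eq_of_subset_of_card_le h1
      rw [Finset.card_image_of_injective _ Φ.injective, H.card_neighborFinset_eq_degree,
        G.card_neighborFinset_eq_degree]
      exact hdeg x
    have h3 : Φ y ∈ (H.neighborFinset x).image Φ := by
      rw [h2, SimpleGraph.mem_neighborFinset]; exact hxy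
    rw [Finset.mem_image] at h3
    obtain ⟨w, hw, hwy⟩ := h3
    rw [Φ.injective hwy, SimpleGraph.mem_neighborFinset] at hw
    exact hw
  refine ⟨(RelIso.symm ⟨Φ, ?_⟩)⟩
  intro x y
  exact ⟨key x y, hom x y⟩

/-- The ten labels. -/
def lab : Fin 10 → {s : Finset (Fin 5) // s.card = 2} :=
  ![⟨{0, 1}, by decide⟩, ⟨{2, 3}, by decide⟩, ⟨{2, 4}, by decide⟩, ⟨{3, 4}, by decide⟩,
    ⟨{0, 4}, by decide⟩, ⟨{1, 4}, by decide⟩, ⟨{1, 3}, by decide⟩, ⟨{0, 3}, by decide⟩,
    ⟨{1, 2}, by decide⟩, ⟨{0, 2}, by decide⟩]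

/-- The fifteen edges. -/
def edg : List (Fin 10 × Fin 10) :=
  [(0, 1), (0, 2), (0, 3), (1, 4), (1, 5), (2, 6), (2, 7), (3, 8), (3, 9), (4, 6), (4, 8), (5, 7),
    (5, 9), (6, 9), (8, 7)]

theorem lab_bij : Function.Bijective lab := by decide

theorem lab_edg : ∀ i j, petersen.Adj (lab i) (lab j) → (i, j) ∈ edg ∨ (j, i) ∈ edg := by decide

/-- A graph on `11` vertices with a vertex adjacent to all others, all others of valency `4`, and
any two others with `2 - [adjacent]` common neighbours, is the Petersen cone. -/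
theorem petersen_cone_of (G : SimpleGraph V) [DecidableRel G.Adj] (v₀ : V)
    (hcard : Fintype.card V = 11) (hv₀ : ∀ u, u ≠ v₀ → G.Adj v₀ u)
    (hdeg : ∀ u, u ≠ v₀ → G.degree u = 4)
    (hcom : ∀ u v, u ≠ v → u ≠ v₀ → v ≠ v₀ →
      (G.neighborFinset u ∩ G.neighborFinset v).card + (if G.Adj u v then 1 else 0) = 2) :
    Nonempty (G ≃g cone petersen) := by
  have hmem : ∀ u v w, w ∈ G.neighborFinset u ∩ G.neighborFinset v ↔ G.Adj u w ∧ G.Adj v w := by
    intro u v w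
    rw [Finset.mem_inter, SimpleGraph.mem_neighborFinset, SimpleGraph.mem_neighborFinset]
  -- no triangles outside `v₀`
  have tri : ∀ a b c, a ≠ v₀ → b ≠ v₀ → c ≠ v₀ → G.Adj a b → G.Adj b c → G.Adj a c → False := by
    intro a b c ha hb hc hab hbc hac
    have h1 := hcom a b hab.ne ha hb
    rw [if_pos hab] at h1
    have h2 : ({v₀, c} : Finset V) ⊆ G.neighborFinset a ∩ G.neighborFinset b := by
      intro z hz
      rw [Finset.mem_insert, Finset.mem_singleton] at hz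
      rw [hmem]
      rcases hz with rfl | rfl
      · exact ⟨(hv₀ a ha).symm, (hv₀ b hb).symm⟩
      · exact ⟨hac, hbc⟩
    have h3 := Finset.card_le_card h2
    rw [Finset.card_pair hc.symm] at h3
    omega
  -- no quadrangles outside `v₀`
  have quad : ∀ a b c d, a ≠ b → a ≠ v₀ → b ≠ v₀ → c ≠ v₀ → d ≠ v₀ → G.Adj a c → G.Adj b c →
      G.Adj a d → G.Adj b d → c = d := by
    intro a b c d hab ha hb hc hd hac hbc had hbd
    by_contra hcd
    have h1 := hcom a b hab ha hb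
    have h2 : ({v₀, c, d} : Finset V) ⊆ G.neighborFinset a ∩ G.neighborFinset b := by
      intro z hz
      rw [Finset.mem_insert, Finset.mem_insert, Finset.mem_singleton] at hz
      rw [hmem]
      rcases hz with rfl | rfl | rfl
      · exact ⟨(hv₀ a ha).symm, (hv₀ b hb).symm⟩
      · exact ⟨hac, hbc⟩
      · exact ⟨had, hbd⟩
    have h3 := Finset.card_le_card h2
    rw [Finset.card_eq_three.mpr ⟨v₀, c, d, hc.symm, hd.symm, hcd, rfl⟩] at h3
    split_ifs at h1 <;> omega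
  -- nonadjacent vertices have a common neighbour
  have ex : ∀ a b, a ≠ b → a ≠ v₀ → b ≠ v₀ → ¬ G.Adj a b →
      ∃ c, c ≠ v₀ ∧ G.Adj a c ∧ G.Adj b c := by
    intro a b hab ha hb hnab
    have h1 := hcom a b hab ha hb
    rw [if_neg hnab, add_zero] at h1
    obtain ⟨c, hc, hcv⟩ := Finset.exists_mem_ne (by omega : 1 < (G.neighborFinset a ∩ G.neighborFinset b).card) v₀
    rw [hmem] at hc
    exact ⟨c, hcv, hc.1, hc.2⟩
  -- three neighbours outside `v₀`
  have nbr3 : ∀ u x y z, u ≠ v₀ → x ≠ v₀ → y ≠ v₀ → z ≠ v₀ → G.Adj u x → G.Adj u y → G.Adj u z →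
      x ≠ y → x ≠ z → y ≠ z → ∀ w, w ≠ v₀ → G.Adj u w → w = x ∨ w = y ∨ w = z := by
    intro u x y z hu hx hy hz hux huy huz hxy hxz hyz w hw huw
    have h2 : ({v₀, x, y, z} : Finset V) ⊆ G.neighborFinset u := by
      intro s hs
      rw [Finset.mem_insert, Finset.mem_insert, Finset.mem_insert, Finset.mem_singleton] at hs
      rw [SimpleGraph.mem_neighborFinset]
      rcases hs with rfl | rfl | rfl | rfl
      · exact (hv₀ u hu).symm
      · exact hux
      · exact huy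
      · exact huz
    have h3 : ({v₀, x, y, z} : Finset V).card = 4 := by
      rw [Finset.card_insert_of_notMem, Finset.card_eq_three.mpr ⟨x, y, z, hxy, hxz, hyz, rfl⟩]
      simp only [Finset.mem_insert, Finset.mem_singleton, not_or]
      exact ⟨hx.symm, hy.symm, hz.symm⟩
    have h4 : ({v₀, x, y, z} : Finset V) = G.neighborFinset u := by
      apply Finset.eq_of_subset_of_card_le h2
      rw [G.card_neighborFinset_eq_degree, hdeg u hu, h3]
    have h5 : w ∈ ({v₀, x, y, z} : Finset V) := by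
      rw [h4, SimpleGraph.mem_neighborFinset]; exact huw
    rw [Finset.mem_insert, Finset.mem_insert, Finset.mem_insert, Finset.mem_singleton] at h5
    rcases h5 with h | h | h | h
    · exact absurd h hw
    · exact Or.inl h
    · exact Or.inr (Or.inl h)
    · exact Or.inr (Or.inr h)
  -- the first vertex and its neighbours
  obtain ⟨a, ha⟩ : ∃ a, a ≠ v₀ := by
    have : Nontrivial V := Fintype.one_lt_card_iff_nontrivial.mp (by omega)
    exact exists_ne v₀
  have hN : ∀ u, u ≠ v₀ → ((G.neighborFinset u).erase v₀).card = 3 := by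
    intro u hu
    rw [Finset.card_erase_of_mem, G.card_neighborFinset_eq_degree, hdeg u hu]
    rw [SimpleGraph.mem_neighborFinset]
    exact (hv₀ u hu).symm
  have hNm : ∀ u w, w ∈ (G.neighborFinset u).erase v₀ ↔ w ≠ v₀ ∧ G.Adj u w := by
    intro u w
    rw [Finset.mem_erase, SimpleGraph.mem_neighborFinset]
  obtain ⟨b₁, b₂, b₃, hb12, hb13, hb23, hNa⟩ := Finset.card_eq_three.mp (hN a ha)
  obtain ⟨hb1, hab1⟩ : b₁ ≠ v₀ ∧ G.Adj a b₁ := by rw [← hNm, hNa]; simp
  obtain ⟨hb2, hab2⟩ : b₂ ≠ v₀ ∧ G.Adj a b₂ := by rw [← hNm, hNa]; simp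
  obtain ⟨hb3, hab3⟩ : b₃ ≠ v₀ ∧ G.Adj a b₃ := by rw [← hNm, hNa]; simp
  -- the neighbours of `b₁`
  have hcd : (((G.neighborFinset b₁).erase v₀).erase a).card = 2 := by
    rw [Finset.card_erase_of_mem, hN b₁ hb1]
    rw [hNm]; exact ⟨ha, hab1.symm⟩
  obtain ⟨c₁, d₁, hcd1, hNb⟩ := Finset.card_eq_two.mp hcd
  obtain ⟨hc1a, hc1, hbc1⟩ : c₁ ≠ a ∧ c₁ ≠ v₀ ∧ G.Adj b₁ c₁ := by
    rw [← hNm, ← Finset.mem_erase, hNb]; simp
  obtain ⟨hd1a, hd1, hbd1⟩ : d₁ ≠ a ∧ d₁ ≠ v₀ ∧ G.Adj b₁ d₁ := by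
    rw [← hNm, ← Finset.mem_erase, hNb]; simp
  -- second neighbours of `a` are not adjacent to `a`
  have nab : ∀ b c, b ≠ v₀ → c ≠ v₀ → G.Adj a b → G.Adj b c → ¬ G.Adj a c := by
    intro b c hb hc hab hbc hac
    exact tri a b c ha hb hc hab hbc hac
  have hac1 : ¬ G.Adj a c₁ := nab b₁ c₁ hb1 hc1 hab1 hbc1
  have had1 : ¬ G.Adj a d₁ := nab b₁ d₁ hb1 hd1 hab1 hbd1
  -- a second neighbour through `b` is not adjacent to another `b'`
  have nbc : ∀ b b' c, b ≠ b' → b ≠ v₀ → b' ≠ v₀ → c ≠ v₀ → c ≠ a → G.Adj a b → G.Adj a b' →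
      G.Adj b c → ¬ G.Adj b' c := by
    intro b b' c hbb hb hb' hc hca hab hab' hbc hb'c
    exact hca.symm (quad b b' a c hbb hb hb' ha hc hab.symm hab'.symm hbc hb'c)
  have hne : ∀ b c, G.Adj a b → ¬ G.Adj a c → c ≠ b := by
    intro b c hab hac h
    rw [h] at hac
    exact hac hab
  obtain ⟨c₂, hc2, hc12, hbc2⟩ := ex c₁ b₂ (hne b₂ c₁ hab2 hac1) hc1 hb2
    (fun h => nbc b₁ b₂ c₁ hb12 hb1 hb2 hc1 hc1a hab1 hab2 hbc1 h.symm)
  obtain ⟨c₃, hc3, hc13, hbc3⟩ := ex c₁ b₃ (hne b₃ c₁ hab3 hac1) hc1 hb3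
    (fun h => nbc b₁ b₃ c₁ hb13 hb1 hb3 hc1 hc1a hab1 hab3 hbc1 h.symm)
  obtain ⟨d₂, hd2, hd12, hbd2⟩ := ex d₁ b₂ (hne b₂ d₁ hab2 had1) hd1 hb2
    (fun h => nbc b₁ b₂ d₁ hb12 hb1 hb2 hd1 hd1a hab1 hab2 hbd1 h.symm)
  obtain ⟨d₃, hd3, hd13, hbd3⟩ := ex d₁ b₃ (hne b₃ d₁ hab3 had1) hd1 hb3
    (fun h => nbc b₁ b₃ d₁ hb13 hb1 hb3 hd1 hd1a hab1 hab3 hbd1 h.symm)
  have hac2 : ¬ G.Adj a c₂ := nab b₂ c₂ hb2 hc2 hab2 hbc2
  have hac3 : ¬ G.Adj a c₃ := nab b₃ c₃ hb3 hc3 hab3 hbc3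
  have had2 : ¬ G.Adj a d₂ := nab b₂ d₂ hb2 hd2 hab2 hbd2
  have had3 : ¬ G.Adj a d₃ := nab b₃ d₃ hb3 hd3 hab3 hbd3
  have hne' : ∀ c, (G.Adj c₁ c) → a ≠ c := by
    intro c h1 h2
    rw [← h2] at h1
    exact hac1 h1.symm
  have hne'' : ∀ c, (G.Adj d₁ c) → a ≠ c := by
    intro c h1 h2
    rw [← h2] at h1
    exact had1 h1.symm
  have hcd2 : c₂ ≠ d₂ := by
    intro h
    rw [← h] at hd12
    have h1 : b₁ = c₂ := quad c₁ d₁ b₁ c₂ hcd1 hc1 hd1 hb1 hc2 hbc1.symm hbd1.symm hc12 hd12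
    rw [← h1] at hac2
    exact hac2 hab1
  have hcd3 : c₃ ≠ d₃ := by
    intro h
    rw [← h] at hd13
    have h1 : b₁ = c₃ := quad c₁ d₁ b₁ c₃ hcd1 hc1 hd1 hb1 hc3 hbc1.symm hbd1.symm hc13 hd13
    rw [← h1] at hac3
    exact hac3 hab1
  -- the neighbourhoods
  have Na := nbr3 a b₁ b₂ b₃ ha hb1 hb2 hb3 hab1 hab2 hab3 hb12 hb13 hb23
  have Nb1 := nbr3 b₁ a c₁ d₁ hb1 ha hc1 hd1 hab1.symm hbc1 hbd1 hc1a.symm hd1a.symm hcd1
  have Nb2 := nbr3 b₂ a c₂ d₂ hb2 ha hc2 hd2 hab2.symm hbc2 hbd2 (hne' _ hc12) (hne'' _ hd12) hcd2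
  have Nb3 := nbr3 b₃ a c₃ d₃ hb3 ha hc3 hd3 hab3.symm hbc3 hbd3 (hne' _ hc13) (hne'' _ hd13) hcd3
  -- the last two edges
  have e1 : G.Adj c₂ d₃ := by
    obtain ⟨z, hz, hz1, hz2⟩ := ex c₂ b₃ (hne b₃ c₂ hab3 hac2) hc2 hb3
      (fun h => nbc b₂ b₃ c₂ hb23 hb2 hb3 hc2 (hne' _ hc12).symm hab2 hab3 hbc2 h.symm)
    rcases Nb3 z hz hz2 with h | h | h
    · rw [h] at hz1; exact absurd hz1.symm hac2
    · rw [h] at hz1; exact absurd hc13 (fun h' => tri c₁ c₂ c₃ hc1 hc2 hc3 hc12 hz1 h')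
    · rw [h] at hz1; exact hz1
  have e2 : G.Adj c₃ d₂ := by
    obtain ⟨z, hz, hz1, hz2⟩ := ex c₃ b₂ (hne b₂ c₃ hab2 hac3) hc3 hb2
      (fun h => nbc b₃ b₂ c₃ hb23.symm hb3 hb2 hc3 (hne' _ hc13).symm hab3 hab2 hbc3 h.symm)
    rcases Nb2 z hz hz2 with h | h | h
    · rw [h] at hz1; exact absurd hz1.symm hac3
    · rw [h] at hz1; exact absurd hc12 (fun h' => tri c₁ c₃ c₂ hc1 hc3 hc2 hc13 hz1 h')
    · rw [h] at hz1; exact hz1
  -- the labelling
  obtain ⟨F, hF⟩ : ∃ F : Fin 10 → V, F = ![a, b₁, b₂, b₃, c₁, d₁, c₂, d₂, c₃, d₃] := ⟨_, rfl⟩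
  have hFne : ∀ i, F i ≠ v₀ := by
    intro i
    rw [hF]
    fin_cases i
    · exact ha
    · exact hb1
    · exact hb2
    · exact hb3
    · exact hc1
    · exact hd1
    · exact hc2
    · exact hd2
    · exact hc3
    · exact hd3
  have hFedg : ∀ e ∈ edg, G.Adj (F e.1) (F e.2) := by
    intro e he
    simp only [edg, List.mem_cons, List.not_mem_nil, or_false] at he
    rw [hF]
    rcases he with rfl | rfl | rfl | rfl | rfl | rfl | rfl | rfl | rfl | rfl | rfl | rfl | rfl | rfl | rfl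
    · exact hab1
    · exact hab2
    · exact hab3
    · exact hbc1
    · exact hbd1
    · exact hbc2
    · exact hbd2
    · exact hbc3
    · exact hbd3
    · exact hc12
    · exact hc13
    · exact hd12
    · exact hd13
    · exact e1
    · exact e2
  have hFsurj : ∀ w, w ≠ v₀ → ∃ i, F i = w := by
    intro w hw
    rw [hF]
    by_cases hwa : w = a
    · exact ⟨0, hwa.symm⟩
    by_cases hadj : G.Adj a w
    · rcases Na w hw hadj with h | h | h
      · exact ⟨1, h.symm⟩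
      · exact ⟨2, h.symm⟩
      · exact ⟨3, h.symm⟩
    · obtain ⟨z, hz, hz1, hz2⟩ := ex a w (Ne.symm hwa) ha hw hadj
      rcases Na z hz hz1 with h | h | h
      · rw [h] at hz2
        rcases Nb1 w hw hz2.symm with h | h | h
        · exact absurd h hwa
        · exact ⟨4, h.symm⟩
        · exact ⟨5, h.symm⟩
      · rw [h] at hz2
        rcases Nb2 w hw hz2.symm with h | h | h
        · exact absurd h hwa
        · exact ⟨6, h.symm⟩
        · exact ⟨7, h.symm⟩
      · rw [h] at hz2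
        rcases Nb3 w hw hz2.symm with h | h | h
        · exact absurd h hwa
        · exact ⟨8, h.symm⟩
        · exact ⟨9, h.symm⟩
  obtain ⟨L, hL⟩ : ∃ L : Fin 10 ≃ {s : Finset (Fin 5) // s.card = 2}, ∀ i, L i = lab i :=
    ⟨Equiv.ofBijective lab lab_bij, fun _ => rfl⟩
  obtain ⟨Φ, hΦ0, hΦ1⟩ : ∃ Φ : Option {s : Finset (Fin 5) // s.card = 2} → V, Φ none = v₀ ∧
      ∀ s, Φ (some s) = F (L.symm s) :=
    ⟨fun o => o.elim v₀ (fun s => F (L.symm s)), rfl, fun _ => rfl⟩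
  have hΦs : Function.Surjective Φ := by
    intro w
    by_cases hw : w = v₀
    · exact ⟨none, by rw [hΦ0, hw]⟩
    · obtain ⟨i, hi⟩ := hFsurj w hw
      exact ⟨some (L i), by rw [hΦ1, L.symm_apply_apply, hi]⟩
  have hΦb : Function.Bijective Φ := by
    rw [Fintype.bijective_iff_surjective_and_card]
    exact ⟨hΦs, by rw [petersen_cone_card, hcard]⟩
  apply iso_of_hom (cone petersen) G (Equiv.ofBijective Φ hΦb)
  · intro x y hxy
    show G.Adj (Φ x) (Φ y)
    cases x with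
    | none =>
      cases y with
      | none => exact absurd hxy ((cone petersen).irrefl)
      | some t => rw [hΦ0, hΦ1]; exact hv₀ _ (hFne _)
    | some s =>
      cases y with
      | none => rw [hΦ0, hΦ1]; exact (hv₀ _ (hFne _)).symm
      | some t =>
        rw [hΦ1, hΦ1]
        have h1 : petersen.Adj s t := hxy
        have h2 : petersen.Adj (lab (L.symm s)) (lab (L.symm t)) := by
          rw [← hL, ← hL, L.apply_symm_apply, L.apply_symm_apply]; exact h1
        rcases lab_edg _ _ h2 with h | h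
        · exact hFedg _ h
        · exact (hFedg _ h).symm
  · intro x
    show G.degree (Φ x) ≤ _
    cases x with
    | none =>
      rw [hΦ0, petersen_cone_degree_none]
      have := G.degree_lt_card_verts v₀
      omega
    | some s =>
      rw [hΦ1, petersen_cone_degree_some, hdeg _ (hFne _)]

end Pool.Agent.TEV
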