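import Mathlib
import Pool.Agent.TEV.Bi
import Pool.Agent.TEV.Pet

/-!
# From the parameters back to the graph
-/

set_option autoImplicit false

namespace Pool.Agent.TEV

open Finset

variable {V : Type*} [Fintype V] [DecidableEq V]

/-- The conclusion: the two classes have the same size, or the graph is the Petersen cone. -/
theorem concl_of_par (G : SimpleGraph V) [DecidableRel G.Adj] (θ₀ θ₁ θ₂ : ℝ) (k₁ k₂ : ℕ)
    (B : BiThree G θ₀ θ₁ θ₂ k₁ k₂) {τ g x y f h W : ℤ} (hPar : Par τ g x y f h W)
    (hk1 : (k₁ : ℤ) = g * x ^ 2 + (τ ^ 2 + τ)) (hk2 : (k₂ : ℤ) = g * y ^ 2 + (τ ^ 2 + τ))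
    (hn1 : ((cls G k₁).card : ℤ) = W - y * h) (hn2 : ((cls G k₂).card : ℤ) = W + x * h)
    (hcom : ∀ u v, u ≠ v → G.degree u = k₂ → G.degree v = k₂ →
        ((com G u v + if G.Adj u v then 1 else 0 : ℕ) : ℤ) = g * y ^ 2)
    (hf : f = 0 ∨ Pet τ g x y f) :
    (cls G k₁).card = (cls G k₂).card ∨ Nonempty (G ≃g cone petersen) := by
  rcases hf with hf | hf
  · left
    have h1 := hPar.hW
    rw [hf, zero_mul] at h1
    have h2 := hPar.tau_sq
    have h3 : h = 0 := by
      rcases mul_eq_zero.mp h1.symm with h4 | h4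
      · omega
      · exact h4
    rw [h3] at hn1 hn2
    have : ((cls G k₁).card : ℤ) = ((cls G k₂).card : ℤ) := by rw [hn1, hn2]; ring
    exact_mod_cast this
  · right
    obtain ⟨h1, h2, h3, h4, h5⟩ := hf
    have hWd := hPar.hWd
    have hWe := hPar.hW
    rw [h1, h2, h3, h4, h5] at hWd
    rw [h1, h5] at hWe
    have hW4 : W = 4 := by rw [hWd]; norm_num
    have hh3 : h = 3 := by rw [hW4] at hWe; omega
    rw [h1, h2, h3] at hk1
    rw [h1, h2, h4] at hk2
    rw [hW4, hh3, h4] at hn1
    rw [hW4, hh3, h3] at hn2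
    have hk1' : k₁ = 10 := by norm_num at hk1; exact_mod_cast hk1
    have hk2' : k₂ = 4 := by norm_num at hk2; exact_mod_cast hk2
    have hn1' : (cls G k₁).card = 1 := by norm_num at hn1; exact_mod_cast hn1
    have hn2' : (cls G k₂).card = 10 := by norm_num at hn2; exact_mod_cast hn2
    subst hk1'
    subst hk2'
    obtain ⟨v₀, hv₀⟩ := Finset.card_eq_one.mp hn1'
    have hmem : ∀ u, G.degree u = 10 ↔ u = v₀ := by
      intro u
      rw [← mem_cls, hv₀, Finset.mem_singleton]
    have hcard : Fintype.card V = 11 := by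
      rw [← cls_add G 10 4 B.hk B.deg, hn1', hn2']
    have hdv : G.degree v₀ = 10 := (hmem v₀).mpr rfl
    have hdeg : ∀ u, u ≠ v₀ → G.degree u = 4 := by
      intro u hu
      rcases B.deg u with h | h
      · exact absurd ((hmem u).mp h) hu
      · exact h
    apply petersen_cone_of G v₀ hcard
    · intro u hu
      have h6 : G.neighborFinset v₀ ⊆ Finset.univ.erase v₀ := by
        intro z hz
        rw [SimpleGraph.mem_neighborFinset] at hz
        exact Finset.mem_erase.mpr ⟨hz.ne', Finset.mem_univ z⟩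
      have h7 : G.neighborFinset v₀ = Finset.univ.erase v₀ := by
        apply Finset.eq_of_subset_of_card_le h6
        rw [G.card_neighborFinset_eq_degree, hdv, Finset.card_erase_of_mem (Finset.mem_univ _),
          Finset.card_univ, hcard]
      have h8 : u ∈ G.neighborFinset v₀ := by
        rw [h7]; exact Finset.mem_erase.mpr ⟨hu, Finset.mem_univ u⟩
      rwa [SimpleGraph.mem_neighborFinset] at h8
    · exact hdeg
    · intro u v huv hu hv
      have h6 := hcom u v huv (hdeg u hu) (hdeg v hv)
      rw [h2, h4] at h6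
      rw [com] at h6
      norm_num at h6
      exact_mod_cast h6

end Pool.Agent.TEV
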