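import Pool.Agent.TEV.Par

/-!
# One of the two classes is an independent set
-/

set_option autoImplicit false

namespace Pool.Agent.TEV

variable {τ g x y f h W : ℤ}

/-- `x ∣ y ^ 2 - 1`-type equation of the second class. -/
theorem key_j {x y j l : ℤ} (hy : 1 ≤ y) (hxy : y < x) (hj : 1 ≤ j) (h1 : y ^ 2 = 1 + j * x)
    (h2 : x ^ 2 - 1 = l * y ^ 2) : j = 1 := by
  have hx : 2 ≤ x := by omega
  have hjx : j < x := by
    by_contra hc
    have hc' : x ≤ j := by omega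
    have : x * x ≤ j * x := mul_le_mul_of_nonneg_right hc' (by omega)
    nlinarith
  have hl : 1 ≤ l := by
    by_contra hc
    have hc' : l ≤ 0 := by omega
    have : l * y ^ 2 ≤ 0 := mul_nonpos_of_nonpos_of_nonneg hc' (sq_nonneg y)
    nlinarith
  have h3 : x * (x - l * j) = 1 + l := by rw [h1] at h2; linear_combination h2
  obtain ⟨c, hc⟩ : ∃ c, c = x - l * j := ⟨_, rfl⟩
  rw [← hc] at h3
  have hc1 : 1 ≤ c := by
    by_contra hcc
    have : x * c ≤ 0 := mul_nonpos_of_nonneg_of_nonpos (by omega) (by omega)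
    omega
  -- `x = c + j c x - j`
  have h4 : x * (1 - j * c) = c - j := by
    have hl' : l = x * c - 1 := by omega
    have h5 : x = c + l * j := by omega
    rw [hl'] at h5
    linear_combination h5
  have h5 : j * c = 1 := by
    by_contra hne
    have h6 : 1 ≤ j * c := by nlinarith
    have h7 : 1 ≤ j * c - 1 := by omega
    have h8 : x ≤ x * (j * c - 1) := by nlinarith
    have h9 : x * (j * c - 1) = j - c := by linear_combination -h4
    omega
  exact le_antisymm (by nlinarith) hj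

/-- `V₂` independent. -/
theorem ind2 (P : Par τ g x y f h W) (hk : y * (g * y + f) + τ = 0) : f = 0 := by
  obtain ⟨hg, hy, hxy, hcop, hP, hf1, hf2, hWd, hW, hq, h11, h22, hWP, k11, k22⟩ := P
  have hx : 2 ≤ x := by omega
  obtain ⟨u, hu⟩ : ∃ u, u = g * y + f := ⟨_, rfl⟩
  have hu1 : 1 ≤ u := by omega
  have hτ : τ = -(y * u) := by rw [hu]; omega
  have hgx : g * x = y * u ^ 2 := by
    have : y * (g * x - y * u ^ 2) = 0 := by rw [hτ] at hP; linear_combination hP
    rcases mul_eq_zero.mp this with h1 | h1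
    · omega
    · omega
  obtain ⟨g', hg'⟩ : y ∣ g := hcop.symm.dvd_of_dvd_mul_right ⟨u ^ 2, hgx⟩
  have hg1 : 1 ≤ g' := by
    by_contra hc
    have : y * g' ≤ 0 := mul_nonpos_of_nonneg_of_nonpos (by omega) (by omega)
    omega
  have hgx' : g' * x = u ^ 2 := by
    have : y * (g' * x - u ^ 2) = 0 := by rw [hg'] at hgx; linear_combination hgx
    rcases mul_eq_zero.mp this with h1 | h1
    · omega
    · omega
  have hf : f = u - g' * y ^ 2 := by
    have : g * y = g' * y ^ 2 := by rw [hg']; ring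
    omega
  have hWe : W = (x + y) * u * (y * u - 1) + 1 := by
    rw [hWd, hf, hτ, hg']
    linear_combination (x * y + y ^ 2) * hgx'
  have hWu : IsCoprime (u ^ 2) W := by
    apply IsCoprime.pow_left
    exact ⟨-((x + y) * (y * u - 1)), 1, by rw [hWe]; ring⟩
  have hfW : f * W = u ^ 2 * (y ^ 2 * h) := by rw [hW, hτ]; ring
  obtain ⟨j', hj'⟩ : u ^ 2 ∣ f := hWu.dvd_of_dvd_mul_right ⟨_, hfW⟩
  by_contra hf0
  obtain ⟨j, hj⟩ : ∃ j, j = -j' := ⟨_, rfl⟩
  have hfj : f = -(j * u ^ 2) := by rw [hj', hj]; ring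
  have hj0 : j ≠ 0 := by
    intro h0
    apply hf0
    rw [hfj, h0]; ring
  have hgy : g' * y ^ 2 = u * (1 + j * u) := by
    rw [hfj] at hf
    linear_combination hf
  have hj1 : 1 ≤ j := by
    by_contra hc
    have h1 : j ≤ -1 := by omega
    have h2 : 1 + j * u ≤ 0 := by nlinarith
    have h3 : u * (1 + j * u) ≤ 0 := mul_nonpos_of_nonneg_of_nonpos (by omega) h2
    have h4 : 0 < g' * y ^ 2 := by positivity
    omega
  have hgu : g' ∣ u := by
    have h1 : g' ∣ u ^ 2 := ⟨x, hgx'.symm⟩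
    have h2 : g' ∣ u * (1 + j * u) := ⟨y ^ 2, hgy.symm⟩
    have h3 : g' ∣ u * (1 + j * u) - j * u ^ 2 := dvd_sub h2 (Dvd.dvd.mul_left h1 j)
    have h4 : u * (1 + j * u) - j * u ^ 2 = u := by ring
    rwa [h4] at h3
  obtain ⟨c, hc⟩ := hgu
  have hc1 : 1 ≤ c := by
    by_contra hcc
    have : g' * c ≤ 0 := mul_nonpos_of_nonneg_of_nonpos (by omega) (by omega)
    omega
  have hxc : x = g' * c ^ 2 := by
    have : g' * (x - g' * c ^ 2) = 0 := by rw [hc] at hgx'; linear_combination hgx'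
    rcases mul_eq_zero.mp this with h1 | h1
    · omega
    · omega
  have hyc : y ^ 2 = c * (1 + j * u) := by
    have : g' * (y ^ 2 - c * (1 + j * u)) = 0 := by
      have h1 : u * (1 + j * u) = g' * c * (1 + j * u) := by rw [← hc]
      linear_combination hgy + h1
    rcases mul_eq_zero.mp this with h1 | h1
    · omega
    · omega
  have hc2 : c = 1 := by
    have h1 : IsCoprime x (y ^ 2) := hcop.pow_right
    have h2 : c ∣ x := ⟨g' * c, by rw [hxc]; ring⟩
    have h3 : c ∣ y ^ 2 := ⟨_, hyc⟩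
    have h4 : IsUnit c := h1.isUnit_of_dvd' h2 h3
    rcases Int.isUnit_iff.mp h4 with h5 | h5
    · exact h5
    · omega
  have hug : u = x := by rw [hc, hxc, hc2]; ring
  have hy2 : y ^ 2 = 1 + j * x := by rw [hyc, hc2, hug]; ring
  rw [hug] at hfW hfj hWe
  have hx0 : x ^ 2 ≠ 0 := pow_ne_zero 2 (by omega)
  have hjW : -(j * W) = y ^ 2 * h := by
    have : x ^ 2 * (-(j * W) - y ^ 2 * h) = 0 := by rw [hfj] at hfW; linear_combination hfW
    rcases mul_eq_zero.mp this with h1 | h1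
    · exact absurd h1 hx0
    · omega
  have hyW : y ^ 2 ∣ W := by
    have h1 : IsCoprime (y ^ 2) j := ⟨1, -x, by rw [hy2]; ring⟩
    have h2 : y ^ 2 ∣ j * W := ⟨-h, by linear_combination -hjW⟩
    exact h1.dvd_of_dvd_mul_left h2
  have hyx : y ^ 2 ∣ x ^ 2 - 1 := by
    have h1 : IsCoprime (y ^ 2) (x * y - 1) := by
      apply IsCoprime.pow_left
      exact ⟨x, -1, by ring⟩
    have h2 : y ^ 2 ∣ (x ^ 2 - 1) * (x * y - 1) := by
      have h3 : y ^ 2 ∣ W - y ^ 2 * x ^ 2 := dvd_sub hyW (dvd_mul_right _ _)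
      have h4 : W - y ^ 2 * x ^ 2 = (x ^ 2 - 1) * (x * y - 1) := by rw [hWe]; ring
      rwa [h4] at h3
    exact h1.dvd_of_dvd_mul_right h2
  obtain ⟨l, hl⟩ := hyx
  have hj2 : j = 1 := key_j (l := l) hy hxy hj1 hy2 (by rw [hl]; ring)
  subst hj2
  have hxy2 : x = y ^ 2 - 1 := by omega
  have hy3 : 2 ≤ y := by
    by_contra hcc
    have : y = 1 := by omega
    rw [this] at hxy2; omega
  have hy0 : y ^ 2 ≠ 0 := pow_ne_zero 2 (by omega)
  have hV : h = -(y ^ 5 + y ^ 4 - 3 * y ^ 3 - 3 * y ^ 2 + 2 * y + 3) := by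
    have : y ^ 2 * (h + (y ^ 5 + y ^ 4 - 3 * y ^ 3 - 3 * y ^ 2 + 2 * y + 3)) = 0 := by
      rw [hWe, hxy2] at hjW
      linear_combination -hjW
    rcases mul_eq_zero.mp this with h1 | h1
    · exact absurd h1 hy0
    · omega
  have hd : (2 * y ^ 3 - 2 * y - 1) ∣ 6 * y ^ 2 - 5 * y - 4 := by
    have h1 : (2 * y ^ 3 - 2 * y - 1) ∣ (x - y) * h := by
      have h2 : 2 * τ + 1 = -(2 * y ^ 3 - 2 * y - 1) := by
        rw [hτ, hug, hxy2]; ring
      rw [h2] at hq
      exact neg_dvd.mp hq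
    rw [hV, hxy2] at h1
    have h3 : (2 * y ^ 3 - 2 * y - 1) ∣
        -4 * ((y ^ 2 - 1 - y) * -(y ^ 5 + y ^ 4 - 3 * y ^ 3 - 3 * y ^ 2 + 2 * y + 3)) -
        (2 * y ^ 3 - 2 * y - 1) * (2 * y ^ 4 - 8 * y ^ 2 - y + 8) :=
      dvd_sub (Dvd.dvd.mul_left h1 _) (dvd_mul_right _ _)
    have h4 : -4 * ((y ^ 2 - 1 - y) * -(y ^ 5 + y ^ 4 - 3 * y ^ 3 - 3 * y ^ 2 + 2 * y + 3)) -
        (2 * y ^ 3 - 2 * y - 1) * (2 * y ^ 4 - 8 * y ^ 2 - y + 8) = 6 * y ^ 2 - 5 * y - 4 := by
      ring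
    rwa [h4] at h3
  have h5 := Int.le_of_dvd (by nlinarith) hd
  nlinarith [mul_nonneg (show 0 ≤ y - 2 by omega) (show 0 ≤ y by omega),
    mul_nonneg (mul_nonneg (show 0 ≤ y - 2 by omega) (show 0 ≤ y by omega)) (show 0 ≤ y by omega)]

/-- `V₁` independent. -/
theorem ind1 (P : Par τ g x y f h W) (hk : x * (g * x - f) + τ = 0) : f = 0 ∨ Pet τ g x y f := by
  obtain ⟨hg, hy, hxy, hcop, hP, hf1, hf2, hWd, hW, hq, h11, h22, hWP, k11, k22⟩ := P
  have hx : 2 ≤ x := by omega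
  obtain ⟨v, hv⟩ : ∃ v, v = g * x - f := ⟨_, rfl⟩
  have hv1 : 1 ≤ v := by omega
  have hτ : τ = -(x * v) := by rw [hv]; omega
  have hgy : g * y = x * v ^ 2 := by
    have : x * (g * y - x * v ^ 2) = 0 := by rw [hτ] at hP; linear_combination hP
    rcases mul_eq_zero.mp this with h1 | h1
    · omega
    · omega
  obtain ⟨g', hg'⟩ : x ∣ g := hcop.dvd_of_dvd_mul_right ⟨v ^ 2, hgy⟩
  have hg1 : 1 ≤ g' := by
    by_contra hc
    have : x * g' ≤ 0 := mul_nonpos_of_nonneg_of_nonpos (by omega) (by omega)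
    omega
  have hgy' : g' * y = v ^ 2 := by
    have : x * (g' * y - v ^ 2) = 0 := by rw [hg'] at hgy; linear_combination hgy
    rcases mul_eq_zero.mp this with h1 | h1
    · omega
    · omega
  have hf : f = g' * x ^ 2 - v := by
    have : g * x = g' * x ^ 2 := by rw [hg']; ring
    omega
  have hWe : W = (x + y) * v * (x * v - 1) + 1 := by
    rw [hWd, hf, hτ, hg']
    linear_combination (x * y + x ^ 2) * hgy'
  have hWu : IsCoprime (v ^ 2) W := by
    apply IsCoprime.pow_left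
    exact ⟨-((x + y) * (x * v - 1)), 1, by rw [hWe]; ring⟩
  have hfW : f * W = v ^ 2 * (x ^ 2 * h) := by rw [hW, hτ]; ring
  obtain ⟨j, hj⟩ : v ^ 2 ∣ f := hWu.dvd_of_dvd_mul_right ⟨_, hfW⟩
  by_cases hf0 : f = 0
  · exact Or.inl hf0
  right
  have hfj : f = j * v ^ 2 := by rw [hj]; ring
  have hj0 : j ≠ 0 := by
    intro h0
    apply hf0
    rw [hfj, h0]; ring
  have hgx : g' * x ^ 2 = v * (1 + j * v) := by
    rw [hfj] at hf
    linear_combination -hf
  have hj1 : 1 ≤ j := by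
    by_contra hc
    have h1 : j ≤ -1 := by omega
    have h2 : 1 + j * v ≤ 0 := by nlinarith
    have h3 : v * (1 + j * v) ≤ 0 := mul_nonpos_of_nonneg_of_nonpos (by omega) h2
    have h4 : 0 < g' * x ^ 2 := by positivity
    omega
  have hgu : g' ∣ v := by
    have h1 : g' ∣ v ^ 2 := ⟨y, hgy'.symm⟩
    have h2 : g' ∣ v * (1 + j * v) := ⟨x ^ 2, hgx.symm⟩
    have h3 : g' ∣ v * (1 + j * v) - j * v ^ 2 := dvd_sub h2 (Dvd.dvd.mul_left h1 j)
    have h4 : v * (1 + j * v) - j * v ^ 2 = v := by ring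
    rwa [h4] at h3
  obtain ⟨c, hc⟩ := hgu
  have hc1 : 1 ≤ c := by
    by_contra hcc
    have : g' * c ≤ 0 := mul_nonpos_of_nonneg_of_nonpos (by omega) (by omega)
    omega
  have hyc : y = g' * c ^ 2 := by
    have : g' * (y - g' * c ^ 2) = 0 := by rw [hc] at hgy'; linear_combination hgy'
    rcases mul_eq_zero.mp this with h1 | h1
    · omega
    · omega
  have hxc : x ^ 2 = c * (1 + j * v) := by
    have : g' * (x ^ 2 - c * (1 + j * v)) = 0 := by
      have h1 : v * (1 + j * v) = g' * c * (1 + j * v) := by rw [← hc]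
      linear_combination hgx + h1
    rcases mul_eq_zero.mp this with h1 | h1
    · omega
    · omega
  have hc2 : c = 1 := by
    have h1 : IsCoprime (x ^ 2) y := hcop.pow_left
    have h2 : c ∣ y := ⟨g' * c, by rw [hyc]; ring⟩
    have h3 : c ∣ x ^ 2 := ⟨_, hxc⟩
    have h4 : IsUnit c := h1.isUnit_of_dvd' h3 h2
    rcases Int.isUnit_iff.mp h4 with h5 | h5
    · exact h5
    · omega
  have hvy : v = y := by rw [hc, hyc, hc2]; ring
  have hg'y : g' = y := by rw [hyc, hc2]; ring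
  have hx2 : x ^ 2 = 1 + j * y := by rw [hxc, hc2, hvy]; ring
  rw [hvy] at hfW hfj hWe
  have hy0 : y ^ 2 ≠ 0 := pow_ne_zero 2 (by omega)
  have hjW : j * W = x ^ 2 * h := by
    have : y ^ 2 * (j * W - x ^ 2 * h) = 0 := by rw [hfj] at hfW; linear_combination hfW
    rcases mul_eq_zero.mp this with h1 | h1
    · exact absurd h1 hy0
    · omega
  have hxW : x ^ 2 ∣ W := by
    have h1 : IsCoprime (x ^ 2) j := ⟨1, -y, by rw [hx2]; ring⟩
    have h2 : x ^ 2 ∣ j * W := ⟨h, hjW⟩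
    exact h1.dvd_of_dvd_mul_left h2
  have hyx : x ^ 2 ∣ y ^ 2 - 1 := by
    have h1 : IsCoprime (x ^ 2) (x * y - 1) := by
      apply IsCoprime.pow_left
      exact ⟨y, -1, by ring⟩
    have h2 : x ^ 2 ∣ (y ^ 2 - 1) * (x * y - 1) := by
      have h3 : x ^ 2 ∣ W - x ^ 2 * y ^ 2 := dvd_sub hxW (dvd_mul_right _ _)
      have h4 : W - x ^ 2 * y ^ 2 = (y ^ 2 - 1) * (x * y - 1) := by rw [hWe]; ring
      rwa [h4] at h3
    exact h1.dvd_of_dvd_mul_right h2
  have hy1 : y = 1 := by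
    by_contra hne
    have h1 : 2 ≤ y := by omega
    have h2 := Int.le_of_dvd (by nlinarith) hyx
    nlinarith
  subst hy1
  have hWx : W = x ^ 2 := by rw [hWe]; ring
  have hjx : j = x ^ 2 - 1 := by omega
  have hx0 : x ^ 2 ≠ 0 := pow_ne_zero 2 (by omega)
  have hh : h = x ^ 2 - 1 := by
    have : x ^ 2 * (h - (x ^ 2 - 1)) = 0 := by rw [hWx, hjx] at hjW; linear_combination -hjW
    rcases mul_eq_zero.mp this with h1 | h1
    · exact absurd h1 hx0
    · omega
  have hgx2 : g = x := by rw [hg', hg'y]; ring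
  have hτx : τ = -x := by rw [hτ, hvy]; ring
  have hx3 : x = 2 := by
    apply cone_end x hx
    have h2 : 2 * τ + 1 = -(2 * x - 1) := by rw [hτx]; ring
    rw [h2, hh] at hq
    exact neg_dvd.mp hq
  refine ⟨by omega, by omega, hx3, rfl, ?_⟩
  rw [hfj, hjx, hx3]; norm_num

end Pool.Agent.TEV
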