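import Pool.Agent.TEV.LC

/-!
# The case `T ^ 2 ∣ W`, `θ ≥ 1`, `T = z u`, `x = z x'`
-/

set_option autoImplicit false

namespace Pool.Agent.TEV

variable {τ g x y f h W T m ν θ : ℤ}

theorem beta_hyp {X Y A B E K m T C : ℤ} (hX : 1 ≤ |X|) (hY : 1 ≤ |Y|) (hE : |X| * |Y| = E)
    (hA : 0 ≤ A) (hB : 0 ≤ B) (hK : 1 ≤ K) (hC : 0 ≤ C) (hm : 1 ≤ m)
    (hEb : E ≤ A * B + 2 * m * (K * C) + 2 * m * K ^ 2)
    (hT : 4 * m ^ 2 * (K ^ 2 * T) ≤ (|X| + B) * (|Y| + A)) :
    4 * m ^ 2 * T ≤ (A * B + 2 * m * C + 2 * m) * (1 + A + B) + A * B := by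
  have hXE : |X| ≤ E := by rw [← hE]; nlinarith
  have hYE : |Y| ≤ E := by rw [← hE]; nlinarith
  have hAB : 0 ≤ A * B := mul_nonneg hA hB
  have hK2 : K ≤ K ^ 2 := by nlinarith
  have h1K2 : 1 ≤ K ^ 2 := by omega
  have h1 : A * |X| ≤ A * E := mul_le_mul_of_nonneg_left hXE hA
  have h2 : B * |Y| ≤ B * E := mul_le_mul_of_nonneg_left hYE hB
  have h3 : (|X| + B) * (|Y| + A) = |X| * |Y| + A * |X| + B * |Y| + A * B := by ring
  rw [hE] at h3
  have h4 : E ≤ K ^ 2 * (A * B + 2 * m * C + 2 * m) := by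
    have h5 : 1 * (A * B) ≤ K ^ 2 * (A * B) := mul_le_mul_of_nonneg_right h1K2 hAB
    have h6 : K * (2 * m * C) ≤ K ^ 2 * (2 * m * C) :=
      mul_le_mul_of_nonneg_right hK2 (by positivity)
    linarith [show K ^ 2 * (A * B + 2 * m * C + 2 * m) =
      K ^ 2 * (A * B) + K ^ 2 * (2 * m * C) + 2 * m * K ^ 2 by ring,
      show K * (2 * m * C) = 2 * m * (K * C) by ring]
  have h5 : E * (1 + A + B) ≤ K ^ 2 * (A * B + 2 * m * C + 2 * m) * (1 + A + B) :=
    mul_le_mul_of_nonneg_right h4 (by omega)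
  have h6 : 1 * (A * B) ≤ K ^ 2 * (A * B) := mul_le_mul_of_nonneg_right h1K2 hAB
  have h7 : K ^ 2 * (4 * m ^ 2 * T) ≤
      K ^ 2 * ((A * B + 2 * m * C + 2 * m) * (1 + A + B) + A * B) := by
    linarith [show K ^ 2 * (4 * m ^ 2 * T) = 4 * m ^ 2 * (K ^ 2 * T) by ring,
      show K ^ 2 * ((A * B + 2 * m * C + 2 * m) * (1 + A + B) + A * B) =
        K ^ 2 * (A * B + 2 * m * C + 2 * m) * (1 + A + B) + K ^ 2 * (A * B) by ring,
      show E * (1 + A + B) = E + A * E + B * E by ring]
  exact le_of_mul_le_mul_left h7 (by omega)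

/-- The numerical contradiction. -/
theorem beta_num {m T : ℤ} (hm : 1 ≤ m) (hT8 : 8 ≤ T) (hT : 2 * m ^ 14 ≤ T)
    (h : 4 * m ^ 2 * T ≤ (2 * m ^ 9 + 2 * m ^ 5) * (1 + m ^ 6 + 2 * m ^ 7) + 2 * m ^ 9) :
    False := by
  rcases eq_or_lt_of_le hm with h1 | h1
  · rw [← h1] at h
    norm_num at h
    omega
  · have h2 : 4 * m ^ 2 * (2 * m ^ 14) ≤ 4 * m ^ 2 * T :=
      mul_le_mul_of_nonneg_left hT (by positivity)
    have h3 : 4 * m ^ 2 * (2 * m ^ 14) = 8 * m ^ 16 := by ring
    have h4 : (2 * m ^ 9 + 2 * m ^ 5) * (1 + m ^ 6 + 2 * m ^ 7) + 2 * m ^ 9 =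
      4 * m ^ 16 + 2 * m ^ 15 + 4 * m ^ 12 + 2 * m ^ 11 + 4 * m ^ 9 + 2 * m ^ 5 := by ring
    have h5 : m ^ 15 * 2 ≤ m ^ 15 * m := mul_le_mul_of_nonneg_left (by omega) (by positivity)
    have h6 : m ^ 15 * m = m ^ 16 := by ring
    have h7 : m ^ 12 * 2 ^ 4 ≤ m ^ 12 * m ^ 4 :=
      mul_le_mul_of_nonneg_left (pow_le_pow_left₀ (by norm_num) (by omega) 4) (by positivity)
    have h8 : m ^ 12 * m ^ 4 = m ^ 16 := by ring
    have h9 : m ^ 11 ≤ m ^ 12 := pow_le_pow_right₀ hm (by norm_num)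
    have h10 : m ^ 9 ≤ m ^ 12 := pow_le_pow_right₀ hm (by norm_num)
    have h11 : m ^ 5 ≤ m ^ 12 := pow_le_pow_right₀ hm (by norm_num)
    have h12 : 1 ≤ m ^ 12 := one_le_pow₀ hm
    omega

theorem Dat.beta (D : Dat τ g x y f h W T m ν θ) (hθ : 1 ≤ θ) (hT14 : 2 * m ^ 14 ≤ T)
    {z u x' : ℤ} (hz : 2 ≤ z) (hu : 2 ≤ u) (hTzu : T = z * u) (hxz : x = z * x')
    (c1 : IsCoprime x' z) (c2 : IsCoprime x' u) (c3 : IsCoprime z m) (c4 : IsCoprime u m)
    (c5 : IsCoprime z y) (hzu : z ∣ u ∨ u ∣ z) : False := by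
  have hG := D.dvdG
  obtain ⟨P, S, hν, hν1, hgx, hWθ, hθM, hθn, hge, hxf, hN⟩ := D
  have hT8 := S.hT8
  have hT : 1 ≤ T := by omega
  have hm := S.hm
  have hx := P.hx
  have hy := P.hy
  have hg := P.hg
  have hxy := P.hxy
  have hx'1 : 1 ≤ x' := by
    by_contra hc
    have : z * x' ≤ 0 := mul_nonpos_of_nonneg_of_nonpos (by omega) (by omega)
    omega
  obtain ⟨M, hM⟩ : ∃ M, M = m ^ 2 := ⟨_, rfl⟩
  have hM1 : 1 ≤ M := by rw [hM]; exact S.one 2
  obtain ⟨κ, hκ⟩ : ∃ κ, κ = M - θ := ⟨_, rfl⟩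
  rw [← hM] at hν hθM hθn hxf hN hG
  rw [← hκ] at hG
  have hκ0 : 0 ≤ κ := by omega
  -- `ν = x' g'`
  obtain ⟨g', hg'⟩ : x' ∣ ν := by
    have h1 : g * x' = z * u ^ 2 * ν := by
      have : z * (g * x' - z * u ^ 2 * ν) = 0 := by
        rw [hxz, hTzu] at hgx; linear_combination hgx
      rcases mul_eq_zero.mp this with h2 | h2 <;> omega
    have h2 : x' ∣ z * u ^ 2 * ν := ⟨g, by rw [← h1]; ring⟩
    exact (c1.mul_right c2.pow_right).dvd_of_dvd_mul_left h2
  have hg'1 : 1 ≤ g' := by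
    by_contra hc
    have : x' * g' ≤ 0 := mul_nonpos_of_nonneg_of_nonpos (by omega) (by omega)
    omega
  rw [hg'] at hν
  -- sizes
  have hyx' : y * x' ≤ M := by
    have : y * x' * 1 ≤ y * x' * g' := mul_le_mul_of_nonneg_left hg'1 (by positivity)
    linarith [show y * x' * g' = y * (x' * g') by ring]
  have hgx' : g' * x' ≤ M := by
    have : 1 * (g' * x') ≤ y * (g' * x') := mul_le_mul_of_nonneg_right hy (by positivity)
    linarith [show y * (g' * x') = y * (x' * g') by ring]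
  have hgy' : g' * y ≤ M := by
    have : 1 * (g' * y) ≤ x' * (g' * y) := mul_le_mul_of_nonneg_right hx'1 (by positivity)
    linarith [show x' * (g' * y) = y * (x' * g') by ring]
  have hyM : y ≤ M := by
    have : 1 * y ≤ g' * y := mul_le_mul_of_nonneg_right hg'1 (by omega)
    omega
  have hx'M : x' ≤ M := by
    have : 1 * x' ≤ g' * x' := mul_le_mul_of_nonneg_right hg'1 (by omega)
    omega
  -- the sign
  obtain ⟨c, hc, hcm⟩ : ∃ c, τ = c * T ∧ (c = m ∨ c = -m) := by
    rcases S.hτ with ht | ht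
    · exact ⟨m, by rw [ht]; ring, Or.inl rfl⟩
    · exact ⟨-m, by rw [ht]; ring, Or.inr rfl⟩
  have hcabs : |c| = m := by
    rcases hcm with h | h
    · rw [h, abs_of_pos (by omega)]
    · rw [h, abs_neg, abs_of_pos (by omega)]
  have hc2 : c ^ 2 = m ^ 2 := by rcases hcm with h | h <;> rw [h] <;> ring
  have hcz : IsCoprime z g' := IsCoprime.of_isCoprime_of_dvd_right (c3.pow_right (n := 2))
    ⟨y * x', by rw [← hM, hν]; ring⟩
  have hcug : IsCoprime u (g' * x' ^ 2) :=
    (IsCoprime.of_isCoprime_of_dvd_right (c4.pow_right (n := 2))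
      ⟨y * x', by rw [← hM, hν]; ring⟩).mul_right c2.symm.pow_right
  -- `N'`
  obtain ⟨N, hNd⟩ : ∃ N, N = (g' * y ^ 2 - z * θ) * (g' * x' ^ 2 * z + θ) := ⟨_, rfl⟩
  have hN0 : N ≠ 0 := by
    intro h0
    rw [hNd] at h0
    rcases mul_eq_zero.mp h0 with h1 | h1
    · have h2 : z ∣ g' * y ^ 2 := ⟨θ, by linear_combination h1⟩
      have h3 : IsUnit z := (hcz.mul_right c5.pow_right).isUnit_of_dvd h2
      rcases Int.isUnit_iff.mp h3 with h4 | h4 <;> omega
    · have : 0 < g' * x' ^ 2 * z := by positivity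
      omega
  have hqN : (2 * τ + 1) ∣ N := by
    have h1 : (M * y - θ * x) * (ν * x + θ) = x' * N := by
      rw [hNd, hν, hg', hxz]; ring
    rw [h1] at hN
    have h2 : IsCoprime (2 * τ + 1) x' :=
      IsCoprime.of_isCoprime_of_dvd_right P.copx ⟨z, by rw [hxz]; ring⟩
    exact h2.dvd_of_dvd_mul_left hN
  obtain ⟨A, hA⟩ : ∃ A, A = g' * x' ^ 2 * θ := ⟨_, rfl⟩
  obtain ⟨b, hb⟩ : ∃ b, b = g' * y ^ 2 * θ := ⟨_, rfl⟩
  obtain ⟨C, hC⟩ : ∃ C, C = M ^ 2 - θ ^ 2 := ⟨_, rfl⟩
  have hA1 : 1 ≤ A := by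
    have : 0 < A := by rw [hA]; positivity
    omega
  have hb1 : 1 ≤ b := by
    have : 0 < b := by rw [hb]; positivity
    omega
  have hθ2 : θ ^ 2 ≤ M ^ 2 := pow_le_pow_left₀ (by omega) hθM 2
  have hC0 : 0 ≤ C := by omega
  have hCM : C ≤ M ^ 2 - 1 := by
    have : 1 ≤ θ ^ 2 := one_le_pow₀ hθ
    omega
  have hAM : A ≤ M ^ 3 := by
    have h1 : g' * x' * x' ≤ M * M := mul_le_mul hgx' hx'M (by omega) (by omega)
    have h2 : g' * x' * x' * θ ≤ M * M * M := mul_le_mul h1 hθM (by omega) (by positivity)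
    rw [hA]
    linarith [show g' * x' * x' * θ = g' * x' ^ 2 * θ by ring, show M * M * M = M ^ 3 by ring]
  have hbM : b ≤ M ^ 3 := by
    have h1 : g' * y * y ≤ M * M := mul_le_mul hgy' hyM (by omega) (by omega)
    have h2 : g' * y * y * θ ≤ M * M * M := mul_le_mul h1 hθM (by omega) (by positivity)
    rw [hb]
    linarith [show g' * y * y * θ = g' * y ^ 2 * θ by ring, show M * M * M = M ^ 3 by ring]
  have hAb : A * b = M ^ 2 * θ ^ 2 := by rw [hA, hb, hν]; ring
  have hNe : N = C * z + b - A * z ^ 2 := by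
    rw [hNd, hC, hA, hb]
    have : M ^ 2 = g' ^ 2 * x' ^ 2 * y ^ 2 := by rw [hν]; ring
    rw [this]; ring
  -- `S = A z + 2 c b u - C = (2 c z u + 1) k`
  obtain ⟨k, hk⟩ : (2 * τ + 1) ∣ A * z + 2 * c * b * u - C := by
    have h1 : A * z + 2 * c * b * u - C = 2 * c * u * N -
        (2 * τ + 1) * (M ^ 2 - θ * (g' * x' ^ 2 * z + θ)) := by
      have h2 : M ^ 2 = g' ^ 2 * x' ^ 2 * y ^ 2 := by rw [hν]; ring
      rw [hC, hNd, hc, hTzu, hA, hb, h2]; ring
    rw [h1]
    exact dvd_sub (Dvd.dvd.mul_left hqN _) (dvd_mul_right _ _)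
  have hqe : 2 * τ + 1 = 2 * c * (z * u) + 1 := by rw [hc, hTzu]; ring
  rw [hqe] at hk
  have hT7 := S.hT7
  have hm2 : m ^ 2 = M := hM.symm
  have hM2 : M ^ 2 = m ^ 4 := by rw [hM]; ring
  by_cases hk0 : k = 0
  · rw [hk0, mul_zero] at hk
    rcases hcm with h1 | h1
    · -- `τ > 0`
      rw [h1] at hk
      have h2 : 0 < A * z := by positivity
      have h3 : 0 < 2 * m * b * u := by positivity
      have h4 : A * z ≤ M ^ 2 := by omega
      have h5 : 2 * m * b * u ≤ M ^ 2 := by omega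
      have h6 : A * z * (2 * m * b * u) ≤ M ^ 2 * M ^ 2 := mul_le_mul h4 h5 h3.le (by positivity)
      have h7 : A * z * (2 * m * b * u) = M ^ 2 * (2 * m * θ ^ 2 * T) := by
        rw [hTzu]; linear_combination (2 * m * z * u) * hAb
      rw [h7] at h6
      have h8 := le_of_mul_le_mul_left h6 (by positivity)
      have h9 : 1 * T ≤ 2 * m * θ ^ 2 * T := by
        apply mul_le_mul_of_nonneg_right _ (by omega)
        have : 0 < 2 * m * θ ^ 2 := by positivity
        omega
      have h10 := S.T3 4 (by norm_num)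
      have h11 := S.one 4
      omega
    · -- `τ < 0`
      rw [h1] at hk hc
      have hτ0 : τ < 0 := by
        have : 0 < m * T := by positivity
        linarith [show -m * T = -(m * T) by ring]
      have hθM2 := hθn hτ0
      have hCpos : 1 ≤ C := by
        have : θ * θ < M * M := mul_lt_mul'' hθM2 hθM2 (by omega) (by omega)
        rw [hC]
        linarith [show θ ^ 2 = θ * θ by ring, show M ^ 2 = M * M by ring,
          Int.add_one_le_iff.mpr this]
      have hm2' : 2 ≤ m := by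
        rcases eq_or_lt_of_le hm with h3 | h3
        · exfalso
          rw [← h3] at hM
          norm_num at hM
          omega
        · omega
      have hAe : A = g' * θ * x' ^ 2 := by rw [hA]; ring
      have hbe : b = g' * θ * y ^ 2 := by rw [hb]; ring
      have hgθ : 1 ≤ g' * θ := by
        have : 0 < g' * θ := by positivity
        omega
      rcases hzu with h2 | h2
      · have h3 : z ∣ C := by
          have h4 : C = A * z - 2 * m * b * u := by linear_combination -hk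
          rw [h4]
          exact dvd_sub (dvd_mul_left _ _) (Dvd.dvd.mul_left h2 _)
        have h4 := Int.le_of_dvd (by omega) h3
        have h5 : 2 * m * b * u < A * z := by linarith
        have h6 : z * (2 * m * b * u) < z * (A * z) := mul_lt_mul_of_pos_left h5 (by omega)
        have h7 : g' * θ * (2 * m * y ^ 2 * T) < g' * θ * (x' ^ 2 * z ^ 2) := by
          rw [hAe, hbe] at h6
          rw [hTzu]
          linarith [show g' * θ * (2 * m * y ^ 2 * (z * u)) =
            z * (2 * m * (g' * θ * y ^ 2) * u) by ring,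
            show g' * θ * (x' ^ 2 * z ^ 2) = z * (g' * θ * x' ^ 2 * z) by ring]
        have h8 := lt_of_mul_lt_mul_left h7 (by omega)
        have h9 : 1 * T ≤ 2 * m * y ^ 2 * T := by
          apply mul_le_mul_of_nonneg_right _ (by omega)
          have : 0 < 2 * m * y ^ 2 := by positivity
          omega
        have h10 : x' ^ 2 ≤ M ^ 2 := pow_le_pow_left₀ (by omega) hx'M 2
        have h11 : z ^ 2 ≤ (M ^ 2) ^ 2 := pow_le_pow_left₀ (by omega) (by omega) 2
        have h12 : x' ^ 2 * z ^ 2 ≤ M ^ 2 * (M ^ 2) ^ 2 :=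
          mul_le_mul h10 h11 (by positivity) (by positivity)
        have h13 : M ^ 2 * (M ^ 2) ^ 2 = m ^ 12 := by rw [hM]; ring
        have h14 := S.pw 12 14 (by norm_num)
        have h15 := S.one 14
        omega
      · have h3 : u ∣ C := by
          have h4 : C = A * z - 2 * m * b * u := by linear_combination -hk
          rw [h4]
          exact dvd_sub (Dvd.dvd.mul_left h2 _) (dvd_mul_left _ _)
        have h4 := Int.le_of_dvd (by omega) h3
        have h5 : g' * θ * (x' ^ 2 * z - 2 * m * y ^ 2 * u) = C := by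
          rw [hAe, hbe] at hk; linear_combination hk
        have h6 : x' ^ 2 * z - 2 * m * y ^ 2 * u ≤ C := by
          have h7 : 0 < x' ^ 2 * z - 2 * m * y ^ 2 * u := by
            by_contra hcc
            have : g' * θ * (x' ^ 2 * z - 2 * m * y ^ 2 * u) ≤ 0 :=
              mul_nonpos_of_nonneg_of_nonpos (by omega) (by omega)
            omega
          have h8 := mul_le_mul_of_nonneg_right hgθ h7.le
          omega
        have h7 : x' ^ 2 * z ≤ 2 * m * y ^ 2 * u + M ^ 2 := by omega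
        have h8 : u * (x' ^ 2 * z) ≤ u * (2 * m * y ^ 2 * u + M ^ 2) :=
          mul_le_mul_of_nonneg_left h7 (by omega)
        have h9 : 1 * T ≤ x' ^ 2 * T :=
          mul_le_mul_of_nonneg_right (one_le_pow₀ hx'1) (by omega)
        have h10 : u * (x' ^ 2 * z) = x' ^ 2 * T := by rw [hTzu]; ring
        have h11 : y ^ 2 ≤ M ^ 2 := pow_le_pow_left₀ (by omega) hyM 2
        have h12 : u ^ 2 ≤ (M ^ 2) ^ 2 := pow_le_pow_left₀ (by omega) (by omega) 2
        have h13 : 2 * m * (y ^ 2 * u ^ 2) ≤ 2 * m * (M ^ 2 * (M ^ 2) ^ 2) :=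
          mul_le_mul_of_nonneg_left (mul_le_mul h11 h12 (by positivity) (by positivity))
            (by positivity)
        have h14 : u * M ^ 2 ≤ M ^ 2 * M ^ 2 :=
          mul_le_mul_of_nonneg_right (by omega) (by positivity)
        have h15 : T ≤ 2 * m ^ 13 + m ^ 8 := by
          linarith [show u * (2 * m * y ^ 2 * u + M ^ 2) = 2 * m * (y ^ 2 * u ^ 2) + u * M ^ 2 by
            ring, show 2 * m * (M ^ 2 * (M ^ 2) ^ 2) = 2 * m ^ 13 by rw [hM]; ring,
            show M ^ 2 * M ^ 2 = m ^ 8 by rw [hM]; ring]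
        have h16 := S.pw 8 13 (by norm_num)
        have h17 : m ^ 13 * 2 ≤ m ^ 13 * m := mul_le_mul_of_nonneg_left hm2' (by positivity)
        have h18 : m ^ 13 * m = m ^ 14 := by ring
        have h19 := S.one 13
        omega
  · -- `k ≠ 0`
    obtain ⟨X, hX⟩ : ∃ X, X = 2 * c * k * z - 2 * c * b := ⟨_, rfl⟩
    obtain ⟨Y, hY⟩ : ∃ Y, Y = 2 * c * k * u - A := ⟨_, rfl⟩
    have hXY : X * Y = A * (2 * c * b) - 2 * c * k * (C + k) := by
      rw [hX, hY]
      linear_combination (-(2 * c * k)) * hk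
    have hc0 : c ≠ 0 := by
      rcases hcm with h | h <;> omega
    have hX0 : X ≠ 0 := by
      intro h0
      rw [h0] at hX
      have h1 : k * z = b := by
        have : 2 * c * (k * z - b) = 0 := by linear_combination -hX
        rcases mul_eq_zero.mp this with h2 | h2
        · exfalso; apply hc0; omega
        · omega
      apply hN0
      rw [hNe]
      linear_combination (-z) * hk - (1 + 2 * c * (z * u)) * h1
    by_cases hY0 : Y = 0
    · rw [hY0] at hY
      have hAu : A = 2 * c * k * u := by omega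
      have h1 : u ∣ θ := by
        have h2 : u ∣ g' * x' ^ 2 * θ := ⟨2 * c * k, by rw [← hA, hAu]; ring⟩
        exact hcug.dvd_of_dvd_mul_left h2
      have huM : u ≤ M := by
        have := Int.le_of_dvd (by omega) h1
        omega
      obtain ⟨R, hR⟩ : ∃ R, R = κ * u ^ 2 * y ^ 2 + 2 * c * x' * u * y + x' ^ 2 := ⟨_, rfl⟩
      have hRd : (x - y) ∣ R := by
        have h2 : R = x' ^ 2 * (κ * T ^ 2 + 2 * τ + 1) -
            (x - y) * (κ * u ^ 2 * (x + y) + 2 * c * u * x') := by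
          rw [hR, hc, hTzu, hxz]; ring
        rw [h2]
        exact dvd_sub (Dvd.dvd.mul_left hG _) (dvd_mul_right _ _)
      have hR0 : R ≠ 0 := by
        intro h0
        have h2 : u ∣ x' ^ 2 := ⟨-(κ * u * y ^ 2 + 2 * c * x' * y), by
          rw [h0] at hR; linear_combination -hR⟩
        have h3 : IsUnit u := (c2.pow_left (m := 2)).symm.isUnit_of_dvd h2
        rcases Int.isUnit_iff.mp h3 with h4 | h4 <;> omega
      have h2 : x - y ≤ |R| := by
        have := Int.le_of_dvd (abs_pos.mpr hR0) ((dvd_abs _ _).mpr hRd)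
        exact this
      have h3 : |R| ≤ κ * u ^ 2 * y ^ 2 + 2 * m * (x' * u * y) + x' ^ 2 := by
        rw [hR, abs_le]
        have h4 : 0 ≤ κ * u ^ 2 * y ^ 2 := by positivity
        have h5 : 0 ≤ x' ^ 2 := by positivity
        have h6 : 0 < x' * u * y := by positivity
        have h7 : 2 * c * x' * u * y = 2 * (c * (x' * u * y)) := by ring
        have h8 : 2 * m * (x' * u * y) = 2 * (m * (x' * u * y)) := by ring
        rw [h7, h8]
        rcases hcm with h | h
        · rw [h]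
          have : 0 < m * (x' * u * y) := by positivity
          constructor <;> omega
        · rw [h, neg_mul]
          have : 0 < m * (x' * u * y) := by positivity
          constructor <;> omega
      have h4 : κ * u ^ 2 * y ^ 2 ≤ M * M ^ 2 * M ^ 2 := by
        have h5 : u ^ 2 ≤ M ^ 2 := pow_le_pow_left₀ (by omega) huM 2
        have h6 : y ^ 2 ≤ M ^ 2 := pow_le_pow_left₀ (by omega) hyM 2
        exact mul_le_mul (mul_le_mul (by omega) h5 (by positivity) (by omega)) h6
          (by positivity) (by positivity)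
      have h5 : x' * u * y ≤ M * M := by
        have : y * x' * u ≤ M * M := mul_le_mul hyx' huM (by omega) (by omega)
        linarith [show y * x' * u = x' * u * y by ring]
      have h6 : 2 * m * (x' * u * y) ≤ 2 * m * (M * M) :=
        mul_le_mul_of_nonneg_left h5 (by positivity)
      have h7 : x' ^ 2 ≤ M ^ 2 := pow_le_pow_left₀ (by omega) hx'M 2
      have h8 : z ≤ x := by
        have : z * 1 ≤ z * x' := mul_le_mul_of_nonneg_left hx'1 (by omega)
        omega
      obtain ⟨Q, hQ⟩ : ∃ Q, Q = M * M ^ 2 * M ^ 2 + 2 * m * (M * M) + M ^ 2 + M := ⟨_, rfl⟩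
      have h9 : z ≤ Q := by omega
      have h10 : z * u ≤ Q * M := mul_le_mul h9 huM (by omega) (by omega)
      have h11 : Q * M = m ^ 12 + 2 * m ^ 7 + m ^ 6 + m ^ 4 := by rw [hQ, hM]; ring
      rw [← hTzu, h11] at h10
      rcases eq_or_lt_of_le hm with h12 | h12
      · rw [← h12] at h10; norm_num at h10; omega
      · have h13 := S.pw 7 12 (by norm_num)
        have h14 := S.pw 6 12 (by norm_num)
        have h15 := S.pw 4 12 (by norm_num)
        have h16 : m ^ 12 * 2 ^ 2 ≤ m ^ 12 * m ^ 2 :=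
          mul_le_mul_of_nonneg_left (pow_le_pow_left₀ (by norm_num) (by omega) 2) (by positivity)
        have h17 : m ^ 12 * m ^ 2 = m ^ 14 := by ring
        have h18 := S.one 12
        omega
    · -- the hyperbola
      obtain ⟨B, hB⟩ : ∃ B, B = 2 * m * b := ⟨_, rfl⟩
      have hB0 : 0 ≤ B := by rw [hB]; positivity
      obtain ⟨K, hK⟩ : ∃ K, K = |k| := ⟨_, rfl⟩
      have hK1 : 1 ≤ K := by rw [hK]; exact Int.one_le_abs hk0
      have hcb : |2 * c * b| = B := by
        rw [abs_mul, abs_mul, hcabs, abs_of_pos (by omega : (0 : ℤ) < b), hB]; norm_num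
      have hEb : |X| * |Y| ≤ A * B + 2 * m * (K * C) + 2 * m * K ^ 2 := by
        rw [← abs_mul, hXY]
        have h1 : |A * (2 * c * b) - 2 * c * k * (C + k)| ≤
            |A * (2 * c * b)| + |2 * c * k * (C + k)| := abs_sub _ _
        have h2 : |A * (2 * c * b)| = A * B := by
          rw [abs_mul, hcb, abs_of_pos (by omega)]
        have h3 : |2 * c * k * (C + k)| ≤ 2 * m * K * (C + K) := by
          rw [abs_mul, abs_mul, abs_mul, hcabs, ← hK]
          have h4 : |C + k| ≤ C + K := by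
            have := abs_add_le C k
            rw [abs_of_nonneg hC0, ← hK] at this
            exact this
          have h5 : |(2 : ℤ)| = 2 := by norm_num
          rw [h5]
          exact mul_le_mul_of_nonneg_left h4 (by positivity)
        linarith [show 2 * m * K * (C + K) = 2 * m * (K * C) + 2 * m * K ^ 2 by ring]
      have hTb : 4 * m ^ 2 * (K ^ 2 * T) ≤ (|X| + B) * (|Y| + A) := by
        have h1 : 4 * m ^ 2 * (K ^ 2 * T) = |(X + 2 * c * b) * (Y + A)| := by
          have h2 : (X + 2 * c * b) * (Y + A) = 4 * m ^ 2 * (k ^ 2 * T) := by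
            rw [hX, hY, hTzu, ← hc2]; ring
          rw [h2, abs_of_nonneg (by positivity), hK, sq_abs]
        rw [h1, abs_mul]
        have h3 : |X + 2 * c * b| ≤ |X| + B := by
          have := abs_add_le X (2 * c * b)
          rwa [hcb] at this
        have h4 : |Y + A| ≤ |Y| + A := by
          have := abs_add_le Y A
          rwa [abs_of_pos (by omega : (0 : ℤ) < A)] at this
        exact mul_le_mul h3 h4 (abs_nonneg _) (by positivity)
      have h1 := beta_hyp (Int.one_le_abs hX0) (Int.one_le_abs hY0) rfl (by omega) hB0 hK1 hC0 hm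
        hEb hTb
      apply beta_num hm hT8 hT14
      refine le_trans h1 ?_
      have h2 : A * B ≤ 2 * m ^ 9 := by
        have h3 : A * B = 2 * m * (M ^ 2 * θ ^ 2) := by rw [hB, ← hAb]; ring
        have h4 : 2 * m * (M ^ 2 * θ ^ 2) ≤ 2 * m * (M ^ 2 * M ^ 2) :=
          mul_le_mul_of_nonneg_left (mul_le_mul_of_nonneg_left hθ2 (by positivity)) (by positivity)
        have h5 : 2 * m * (M ^ 2 * M ^ 2) = 2 * m ^ 9 := by rw [hM]; ring
        omega
      have h3 : 2 * m * C + 2 * m ≤ 2 * m ^ 5 := by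
        have h4 : 2 * m * C ≤ 2 * m * (M ^ 2 - 1) := mul_le_mul_of_nonneg_left hCM (by positivity)
        have h5 : 2 * m * (M ^ 2 - 1) = 2 * m ^ 5 - 2 * m := by rw [hM]; ring
        omega
      have h4 : 1 + A + B ≤ 1 + m ^ 6 + 2 * m ^ 7 := by
        have h5 : M ^ 3 = m ^ 6 := by rw [hM]; ring
        have h6 : 2 * m * b ≤ 2 * m * M ^ 3 := mul_le_mul_of_nonneg_left hbM (by positivity)
        have h7 : 2 * m * M ^ 3 = 2 * m ^ 7 := by rw [hM]; ring
        omega
      have h5 : (A * B + 2 * m * C + 2 * m) * (1 + A + B) ≤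
          (2 * m ^ 9 + 2 * m ^ 5) * (1 + m ^ 6 + 2 * m ^ 7) :=
        mul_le_mul (by omega) h4 (by omega) (by positivity)
      omega

end Pool.Agent.TEV
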