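import Pool.Agent.TEV.Par

/-!
# Prime powers at most 7: a finite check
-/

set_option autoImplicit false

namespace Pool.Agent.TEV

/-- The conditions for `y = 1`. -/
def cond (τ g x f : ℤ) : Bool :=
  let W := g * (x ^ 2 + 1) + 2 * τ + 1 - (x - 1) * f
  decide (g * x = τ ^ 2) && decide (f < g * x) && decide (f ≠ 0) && decide (τ ^ 2 ≤ W) &&
    decide ((f * W) % (τ ^ 2) = 0) &&
    decide (((x - 1) * (f * W / τ ^ 2)) % (2 * τ + 1) = 0) &&
    decide (g * x * (τ + 1) ≤ (g * x - f) * (W - g * x ^ 2)) &&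
    decide (g * (τ + 1) ≤ (g + f) * (W - g)) &&
    decide (0 ≤ x * (g * x - f) + τ) && decide (0 ≤ (g + f) + τ) &&
    !decide (τ = -2 ∧ x = 2 ∧ f = 3)

/-- No solution with `x < 50`, `f ≤ 100 - g`. -/
def chk (τ : ℤ) : Bool :=
  (List.range 50).all fun i => (i < 2) || (List.range 80).all fun n =>
    !cond τ (τ ^ 2 / (i : ℤ)) (i : ℤ) ((n : ℤ) - τ ^ 2 / (i : ℤ) + 1)

theorem chk_all : ∀ n : Fin 15, n.val = 1 ∨ n.val = 13 ∨ n.val = 7 ∨ n.val = 6 ∨ n.val = 8 ∨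
    chk ((n.val : ℤ) - 7) = true := by
  decide +kernel

variable {τ g x f h W : ℤ}

theorem small_case (P : Par τ g x 1 f h W) (h7 : |τ| ≤ 7) (h6 : |τ| ≠ 6) :
    f = 0 ∨ Pet τ g x 1 f := by
  have hx := P.hx
  have hg := P.hg
  have hP : g * x = τ ^ 2 := by have := P.hP; rwa [mul_one] at this
  have hf1 : -g < f := by have := P.hf1; rwa [mul_one] at this
  have hf2 := P.hf2
  have h2 := P.tau_sq
  have hτ7 : τ ≤ 7 := le_trans (le_abs_self τ) h7
  have hτ7' : -7 ≤ τ := by have := neg_abs_le τ; omega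
  have hτ2 : τ ^ 2 ≤ 49 := by nlinarith
  have hne6 : τ ≠ 6 := by rintro rfl; exact h6 (by norm_num)
  have hne6' : τ ≠ -6 := by rintro rfl; exact h6 (by norm_num)
  have hne1 : τ ≠ 1 := by rintro rfl; norm_num at h2
  have hne1' : τ ≠ -1 := by rintro rfl; norm_num at h2
  have hne0 : τ ≠ 0 := by rintro rfl; norm_num at h2
  have hx49 : x ≤ 49 := by nlinarith
  have hg24 : g ≤ 24 := by nlinarith
  have hτ0 : 0 < τ ^ 2 := by omega
  obtain ⟨n, hn⟩ : ∃ n : ℕ, (n : ℤ) = τ + 7 := ⟨(τ + 7).toNat, by omega⟩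
  have hn15 : n < 15 := by omega
  have hc := chk_all ⟨n, hn15⟩
  simp only at hc
  have hτn : (n : ℤ) - 7 = τ := by omega
  rw [hτn] at hc
  rcases hc with hc | hc | hc | hc | hc | hc
  · omega
  · omega
  · omega
  · omega
  · omega
  obtain ⟨i, hi⟩ : ∃ i : ℕ, (i : ℤ) = x := ⟨x.toNat, by omega⟩
  obtain ⟨k, hk⟩ : ∃ k : ℕ, (k : ℤ) = f + g - 1 := ⟨(f + g - 1).toNat, by omega⟩
  have hgd : τ ^ 2 / x = g := by
    rw [← hP]; exact Int.mul_ediv_cancel g (by omega)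
  unfold chk at hc
  rw [List.all_eq_true] at hc
  have h3 := hc i (List.mem_range.mpr (by omega))
  rw [hi, hgd] at h3
  have hi2 : ¬ i < 2 := by omega
  simp only [hi2, decide_false, Bool.false_or] at h3
  rw [List.all_eq_true] at h3
  have h4 := h3 k (List.mem_range.mpr (by nlinarith))
  rw [hk, show f + g - 1 - g + 1 = f by ring] at h4
  by_contra hcon
  push Not at hcon
  obtain ⟨hf0, hpet⟩ := hcon
  have hWd : W = g * (x ^ 2 + 1) + 2 * τ + 1 - (x - 1) * f := by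
    have := P.hWd; rw [this]; ring
  have e1 : (f * W) % (τ ^ 2) = 0 := by rw [P.hW]; exact Int.mul_emod_right _ _
  have e2 : f * W / τ ^ 2 = h := by
    rw [P.hW]; exact Int.mul_ediv_cancel_left h (by omega)
  have e3 : ((x - 1) * h) % (2 * τ + 1) = 0 := Int.emod_eq_zero_of_dvd P.hq
  have e4 := P.h11
  have e5 := P.h22
  have e6 := P.hWP
  have e7 := P.k11
  have e8 := P.k22
  have hcond : cond τ g x f = true := by
    unfold cond
    simp only [← hWd, e2, Bool.and_eq_true, decide_eq_true_eq, Bool.not_eq_true',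
      decide_eq_false_iff_not]
    refine ⟨⟨⟨⟨⟨⟨⟨⟨⟨⟨hP, hf2⟩, hf0⟩, e6⟩, e1⟩, e3⟩, e4⟩, ?_⟩, e7⟩, ?_⟩, ?_⟩
    · simpa using e5
    · simpa using e8
    · rintro ⟨a1, a2, a3⟩
      apply hpet
      refine ⟨a1, ?_, a2, rfl, a3⟩
      rw [a1, a2] at hP
      omega
  rw [hcond] at h4
  simp at h4

end Pool.Agent.TEV
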