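import Pool.Agent.TEV.LX
import Pool.Agent.TEV.LD
import Pool.Agent.TEV.Small

/-!
# `|τ| = p ^ a m`
-/

set_option autoImplicit false

namespace Pool.Agent.TEV

variable {τ g x y f h W : ℤ}

theorem y_one {p : ℕ} (hp : p.Prime) {a : ℕ} (P : Par τ g x y f h W)
    (hτ : τ ^ 2 = ((p : ℤ) ^ a) ^ 2) : y = 1 := by
  have hx := P.hx
  have hy := P.hy
  have hg := P.hg
  have h1 : x.natAbs ∣ p ^ (2 * a) := by
    have : x ∣ ((p ^ (2 * a) : ℕ) : ℤ) :=
      ⟨g * y, by push_cast; rw [mul_comm 2 a, pow_mul, ← hτ, ← P.hP]; ring⟩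
    exact Int.natCast_dvd_natCast.mp (by rwa [Int.natAbs_dvd])
  have h2 : y.natAbs ∣ p ^ (2 * a) := by
    have : y ∣ ((p ^ (2 * a) : ℕ) : ℤ) :=
      ⟨g * x, by push_cast; rw [mul_comm 2 a, pow_mul, ← hτ, ← P.hP]; ring⟩
    exact Int.natCast_dvd_natCast.mp (by rwa [Int.natAbs_dvd])
  obtain ⟨i, _, hi⟩ := (Nat.dvd_prime_pow hp).mp h1
  obtain ⟨j, _, hj⟩ := (Nat.dvd_prime_pow hp).mp h2
  rcases Nat.eq_zero_or_pos j with h0 | h0
  · rw [h0, pow_zero] at hj; omega
  rcases Nat.eq_zero_or_pos i with h3 | h3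
  · rw [h3, pow_zero] at hi; omega
  exfalso
  have h4 : (p : ℤ) ∣ x := by
    rw [← Int.dvd_natAbs, hi]; exact_mod_cast dvd_pow_self p (by omega)
  have h5 : (p : ℤ) ∣ y := by
    rw [← Int.dvd_natAbs, hj]; exact_mod_cast dvd_pow_self p (by omega)
  have h6 := P.hcop.isUnit_of_dvd' h4 h5
  exact (Nat.prime_iff_prime_int.mp hp).not_isUnit h6

theorem T_dvd_W {p : ℕ} (hp : p.Prime) {a : ℕ} {f W : ℤ} (hf0 : f ≠ 0)
    (hf : |f| < (p : ℤ) ^ a) (hd : ((p : ℤ) ^ a) ^ 2 ∣ f * W) : (p : ℤ) ^ a ∣ W := by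
  have hpp := Nat.prime_iff_prime_int.mp hp
  have hp0 : (0 : ℤ) < p := by exact_mod_cast hp.pos
  rw [← pow_mul] at hd
  obtain ⟨d₁, d₂, h1, h2, h3⟩ := exists_dvd_and_dvd_of_dvd_mul hd
  have h4 : d₁ ∣ (p : ℤ) ^ (a * 2) := ⟨d₂, h3⟩
  obtain ⟨i, hi, hai⟩ := (dvd_prime_pow hpp _).mp h4
  have hia : i < a := by
    by_contra hc
    have h5 : (p : ℤ) ^ i ∣ f := hai.symm.dvd.trans h1
    have h6 : (p : ℤ) ^ i ≤ |f| := Int.le_of_dvd (abs_pos.mpr hf0) ((dvd_abs _ _).mpr h5)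
    have h7 : (p : ℤ) ^ a ≤ (p : ℤ) ^ i := pow_le_pow_right₀ (by omega) (by omega)
    omega
  have h5 : (p : ℤ) ^ i * (p : ℤ) ^ (a * 2 - i) ∣ (p : ℤ) ^ i * d₂ := by
    rw [← pow_add, show i + (a * 2 - i) = a * 2 by omega, h3]
    exact mul_dvd_mul_right hai.dvd d₂
  have h6 := (mul_dvd_mul_iff_left (pow_ne_zero i hp0.ne')).mp h5
  exact ((pow_dvd_pow _ (by omega)).trans h6).trans h2

theorem main_arith (P : Par τ g x y f h W) (p a m : ℕ) (hp : p.Prime) (hpm : ¬ p ∣ m)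
    (hτ : τ.natAbs = p ^ a * m)
    (hbig : 2 * m ^ 14 ≤ p ^ a ∨ (a = 1 ∧ 3 * m ^ 7 ≤ p ^ a)) : f = 0 ∨ Pet τ g x y f := by
  have hpp := Nat.prime_iff_prime_int.mp hp
  have hp2 : 2 ≤ p := hp.two_le
  have hpz2 : (2 : ℤ) ≤ p := by exact_mod_cast hp2
  obtain ⟨T, hT⟩ : ∃ T : ℤ, T = (p : ℤ) ^ a := ⟨_, rfl⟩
  have hm0 : m ≠ 0 := by
    rintro rfl
    have := P.tau_sq
    have h0 : τ = 0 := by rw [mul_zero] at hτ; exact Int.natAbs_eq_zero.mp hτ
    rw [h0] at this; norm_num at this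
  have hm1 : 1 ≤ m := Nat.one_le_iff_ne_zero.mpr hm0
  have hmz : (1 : ℤ) ≤ m := by exact_mod_cast hm1
  have hτT : τ = T * m ∨ τ = -(T * m) := by
    have h1 : (τ.natAbs : ℤ) = T * m := by rw [hτ, hT]; push_cast; rfl
    rcases Int.natAbs_eq τ with h2 | h2
    · left; rw [h2, h1]
    · right; rw [h2, h1]
  have hpmz : ¬ (p : ℤ) ∣ m := by exact_mod_cast hpm
  have hTa : (p ^ a : ℕ) = T.natAbs := by rw [hT, Int.natAbs_pow, Int.natAbs_natCast]
  have hTpos : 0 < T := by rw [hT]; positivity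
  have hTnat : ((p ^ a : ℕ) : ℤ) = T := by rw [hT]; push_cast; rfl
  have hbigz : 2 * (m : ℤ) ^ 14 ≤ T ∨ (a = 1 ∧ 3 * (m : ℤ) ^ 7 ≤ T) := by
    rcases hbig with h1 | ⟨h1, h2⟩
    · left; rw [← hTnat]; exact_mod_cast h1
    · right; refine ⟨h1, ?_⟩; rw [← hTnat]; exact_mod_cast h2
  rcases le_or_gt 8 T with h8 | h8
  swap
  · -- small `T`
    have hm1' : m = 1 := by
      by_contra hne
      have h1 : (2 : ℤ) ≤ m := by
        have : 2 ≤ m := by omega
        exact_mod_cast this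
      have h3 : (2 : ℤ) ^ 7 ≤ (m : ℤ) ^ 7 := pow_le_pow_left₀ (by norm_num) h1 7
      have h4 : (m : ℤ) ^ 7 ≤ (m : ℤ) ^ 14 := pow_le_pow_right₀ hmz (by norm_num)
      norm_num at h3
      rcases hbigz with h5 | ⟨_, h5⟩ <;> omega
    rw [hm1'] at hτT
    push_cast at hτT
    rw [mul_one] at hτT
    have habs : |τ| = T := by
      rcases hτT with h1 | h1
      · rw [h1, abs_of_pos hTpos]
      · rw [h1, abs_neg, abs_of_pos hTpos]
    have hy1 : y = 1 := y_one hp (a := a) P (by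
      rw [← hT]; rcases hτT with h1 | h1 <;> rw [h1] <;> ring)
    subst hy1
    apply small_case P (by omega)
    rw [habs]
    intro h6
    -- `6` is not a prime power
    have h7 : p ^ a = 6 := by
      have : ((p ^ a : ℕ) : ℤ) = 6 := by rw [hTnat, h6]
      exact_mod_cast this
    have h2 : 2 = p := by
      apply (Nat.prime_dvd_prime_iff_eq Nat.prime_two hp).mp
      exact Nat.prime_two.dvd_of_dvd_pow (by rw [h7]; norm_num)
    have h3 : 3 = p := by
      apply (Nat.prime_dvd_prime_iff_eq Nat.prime_three hp).mp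
      exact Nat.prime_three.dvd_of_dvd_pow (by rw [h7]; norm_num)
    omega
  -- large `T`
  have hT7 : 3 * (m : ℤ) ^ 7 ≤ T := by
    rcases hbigz with h5 | ⟨_, h5⟩
    · rcases eq_or_lt_of_le hmz with h1 | h1
      · rw [← h1]; norm_num; omega
      · have h2 : (2 : ℤ) ^ 7 ≤ (m : ℤ) ^ 7 := pow_le_pow_left₀ (by norm_num) (by omega) 7
        norm_num at h2
        have h3 : (m : ℤ) ^ 7 * 2 ≤ (m : ℤ) ^ 7 * (m : ℤ) ^ 7 :=
          mul_le_mul_of_nonneg_left (by omega) (by positivity)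
        have h4 : (m : ℤ) ^ 7 * (m : ℤ) ^ 7 = (m : ℤ) ^ 14 := by ring
        omega
    · exact h5
  have S : Siz τ T m := ⟨hmz, h8, hT7, hτT⟩
  have ha : 1 ≤ a := by
    rcases Nat.eq_zero_or_pos a with h0 | h0
    · rw [h0, pow_zero] at hT; omega
    · exact h0
  have hx := P.hx
  have hy := P.hy
  have hg := P.hg
  have hxy := P.hxy
  have hpT : (p : ℤ) ∣ T := by rw [hT]; exact dvd_pow_self _ (by omega)
  have hpτ : (p : ℤ) ∣ τ := by
    rcases hτT with h1 | h1
    · rw [h1]; exact Dvd.dvd.mul_right hpT _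
    · rw [h1]; exact (Dvd.dvd.mul_right hpT _).neg_right
  have hPS : g * x * y = T ^ 2 * (m : ℤ) ^ 2 := by rw [P.hP, S.sq]
  have hTfW : T ^ 2 ∣ f * W := ⟨(m : ℤ) ^ 2 * h, by rw [P.hW, S.sq]; ring⟩
  have hcopT : ∀ z : ℤ, ¬ (p : ℤ) ∣ z → IsCoprime (T ^ 2) z := by
    intro z hz
    rw [hT]
    exact ((hpp.coprime_iff_not_dvd.mpr hz).pow_left).pow_left
  have hm2 : ¬ (p : ℤ) ∣ (m : ℤ) ^ 2 := fun h1 => hpmz (hpp.dvd_of_dvd_pow h1)
  by_cases hpg : (p : ℤ) ∣ g
  swap
  · -- `p ∤ g`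
    have h1 : T ^ 2 ∣ x * y := by
      have h2 : T ^ 2 ∣ g * (x * y) := ⟨(m : ℤ) ^ 2, by rw [← hPS]; ring⟩
      exact (hcopT g hpg).dvd_of_dvd_mul_left h2
    by_cases hpy : (p : ℤ) ∣ y
    · exfalso
      have hpx : ¬ (p : ℤ) ∣ x := fun h2 => hpp.not_isUnit (P.hcop.isUnit_of_dvd' h2 hpy)
      have h2 : T ^ 2 ∣ y := (hcopT x hpx).dvd_of_dvd_mul_left h1
      have h3 := Int.le_of_dvd (by omega) h2
      have h4 : T ^ 2 * T ^ 2 ≤ x * y := mul_le_mul (by omega) h3 (by positivity) (by omega)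
      have h5 : 1 * (x * y) ≤ g * (x * y) := mul_le_mul_of_nonneg_right hg (by positivity)
      have h6 : T ^ 2 * T ^ 2 ≤ T ^ 2 * (m : ℤ) ^ 2 := by
        linarith [show g * (x * y) = g * x * y by ring]
      have h7 := le_of_mul_le_mul_left h6 (by positivity)
      have h9 := S.T3m
      nlinarith
    · have h2 : T ^ 2 ∣ x := (hcopT y hpy).dvd_of_dvd_mul_right h1
      left
      apply Gx P S h2
      intro hf
      rw [hT]
      refine T_dvd_W (f := f) hp (by omega) ?_ (by rw [← hT]; exact hTfW)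
      rw [← hT, abs_of_neg hf]
      -- `-f < g y ≤ m ^ 2 < T`
      obtain ⟨x', hx'⟩ := h2
      have hx1 : 1 ≤ x' := by
        by_contra hc
        have : T ^ 2 * x' ≤ 0 := mul_nonpos_of_nonneg_of_nonpos (by positivity) (by omega)
        omega
      have h3 : g * x' * y = (m : ℤ) ^ 2 := by
        have : T ^ 2 * (g * x' * y - (m : ℤ) ^ 2) = 0 := by
          rw [hx'] at hPS; linear_combination hPS
        rcases mul_eq_zero.mp this with h4 | h4
        · exact absurd h4 (pow_ne_zero 2 (by omega))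
        · omega
      have h4 : g * y ≤ (m : ℤ) ^ 2 := by
        have : g * y * 1 ≤ g * y * x' := mul_le_mul_of_nonneg_left hx1 (by positivity)
        linarith [show g * y * x' = g * x' * y by ring]
      have h5 := P.hf1
      have h6 := S.T3 2 (by norm_num)
      have h7 := S.one 2
      omega
  · -- `p ∣ g`
    have hWp : (p : ℤ) ∣ W - 1 + (x - y) * f := by
      have h1 : W - 1 + (x - y) * f = g * (x ^ 2 + y ^ 2) + 2 * τ := by rw [P.hWd]; ring
      rw [h1]
      exact dvd_add (Dvd.dvd.mul_right hpg _) (Dvd.dvd.mul_left hpτ _)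
    by_cases hpf : (p : ℤ) ∣ f
    · left
      have hpW : ¬ (p : ℤ) ∣ W := by
        intro h1
        have h2 : (p : ℤ) ∣ 1 := by
          have h3 : (1 : ℤ) = W + (x - y) * f - (W - 1 + (x - y) * f) := by ring
          rw [h3]
          exact dvd_sub (dvd_add h1 (Dvd.dvd.mul_left hpf _)) hWp
        exact hpp.not_isUnit (isUnit_of_dvd_one h2)
      exact Ff P S ((hcopT W hpW).dvd_of_dvd_mul_right hTfW)
    · have hTW : T ^ 2 ∣ W := (hcopT f hpf).dvd_of_dvd_mul_left hTfW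
      by_cases hpx : (p : ℤ) ∣ x
      swap
      · exfalso
        apply Wa P S hTW
        have h1 : x ∣ T ^ 2 * (m : ℤ) ^ 2 := ⟨g * y, by rw [← hPS]; ring⟩
        exact (hcopT x hpx).symm.dvd_of_dvd_mul_left h1
      · have hpy : ¬ (p : ℤ) ∣ y := fun h2 => hpp.not_isUnit (P.hcop.isUnit_of_dvd' hpx h2)
        have hym : y ∣ (m : ℤ) ^ 2 := by
          have h1 : y ∣ T ^ 2 * (m : ℤ) ^ 2 := ⟨g * x, by rw [← hPS]; ring⟩
          exact (hcopT y hpy).symm.dvd_of_dvd_mul_left h1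
        obtain ⟨ν, θ, D⟩ := Dat.mk' P S hTW hym
        rcases le_or_gt θ 0 with hθ | hθ
        · right
          apply D.nonpos hθ
          intro E hE
          have h1 : (p : ℤ) ∣ (m : ℤ) ^ 2 * y := by rw [← hE]; exact Dvd.dvd.mul_left hpx _
          rcases hpp.dvd_or_dvd h1 with h2 | h2
          · exact hm2 h2
          · exact hpy h2
        · exfalso
          have hg2 : 2 ≤ g := by
            have := Int.le_of_dvd (by omega) hpg
            omega
          -- `x = p ^ b x'`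
          obtain ⟨b, x', hx', hxb⟩ : ∃ (b : ℕ) (x' : ℤ), ¬ (p : ℤ) ∣ x' ∧ x = (p : ℤ) ^ b * x' := by
            have hfin : FiniteMultiplicity (p : ℤ) x :=
              Int.finiteMultiplicity_iff.mpr ⟨by simpa using hp.ne_one, by omega⟩
            obtain ⟨c, hc, hc2⟩ := hfin.exists_eq_pow_mul_and_not_dvd
            exact ⟨_, c, hc2, hc⟩
          have hb1 : 1 ≤ b := by
            rcases Nat.eq_zero_or_pos b with h0 | h0
            · exfalso; rw [h0, pow_zero, one_mul] at hxb; rw [hxb] at hpx; exact hx' hpx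
            · exact h0
          rcases le_or_gt a b with hab | hab
          · exact D.alpha hθ (by rw [hT, hxb]; exact Dvd.dvd.mul_right (pow_dvd_pow _ hab) _) hg2
          · have hpow : ∀ i : ℕ, 1 ≤ i → (2 : ℤ) ≤ (p : ℤ) ^ i := by
              intro i hi
              have : (p : ℤ) ^ 1 ≤ (p : ℤ) ^ i := pow_le_pow_right₀ (by omega) hi
              rw [pow_one] at this
              omega
            have hcop : ∀ (i : ℕ) (z : ℤ), ¬ (p : ℤ) ∣ z → IsCoprime ((p : ℤ) ^ i) z := by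
              intro i z hz
              exact (hpp.coprime_iff_not_dvd.mpr hz).pow_left
            have h14 : 2 * (m : ℤ) ^ 14 ≤ T := by
              rcases hbigz with h1 | ⟨h1, _⟩
              · exact h1
              · omega
            refine D.beta hθ h14 (hpow b hb1) (hpow (a - b) (by omega)) ?_ hxb
              (hcop b x' hx').symm (hcop (a - b) x' hx').symm (hcop b m hpmz)
              (hcop (a - b) m hpmz) (hcop b y hpy) ?_
            · rw [hT, ← pow_add]; congr 1; omega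
            · rcases le_total b (a - b) with h1 | h1
              · exact Or.inl (pow_dvd_pow _ h1)
              · exact Or.inr (pow_dvd_pow _ h1)

end Pool.Agent.TEV
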