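import Mathlib

/-!
# The lattice of an integral multiple of an idempotent matrix

If `H ^ 2 = N H` with `N ≠ 0`, all integral, the vectors `v` with `H v = N v` form a lattice with a
basis `B`, and `H = B C` with `C B = N`.
-/

set_option autoImplicit false

namespace Pool.Agent.TEV

open Matrix

variable {V : Type*} [Fintype V] [DecidableEq V]

theorem lattice (H : Matrix V V ℤ) (N : ℤ) (hHH : H * H = N • H) :
    ∃ (r : ℕ) (B : Matrix V (Fin r) ℤ) (C : Matrix (Fin r) V ℤ), B * C = H ∧ C * B = N • 1 := by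
  obtain ⟨L, hL⟩ : ∃ L : Submodule ℤ (V → ℤ), L = LinearMap.ker (H - N • (1 : Matrix V V ℤ)).mulVecLin :=
    ⟨_, rfl⟩
  have hmem : ∀ v : V → ℤ, v ∈ L ↔ H *ᵥ v = N • v := by
    intro v
    rw [hL, LinearMap.mem_ker, Matrix.mulVecLin_apply, Matrix.sub_mulVec, Matrix.smul_mulVec,
      Matrix.one_mulVec, sub_eq_zero]
  obtain ⟨r, b⟩ := Submodule.basisOfPid (Pi.basisFun ℤ V) L
  obtain ⟨B, hB⟩ : ∃ B : Matrix V (Fin r) ℤ, ∀ v i, B v i = (b i : V → ℤ) v :=
    ⟨fun v i => (b i : V → ℤ) v, fun _ _ => rfl⟩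
  have hcol : ∀ v : V, (fun w => H w v) ∈ L := by
    intro v
    rw [hmem]
    ext w
    have h1 := congrFun (congrFun hHH w) v
    rw [Matrix.mul_apply, Matrix.smul_apply] at h1
    exact h1
  obtain ⟨C, hC⟩ : ∃ C : Matrix (Fin r) V ℤ, ∀ i v, C i v = b.repr ⟨_, hcol v⟩ i :=
    ⟨fun i v => b.repr ⟨_, hcol v⟩ i, fun _ _ => rfl⟩
  have hBC : B * C = H := by
    ext w v
    rw [Matrix.mul_apply]
    have h1 := b.sum_repr ⟨_, hcol v⟩
    have h2 : (∑ i, (b.repr ⟨_, hcol v⟩) i • (b i : V → ℤ)) w = H w v := by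
      have h3 := congrFun (congrArg Subtype.val h1) w
      rw [Submodule.coe_sum] at h3
      exact h3
    rw [← h2, Finset.sum_apply]
    refine Finset.sum_congr rfl (fun i _ => ?_)
    rw [hB, hC, Pi.smul_apply, smul_eq_mul, mul_comm]
  have hinj : ∀ X : Matrix (Fin r) (Fin r) ℤ, B * X = 0 → X = 0 := by
    intro X hX
    ext i j
    have h1 : ∑ k, X k j • b k = 0 := by
      apply Subtype.ext
      rw [Submodule.coe_sum]
      ext w
      rw [Finset.sum_apply]
      have h2 := congrFun (congrFun hX w) j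
      rw [Matrix.mul_apply, Matrix.zero_apply] at h2
      show _ = (0 : ℤ)
      rw [← h2]
      refine Finset.sum_congr rfl (fun k _ => ?_)
      rw [hB, Submodule.coe_smul, Pi.smul_apply, smul_eq_mul, mul_comm]
    have h3 := (Fintype.linearIndependent_iff.mp b.linearIndependent) (fun k => X k j) h1 i
    exact h3
  have hHB : H * B = N • B := by
    ext w i
    have h1 := (hmem _).mp (b i).2
    have h2 := congrFun h1 w
    rw [Matrix.mul_apply, Matrix.smul_apply]
    simp only [hB]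
    exact h2
  refine ⟨r, B, C, hBC, ?_⟩
  have h1 : B * (C * B - N • 1) = 0 := by
    rw [Matrix.mul_sub, ← Matrix.mul_assoc, hBC, hHB, Matrix.mul_smul, Matrix.mul_one, sub_self]
  have h2 := hinj _ h1
  exact sub_eq_zero.mp h2

end Pool.Agent.TEV
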