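import Mathlib
import Pool.Agent.TEV.Lat

/-!
# Determinants of the eigenlattices

For an integral symmetric matrix `A` with `(A - a) (A - b) = g z zᵀ` and `A z = c z`.
-/

set_option autoImplicit false

namespace Pool.Agent.TEV

open Matrix

variable {V : Type*} [Fintype V] [DecidableEq V]

/-- The elements `p + q A + r z zᵀ`. -/
def el (A Z : Matrix V V ℤ) (p q r : ℤ) : Matrix V V ℤ := p • 1 + q • A + r • Z

theorem el_mul (A Z : Matrix V V ℤ) (a b c g N : ℤ) (hAA : A * A = el A Z (-(a * b)) (a + b) g)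
    (hAZ : A * Z = c • Z) (hZA : Z * A = c • Z) (hZZ : Z * Z = N • Z) (p q r p' q' r' : ℤ) :
    el A Z p q r * el A Z p' q' r' =
      el A Z (p * p' - q * q' * (a * b)) (p * q' + q * p' + q * q' * (a + b))
        (p * r' + r * p' + q * q' * g + c * (q * r' + r * q') + r * r' * N) := by
  simp only [el] at hAA ⊢
  simp only [Matrix.add_mul, Matrix.mul_add, Matrix.smul_mul, Matrix.mul_smul, Matrix.one_mul,
    Matrix.mul_one, hAA, hAZ, hZA, hZZ, smul_add, smul_smul]
  module

omit [Fintype V] in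
theorem el_smul (A Z : Matrix V V ℤ) (k p q r : ℤ) :
    k • el A Z p q r = el A Z (k * p) (k * q) (k * r) := by
  simp only [el, smul_add, smul_smul]

omit [Fintype V] in
theorem el_add (A Z : Matrix V V ℤ) (p q r p' q' r' : ℤ) :
    el A Z p q r + el A Z p' q' r' = el A Z (p + p') (q + q') (r + r') := by
  simp only [el]
  module

omit [Fintype V] in
theorem el_one (A Z : Matrix V V ℤ) (k : ℤ) : el A Z k 0 0 = k • 1 := by
  simp only [el, zero_smul, add_zero]

omit [Fintype V] in
theorem el_zero (A Z : Matrix V V ℤ) : el A Z 0 0 0 = 0 := by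
  simp only [el, zero_smul, add_zero]

omit [Fintype V] in
theorem el_A (A Z : Matrix V V ℤ) : el A Z 0 1 0 = A := by
  simp only [el, zero_smul, zero_add, add_zero, one_smul]

omit [Fintype V] in
theorem el_Z (A Z : Matrix V V ℤ) : el A Z 0 0 1 = Z := by
  simp only [el, zero_smul, zero_add, one_smul]

/-- Change of basis for symmetric bilinear forms. -/
theorem gram_change {α β : Type*} [Fintype α] [DecidableEq α] [Fintype β] [DecidableEq β]
    (h : Fintype.card α = Fintype.card β) (U : Matrix α β ℤ) :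
    ∃ R : ℤ, ∀ P : Matrix α α ℤ, (Uᵀ * P * U).det = R ^ 2 * P.det := by
  obtain ⟨e⟩ := Fintype.card_eq.mp h
  refine ⟨(U.submatrix id e).det, fun P => ?_⟩
  have h1 : (Uᵀ * P * U).det = ((Uᵀ * P * U).submatrix e e).det :=
    (Matrix.det_submatrix_equiv_self e _).symm
  have h2 : (Uᵀ * P * U).submatrix e e = (U.submatrix id e)ᵀ * P * (U.submatrix id e) := by
    ext i j
    simp [Matrix.mul_apply, Matrix.submatrix_apply]
  rw [h1, h2, Matrix.det_mul, Matrix.det_mul, Matrix.det_transpose]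
  ring

omit [DecidableEq V] in
/-- Integral vectors, integral Gram determinants are nonnegative. -/
theorem gram_nonneg {α : Type*} [Fintype α] [DecidableEq α] (B : Matrix V α ℤ) :
    0 ≤ (Bᵀ * B).det := by
  have h1 : 0 ≤ ((B.map (Int.cast : ℤ → ℝ))ᵀ * (B.map (Int.cast : ℤ → ℝ))).det := by
    have h2 := (Matrix.posSemidef_conjTranspose_mul_self (B.map (Int.cast : ℤ → ℝ))).det_nonneg
    rw [Matrix.conjTranspose_eq_transpose_of_trivial] at h2
    exact h2
  have h3 : ((B.map (Int.cast : ℤ → ℝ))ᵀ * (B.map (Int.cast : ℤ → ℝ))) =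
      (Bᵀ * B).map (Int.castRingHom ℝ) := by
    rw [Matrix.map_mul]
    rfl
  rw [h3] at h1
  have h4 : ((Bᵀ * B).map (Int.castRingHom ℝ)).det = (((Bᵀ * B).det : ℤ) : ℝ) := by
    rw [← RingHom.mapMatrix_apply, ← RingHom.map_det]
    rfl
  rw [h4] at h1
  exact_mod_cast h1

omit [DecidableEq V] in
/-- An alternating form takes even values on integral vectors. -/
theorem even_quad {α : Type*} [Fintype α] [DecidableEq α] (A : Matrix V V ℤ) (hA : Aᵀ = A)
    (hd : ∀ v, A v v = 0) (B : Matrix V α ℤ) (i : α) : Even ((Bᵀ * A * B) i i) := by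
  rw [← ZMod.intCast_eq_zero_iff_even]
  have h1 : (Bᵀ * A * B) i i = ∑ p : V × V, B p.1 i * A p.1 p.2 * B p.2 i := by
    rw [Matrix.mul_apply, Fintype.sum_prod_type_right]
    refine Finset.sum_congr rfl (fun v _ => ?_)
    rw [Matrix.mul_apply, Finset.sum_mul]
    rfl
  rw [h1, Int.cast_sum]
  have hAs : ∀ u v, A u v = A v u := fun u v => congrFun (congrFun hA.symm u) v
  refine Finset.sum_involution (fun p _ => (p.2, p.1)) ?_ ?_ ?_ ?_
  · intro p _
    have h2 : B p.2 i * A p.2 p.1 * B p.1 i = B p.1 i * A p.1 p.2 * B p.2 i := by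
      rw [hAs p.2 p.1]; ring
    show ((B p.1 i * A p.1 p.2 * B p.2 i : ℤ) : ZMod 2) + ((B p.2 i * A p.2 p.1 * B p.1 i : ℤ) : ZMod 2) = 0
    rw [h2]
    exact CharTwo.add_self_eq_zero _
  · intro p _ hp heq
    apply hp
    have h3 : p.2 = p.1 := congrArg Prod.fst heq
    rw [h3, hd, mul_zero, zero_mul, Int.cast_zero]
  · intro p _
    exact Finset.mem_univ _
  · intro p _
    rfl

omit [DecidableEq V] in
/-- The Gram determinant divides a power of `N`. -/
theorem gram_dvd (H : Matrix V V ℤ) (hH : Hᵀ = H) (N : ℤ) (r : ℕ) (B : Matrix V (Fin r) ℤ)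
    (C : Matrix (Fin r) V ℤ) (hBC : B * C = H) (hCB : C * B = N • 1) :
    ∃ E : ℤ, (Bᵀ * B).det * E = (N ^ 2) ^ r := by
  refine ⟨(C * Cᵀ).det, ?_⟩
  rw [mul_comm, ← Matrix.det_mul]
  have h1 : C * Cᵀ * (Bᵀ * B) = (N ^ 2) • 1 := by
    calc C * Cᵀ * (Bᵀ * B) = C * (Cᵀ * Bᵀ) * B := by simp only [Matrix.mul_assoc]
      _ = C * (B * C) * B := by rw [← Matrix.transpose_mul, hBC, hH]
      _ = (C * B) * (C * B) := by simp only [Matrix.mul_assoc]
      _ = (N ^ 2) • 1 := by
        rw [hCB, Matrix.smul_mul, Matrix.one_mul, smul_smul, sq]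
  rw [h1, Matrix.det_smul, Matrix.det_one, mul_one, Fintype.card_fin]

/-- Cancelling a nonzero integer. -/
theorem smul_cancel {α β : Type*} (N : ℤ) (hN : N ≠ 0) (X Y : Matrix α β ℤ) (h : N • X = N • Y) :
    X = Y := by
  ext i j
  have h1 := congrFun (congrFun h i) j
  rw [Matrix.smul_apply, Matrix.smul_apply, smul_eq_mul, smul_eq_mul] at h1
  exact mul_left_cancel₀ hN h1

end Pool.Agent.TEV
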