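import Mathlib

/-!
# Even symmetric integer matrices with odd determinant

Such a matrix has even size `n`, and its determinant is `(-1) ^ (n / 2)` modulo `4`.
-/

set_option autoImplicit false

namespace Pool.Agent.TEV

open Matrix

/-- An integer matrix all of whose entries are even, of positive size, has even determinant. -/
theorem det_even_of_even {ι : Type*} [Fintype ι] [DecidableEq ι] [Nonempty ι] (B : Matrix ι ι ℤ)
    (h : ∀ i j, Even (B i j)) : Even B.det := by
  choose C hC using h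
  have h1 : B = (2 : ℤ) • (Matrix.of C) := by
    ext i j
    rw [Matrix.smul_apply, Matrix.of_apply, hC i j, smul_eq_mul]
    ring
  rw [h1, Matrix.det_smul]
  obtain ⟨i⟩ := ‹Nonempty ι›
  have h2 : Fintype.card ι ≠ 0 := Fintype.card_ne_zero
  exact Even.mul_right ((even_two).pow_of_ne_zero h2) _

/-- The Schur step. -/
theorem schur_int {ι : Type*} [Fintype ι] [DecidableEq ι] (P : Matrix (Fin 2) (Fin 2) ℤ)
    (R : Matrix (Fin 2) ι ℤ) (S : Matrix ι (Fin 2) ℤ) (C : Matrix ι ι ℤ) :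
    (fromBlocks P R S C).det * P.det ^ Fintype.card ι =
      P.det * (P.det • C - S * adjugate P * R).det := by
  have h1 : fromBlocks P R S C * fromBlocks 1 (-(adjugate P * R)) 0 (P.det • (1 : Matrix ι ι ℤ)) =
      fromBlocks P 0 S (P.det • C - S * adjugate P * R) := by
    rw [Matrix.fromBlocks_multiply]
    congr 1
    · simp
    · rw [Matrix.mul_neg, ← Matrix.mul_assoc, Matrix.mul_adjugate, Matrix.mul_smul, Matrix.mul_one,
        Matrix.smul_mul, Matrix.one_mul]
      simp
    · simp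
    · rw [Matrix.mul_neg, Matrix.mul_smul, Matrix.mul_one, Matrix.mul_assoc]
      abel
  have h2 := congrArg Matrix.det h1
  rw [Matrix.det_mul, Matrix.det_fromBlocks_zero₂₁, Matrix.det_fromBlocks_zero₁₂, Matrix.det_one,
    one_mul, Matrix.det_smul, Matrix.det_one, mul_one] at h2
  exact h2

theorem ev4 (n : ℕ) : ∀ {ι : Type} [Fintype ι] [DecidableEq ι], Fintype.card ι = n →
    ∀ B : Matrix ι ι ℤ, B.IsSymm → (∀ i, Even (B i i)) → Odd B.det →
      Even n ∧ (4 : ℤ) ∣ B.det - (-1) ^ (n / 2) := by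
  induction n using Nat.strong_induction_on with
  | _ n ih =>
    intro ι _ _ hcard B hsym hev hodd
    rcases Nat.eq_zero_or_pos n with hn | hn
    · subst hn
      have : IsEmpty ι := Fintype.card_eq_zero_iff.mp hcard
      rw [Matrix.det_isEmpty]
      exact ⟨Even.zero, by norm_num⟩
    have : Nonempty ι := Fintype.card_pos_iff.mp (by omega)
    obtain ⟨i, j, hij⟩ : ∃ i j, ¬ Even (B i j) := by
      by_contra hcon
      push Not at hcon
      exact (Int.not_even_iff_odd.mpr hodd) (det_even_of_even B hcon)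
    have hne : i ≠ j := by
      rintro rfl
      exact hij (hev i)
    rw [Int.not_even_iff_odd] at hij
    -- the splitting of the index set
    obtain ⟨φ, hφ⟩ : ∃ φ : Fin 2 ⊕ {k // k ≠ i ∧ k ≠ j} ≃ ι, (∀ k, φ (Sum.inl k) = ![i, j] k) ∧
        ∀ k, φ (Sum.inr k) = k.1 := by
      refine ⟨Equiv.ofBijective (Sum.elim ![i, j] Subtype.val) ⟨?_, ?_⟩, fun _ => rfl, fun _ => rfl⟩
      · rintro (a | a) (b | b) hab
        · fin_cases a <;> fin_cases b <;> simp_all
        · exfalso
          have h1 := b.2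
          fin_cases a <;> simp_all
        · exfalso
          have h1 := a.2
          fin_cases b <;> simp_all
        · exact congrArg Sum.inr (Subtype.ext hab)
      · intro k
        by_cases h1 : k = i
        · exact ⟨Sum.inl 0, h1.symm⟩
        by_cases h2 : k = j
        · exact ⟨Sum.inl 1, h2.symm⟩
        exact ⟨Sum.inr ⟨k, h1, h2⟩, rfl⟩
    obtain ⟨ι', hι'⟩ : ∃ ι' : Type, ι' = {k // k ≠ i ∧ k ≠ j} := ⟨_, rfl⟩
    obtain ⟨B', hB'⟩ : ∃ B', B' = B.submatrix φ φ := ⟨_, rfl⟩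
    have hdet : B'.det = B.det := by rw [hB', Matrix.det_submatrix_equiv_self]
    have hBs : ∀ a b, B a b = B b a := fun a b => hsym.apply b a
    obtain ⟨P, hP⟩ : ∃ P, P = B'.toBlocks₁₁ := ⟨_, rfl⟩
    obtain ⟨R, hR⟩ : ∃ R, R = B'.toBlocks₁₂ := ⟨_, rfl⟩
    obtain ⟨S, hS⟩ : ∃ S, S = B'.toBlocks₂₁ := ⟨_, rfl⟩
    obtain ⟨C, hC⟩ : ∃ C, C = B'.toBlocks₂₂ := ⟨_, rfl⟩
    have hblk : fromBlocks P R S C = B' := by
      rw [hP, hR, hS, hC]; exact Matrix.fromBlocks_toBlocks B'
    have hSR : S = Rᵀ := by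
      ext a b
      rw [hS, hR, hB']
      exact hBs _ _
    have hPs : Pᵀ = P := by
      ext a b
      rw [hP, hB']
      exact hBs _ _
    have hCs : Cᵀ = C := by
      ext a b
      rw [hC, hB']
      exact hBs _ _
    have hP00 : P 0 0 = B i i := by rw [hP, hB']; simp [Matrix.toBlocks₁₁, hφ.1]
    have hP01 : P 0 1 = B i j := by rw [hP, hB']; simp [Matrix.toBlocks₁₁, hφ.1]
    have hP10 : P 1 0 = B i j := by rw [hP, hB', hBs i j]; simp [Matrix.toBlocks₁₁, hφ.1]
    have hP11 : P 1 1 = B j j := by rw [hP, hB']; simp [Matrix.toBlocks₁₁, hφ.1]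
    have hCd : ∀ k, Even (C k k) := by
      intro k
      rw [hC, hB']
      exact hev _
    obtain ⟨α, hα⟩ := hev i
    obtain ⟨β, hβ⟩ := hev j
    obtain ⟨γ, hγ⟩ := hij
    obtain ⟨p, hp⟩ : ∃ p, p = P.det := ⟨_, rfl⟩
    have hp4 : p = 4 * (α * β - γ ^ 2 - γ) - 1 := by
      rw [hp, Matrix.det_fin_two, hP00, hP01, hP10, hP11, hα, hβ, hγ]
      ring
    obtain ⟨C', hC'⟩ : ∃ C', C' = p • C - S * adjugate P * R := ⟨_, rfl⟩
    have hC's : C'.IsSymm := by
      rw [Matrix.IsSymm, hC', Matrix.transpose_sub, Matrix.transpose_smul, hCs, Matrix.transpose_mul,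
        Matrix.transpose_mul, hSR, Matrix.transpose_transpose, Matrix.adjugate_transpose, hPs,
        Matrix.mul_assoc]
    have hC'd : ∀ k, Even (C' k k) := by
      intro k
      have h1 : (S * adjugate P * R) k k = 2 * (R 0 k ^ 2 * β - R 0 k * R 1 k * (B i j)
          + R 1 k ^ 2 * α) := by
        rw [Matrix.mul_apply, Fin.sum_univ_two, Matrix.mul_apply, Matrix.mul_apply, Fin.sum_univ_two,
          Fin.sum_univ_two, Matrix.adjugate_fin_two, hSR]
        simp only [Matrix.transpose_apply, Matrix.of_apply, Matrix.cons_val', Matrix.cons_val_zero,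
          Matrix.cons_val_one, Matrix.cons_val_fin_one]
        rw [hP00, hP01, hP10, hP11, hα, hβ]
        ring
      rw [hC', Matrix.sub_apply, Matrix.smul_apply, smul_eq_mul, h1]
      exact (Even.mul_left (hCd k) p).sub (even_two_mul _)
    have hcard' : Fintype.card {k // k ≠ i ∧ k ≠ j} + 2 = n := by
      have h1 := Fintype.card_congr φ
      rw [Fintype.card_sum, Fintype.card_fin] at h1
      omega
    obtain ⟨m, hm⟩ : ∃ m, m = Fintype.card {k // k ≠ i ∧ k ≠ j} := ⟨_, rfl⟩
    have hsch := schur_int P R S C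
    rw [hblk, hdet, ← hp, ← hC', ← hm] at hsch
    have hpodd : Odd p := by rw [hp4]; exact ⟨2 * (α * β - γ ^ 2 - γ) - 1, by ring⟩
    have hC'odd : Odd C'.det := by
      have h1 : Odd (p * C'.det) := by
        rw [← hsch]
        exact hodd.mul hpodd.pow
      exact (Int.odd_mul.mp h1).2
    obtain ⟨hme, hmd⟩ := ih m (by omega) hm.symm C' hC's hC'd hC'odd
    obtain ⟨r, hr⟩ := hme
    have hn2 : n = 2 * (r + 1) := by omega
    have hm2 : m = 2 * r := by omega
    refine ⟨⟨r + 1, by omega⟩, ?_⟩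
    rw [hn2, Nat.mul_div_cancel_left _ (by norm_num), pow_succ]
    rw [hm2, Nat.mul_div_cancel_left _ (by norm_num)] at hmd
    rw [hm2, pow_mul] at hsch
    -- `p ^ 2 = 1 mod 4`
    have hp2 : (4 : ℤ) ∣ (p ^ 2) ^ r - 1 := by
      have h1 : (4 : ℤ) ∣ p ^ 2 - 1 := ⟨4 * (α * β - γ ^ 2 - γ) ^ 2 - 2 * (α * β - γ ^ 2 - γ), by
        rw [hp4]; ring⟩
      have h2 := sub_one_dvd_pow_sub_one (p ^ 2) r
      exact h1.trans h2
    obtain ⟨u, hu⟩ := hp2
    obtain ⟨w, hw⟩ := hmd
    have hu' : (p ^ 2) ^ r = 4 * u + 1 := by linarith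
    have hw' : C'.det = 4 * w + (-1) ^ r := by linarith
    rw [hu', hw', hp4] at hsch
    refine ⟨(α * β - γ ^ 2 - γ) * (4 * w + (-1) ^ r) - w - B.det * u, ?_⟩
    linear_combination hsch

end Pool.Agent.TEV
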