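import Mathlib
import Pool.Agent.TEV.Dets
import Pool.Agent.TEV.EV4

/-!
# The determinants of the eigenlattices modulo `4`
-/

set_option autoImplicit false

namespace Pool.Agent.TEV

open Matrix

variable {V : Type*} [Fintype V] [DecidableEq V]

theorem dets (A : Matrix V V ℤ) (hA : Aᵀ = A) (hdiag : ∀ v, A v v = 0) (z : V → ℤ)
    (a b c g N : ℤ) (hAA : A * A = el A (vecMulVec z z) (-(a * b)) (a + b) g)
    (hz : A *ᵥ z = c • z) (hN : z ⬝ᵥ z = N) (hgN : g * N = (c - a) * (c - b)) (hca : c ≠ a)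
    (hcb : c ≠ b) (hab : a ≠ b) (hN0 : 0 < N) :
    ∃ (ra rb : ℕ) (Da Db Ea Eb S K : ℤ), ra + rb + 1 = Fintype.card V ∧ a * ra + b * rb + c = 0 ∧
      0 < Da ∧ 0 < Db ∧ Da * Ea = (((a - c) * (a - b)) ^ 2) ^ ra ∧
      Db * Eb = (((b - c) * (b - a)) ^ 2) ^ rb ∧ K ≠ 0 ∧ Da * Db * N * K ^ 2 = S ^ 2 ∧
      (Odd (c - a) → Odd (a - b) → Even c → Even ra ∧ (4 : ℤ) ∣ Da - (-1) ^ (ra / 2)) ∧
      (Odd (c - a) → Odd (a - b) → Odd c →
        Even (rb + 1) ∧ (4 : ℤ) ∣ b ^ rb * c * Da - (-1) ^ ((rb + 1) / 2)) := by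
  obtain ⟨Z, hZ⟩ : ∃ Z, Z = vecMulVec z z := ⟨_, rfl⟩
  rw [← hZ] at hAA
  have hZs : Zᵀ = Z := by
    ext i j
    rw [hZ, Matrix.transpose_apply, Matrix.vecMulVec_apply, Matrix.vecMulVec_apply, mul_comm]
  have hAZ : A * Z = c • Z := by
    rw [hZ, Matrix.mul_vecMulVec, hz, Matrix.smul_vecMulVec]
  have hZA : Z * A = c • Z := by
    have h1 := congrArg Matrix.transpose hAZ
    rwa [Matrix.transpose_mul, hA, hZs, Matrix.transpose_smul, hZs] at h1
  have hZZ : Z * Z = N • Z := by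
    rw [hZ, Matrix.vecMulVec_mul_vecMulVec, hN, Matrix.vecMulVec_smul]
  have hmul := el_mul A Z a b c g N hAA hAZ hZA hZZ
  have hels : ∀ p q r, (el A Z p q r)ᵀ = el A Z p q r := by
    intro p q r
    simp only [el, Matrix.transpose_add, Matrix.transpose_smul, Matrix.transpose_one, hA, hZs]
  obtain ⟨Na, hNa⟩ : ∃ x, x = (a - c) * (a - b) := ⟨_, rfl⟩
  obtain ⟨Nb, hNb⟩ : ∃ x, x = (b - c) * (b - a) := ⟨_, rfl⟩
  have hNa0 : Na ≠ 0 := by
    rw [hNa]; exact mul_ne_zero (sub_ne_zero.mpr hca.symm) (sub_ne_zero.mpr hab)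
  have hNb0 : Nb ≠ 0 := by
    rw [hNb]; exact mul_ne_zero (sub_ne_zero.mpr hcb.symm) (sub_ne_zero.mpr hab.symm)
  obtain ⟨Ha, hHa⟩ : ∃ H, H = el A Z ((c - a) * b) (-(c - a)) g := ⟨_, rfl⟩
  obtain ⟨Hb, hHb⟩ : ∃ H, H = el A Z ((c - b) * a) (-(c - b)) g := ⟨_, rfl⟩
  obtain ⟨HX, hHX⟩ : ∃ H, H = el A Z (Na - (c - a) * b) (c - a) (-g) := ⟨_, rfl⟩
  have eleq : ∀ p q r p' q' r' : ℤ, p = p' → q = q' → r = r' → el A Z p q r = el A Z p' q' r' := by
    intro p q r p' q' r' h1 h2 h3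
    rw [h1, h2, h3]
  have hHa2 : Ha * Ha = Na • Ha := by
    rw [hHa, hmul, el_smul]
    apply eleq
    · rw [hNa]; ring
    · rw [hNa]; ring
    · rw [hNa]; linear_combination g * hgN
  have hHb2 : Hb * Hb = Nb • Hb := by
    rw [hHb, hmul, el_smul]
    apply eleq
    · rw [hNb]; ring
    · rw [hNb]; ring
    · rw [hNb]; linear_combination g * hgN
  have hHX2 : HX * HX = Na • HX := by
    rw [hHX, hmul, el_smul]
    apply eleq
    · rw [hNa]; ring
    · rw [hNa]; ring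
    · rw [hNa]; linear_combination g * hgN
  have hHaX : Ha * HX = 0 := by
    rw [hHa, hHX, hmul, ← el_zero A Z]
    apply eleq
    · rw [hNa]; ring
    · rw [hNa]; ring
    · rw [hNa]; linear_combination -g * hgN
  have hHXb : HX * Hb = Na • Hb := by
    rw [hHb, hHX, hmul, el_smul]
    apply eleq
    · rw [hNa]; ring
    · rw [hNa]; ring
    · rw [hNa]; linear_combination -g * hgN
  have hAHb : A * Hb = b • Hb := by
    have h1 : A * Hb = el A Z 0 1 0 * el A Z ((c - b) * a) (-(c - b)) g := by rw [hHb, el_A]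
    rw [h1, hmul, hHb, el_smul]
    apply eleq <;> ring
  -- the three lattices
  obtain ⟨ra, Ba, Ca, hBCa, hCBa⟩ := lattice Ha Na hHa2
  obtain ⟨rb, Bb, Cb, hBCb, hCBb⟩ := lattice Hb Nb hHb2
  obtain ⟨rX, BX, CX, hBCX, hCBX⟩ := lattice HX Na hHX2
  have hHaBa : Ha * Ba = Na • Ba := by
    rw [← hBCa, Matrix.mul_assoc, hCBa, Matrix.mul_smul, Matrix.mul_one]
  have hHbBb : Hb * Bb = Nb • Bb := by
    rw [← hBCb, Matrix.mul_assoc, hCBb, Matrix.mul_smul, Matrix.mul_one]
  have hHXBX : HX * BX = Na • BX := by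
    rw [← hBCX, Matrix.mul_assoc, hCBX, Matrix.mul_smul, Matrix.mul_one]
  -- traces
  have htrA : Matrix.trace A = 0 := by
    rw [Matrix.trace]
    exact Finset.sum_eq_zero (fun v _ => hdiag v)
  have htrZ : Matrix.trace Z = N := by rw [hZ, Matrix.trace_vecMulVec, hN]
  have htr : ∀ p q r, Matrix.trace (el A Z p q r) = p * Fintype.card V + r * N := by
    intro p q r
    simp only [el, Matrix.trace_add, Matrix.trace_smul, Matrix.trace_one, htrA, htrZ, smul_eq_mul]
    ring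
  have htra : (c - a) * b * Fintype.card V + g * N = Na * ra := by
    rw [← htr _ (-(c - a)) _, ← hHa, ← hBCa, Matrix.trace_mul_comm, hCBa, Matrix.trace_smul,
      Matrix.trace_one, Fintype.card_fin, smul_eq_mul]
  have htrb : (c - b) * a * Fintype.card V + g * N = Nb * rb := by
    rw [← htr _ (-(c - b)) _, ← hHb, ← hBCb, Matrix.trace_mul_comm, hCBb, Matrix.trace_smul,
      Matrix.trace_one, Fintype.card_fin, smul_eq_mul]
  have htrX : (Na - (c - a) * b) * Fintype.card V + (-g) * N = Na * rX := by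
    rw [← htr _ (c - a) _, ← hHX, ← hBCX, Matrix.trace_mul_comm, hCBX, Matrix.trace_smul,
      Matrix.trace_one, Fintype.card_fin, smul_eq_mul]
  have e1 : b * Fintype.card V + c - b = -(ra * (a - b)) := by
    apply mul_left_cancel₀ (sub_ne_zero.mpr hca)
    rw [hNa] at htra
    linear_combination htra - hgN
  have e2 : a * Fintype.card V + c - a = -(rb * (b - a)) := by
    apply mul_left_cancel₀ (sub_ne_zero.mpr hcb)
    rw [hNb] at htrb
    linear_combination htrb - hgN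
  have e3 : (ra : ℤ) + rb + 1 = Fintype.card V := by
    apply mul_left_cancel₀ (sub_ne_zero.mpr hab.symm)
    linear_combination e2 - e1
  have hcard : ra + rb + 1 = Fintype.card V := by exact_mod_cast e3
  have e4 : a * ra + b * rb + c = 0 := by
    rw [← e3] at e1
    linear_combination e1
  have e5 : (ra : ℤ) + rX = Fintype.card V := by
    apply mul_left_cancel₀ hNa0
    linear_combination -htra - htrX
  have hcardX : ra + rX = Fintype.card V := by exact_mod_cast e5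
  have hrX : rX = rb + 1 := by omega
  -- positivity
  obtain ⟨Ea, hEa⟩ := gram_dvd Ha (by rw [hHa]; exact hels _ _ _) Na ra Ba Ca hBCa hCBa
  obtain ⟨Eb, hEb⟩ := gram_dvd Hb (by rw [hHb]; exact hels _ _ _) Nb rb Bb Cb hBCb hCBb
  obtain ⟨EX, hEX⟩ := gram_dvd HX (by rw [hHX]; exact hels _ _ _) Na rX BX CX hBCX hCBX
  have hDa0 : 0 < (Baᵀ * Ba).det := by
    refine lt_of_le_of_ne (gram_nonneg Ba) (fun h => ?_)
    rw [← h, zero_mul] at hEa
    exact pow_ne_zero _ (pow_ne_zero 2 hNa0) hEa.symm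
  have hDb0 : 0 < (Bbᵀ * Bb).det := by
    refine lt_of_le_of_ne (gram_nonneg Bb) (fun h => ?_)
    rw [← h, zero_mul] at hEb
    exact pow_ne_zero _ (pow_ne_zero 2 hNb0) hEb.symm
  -- `Da DX` is a square
  have hBaX : Baᵀ * BX = 0 := by
    have h1 : Ha * BX = 0 := by
      have h2 : Na • (Ha * BX) = Na • (0 : Matrix V (Fin rX) ℤ) := by
        rw [← Matrix.mul_smul, ← hHXBX, ← Matrix.mul_assoc, hHaX, Matrix.zero_mul, smul_zero]
      exact smul_cancel Na hNa0 _ _ h2
    have h3 : Na • (Baᵀ * BX) = Na • (0 : Matrix (Fin ra) (Fin rX) ℤ) := by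
      have h4 : (Ha * Ba)ᵀ * BX = Na • (Baᵀ * BX) := by
        rw [hHaBa, Matrix.transpose_smul, Matrix.smul_mul]
      rw [← h4, Matrix.transpose_mul, hHa, hels, ← hHa, Matrix.mul_assoc, h1, Matrix.mul_zero,
        smul_zero]
    exact smul_cancel Na hNa0 _ _ h3
  have hBXa : BXᵀ * Ba = 0 := by
    have h1 := congrArg Matrix.transpose hBaX
    rwa [Matrix.transpose_mul, Matrix.transpose_transpose, Matrix.transpose_zero] at h1
  obtain ⟨R, hR⟩ : ∃ R : ℤ, (Baᵀ * Ba).det * (BXᵀ * BX).det = R ^ 2 := by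
    obtain ⟨R, hR⟩ := gram_change (α := V) (β := Fin ra ⊕ Fin rX)
      (by rw [Fintype.card_sum, Fintype.card_fin, Fintype.card_fin, hcardX]) (fromCols Ba BX)
    refine ⟨R, ?_⟩
    have h1 := hR 1
    rw [Matrix.mul_one, Matrix.det_one, mul_one, Matrix.transpose_fromCols,
      Matrix.fromRows_mul_fromCols, hBaX, hBXa, Matrix.det_fromBlocks_zero₂₁] at h1
    exact h1
  -- the comparison of `X` with `L_b` and `z`
  obtain ⟨zc, hzc⟩ : ∃ zc : Matrix V Unit ℤ, zc = replicateCol Unit z := ⟨_, rfl⟩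
  have hAzc : A * zc = c • zc := by
    ext v j
    have h1 := congrFun hz v
    rw [hzc, Matrix.smul_apply]
    exact h1
  have hzz : zcᵀ * zc = N • 1 := by
    ext i j
    rw [hzc, Matrix.smul_apply, ← hN]
    simp [Matrix.mul_apply, dotProduct]
  have hZzc : Z * zc = N • zc := by
    have h1 : Z = zc * zcᵀ := by
      ext i j
      rw [hZ, hzc, Matrix.vecMulVec_apply]
      simp [Matrix.mul_apply]
    rw [h1, Matrix.mul_assoc, hzz, Matrix.mul_smul, Matrix.mul_one]
  have hHXz : HX * zc = Na • zc := by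
    rw [hHX]
    simp only [el, Matrix.add_mul, Matrix.smul_mul, Matrix.one_mul, hAzc, hZzc, smul_smul,
      ← add_smul]
    congr 1
    rw [hNa]
    linear_combination -hgN
  have hHXBb : HX * Bb = Na • Bb := by
    have h2 : Nb • (HX * Bb) = Nb • (Na • Bb) := by
      rw [← Matrix.mul_smul, ← hHbBb, ← Matrix.mul_assoc, hHXb, Matrix.smul_mul, hHbBb,
        smul_comm]
    exact smul_cancel Nb hNb0 _ _ h2
  have hABb : A * Bb = b • Bb := by
    have h2 : Nb • (A * Bb) = Nb • (b • Bb) := by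
      rw [← Matrix.mul_smul, ← hHbBb, ← Matrix.mul_assoc, hAHb, Matrix.smul_mul, hHbBb,
        smul_comm]
    exact smul_cancel Nb hNb0 _ _ h2
  have hBbz : Bbᵀ * zc = 0 := by
    have h1 : (A * Bb)ᵀ * zc = b • (Bbᵀ * zc) := by
      rw [hABb, Matrix.transpose_smul, Matrix.smul_mul]
    have h2 : (A * Bb)ᵀ * zc = c • (Bbᵀ * zc) := by
      rw [Matrix.transpose_mul, hA, Matrix.mul_assoc, hAzc, Matrix.mul_smul]
    have h3 : (c - b) • (Bbᵀ * zc) = (c - b) • (0 : Matrix (Fin rb) Unit ℤ) := by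
      rw [sub_smul, ← h1, ← h2, sub_self, smul_zero]
    exact smul_cancel (c - b) (sub_ne_zero.mpr hcb) _ _ h3
  have hzBb : zcᵀ * Bb = 0 := by
    have h1 := congrArg Matrix.transpose hBbz
    rwa [Matrix.transpose_mul, Matrix.transpose_transpose, Matrix.transpose_zero] at h1
  obtain ⟨FY, hFY⟩ : ∃ F, F = fromCols Bb zc := ⟨_, rfl⟩
  have hHXF : HX * FY = Na • FY := by
    rw [hFY, Matrix.mul_fromCols, hHXBb, hHXz]
    ext v j
    rcases j with j | j <;> rfl
  have hGF : FYᵀ * FY = fromBlocks (Bbᵀ * Bb) 0 0 (N • 1) := by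
    rw [hFY, Matrix.transpose_fromCols, Matrix.fromRows_mul_fromCols, hBbz, hzBb, hzz]
  have hAF : FYᵀ * A * FY = fromBlocks (b • (Bbᵀ * Bb)) 0 0 ((c * N) • 1) := by
    rw [Matrix.mul_assoc, hFY, Matrix.mul_fromCols, hABb, hAzc, Matrix.transpose_fromCols,
      Matrix.fromRows_mul_fromCols, Matrix.mul_smul, Matrix.mul_smul, Matrix.mul_smul,
      Matrix.mul_smul, hBbz, hzBb, hzz, smul_zero, smul_zero, smul_smul]
  obtain ⟨Q, hQ⟩ : ∃ Q, Q = BXᵀ * A * BX := ⟨_, rfl⟩
  obtain ⟨S, hS⟩ := gram_change (α := Fin rX) (β := Fin rb ⊕ Unit)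
    (by rw [Fintype.card_sum, Fintype.card_fin, Fintype.card_fin, hrX]; rfl) (CX * FY)
  have hBXU : BX * (CX * FY) = Na • FY := by rw [← Matrix.mul_assoc, hBCX, hHXF]
  have hcardF : Fintype.card (Fin rb ⊕ Unit) = rb + 1 := by
    rw [Fintype.card_sum, Fintype.card_fin]; rfl
  have s1 : (Na ^ 2) ^ (rb + 1) * ((Bbᵀ * Bb).det * N) = S ^ 2 * (BXᵀ * BX).det := by
    rw [← hS]
    have h1 : (CX * FY)ᵀ * (BXᵀ * BX) * (CX * FY) = (Na ^ 2) • (FYᵀ * FY) := by
      calc (CX * FY)ᵀ * (BXᵀ * BX) * (CX * FY) = (BX * (CX * FY))ᵀ * (BX * (CX * FY)) := by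
            rw [Matrix.transpose_mul BX (CX * FY)]
            simp only [Matrix.mul_assoc]
        _ = (Na ^ 2) • (FYᵀ * FY) := by
            rw [hBXU, Matrix.transpose_smul, Matrix.smul_mul, Matrix.mul_smul, smul_smul, sq]
    rw [h1, Matrix.det_smul, hcardF, hGF, Matrix.det_fromBlocks_zero₂₁, Matrix.det_smul,
      Matrix.det_one]
    simp
  have s2 : (Na ^ 2) ^ (rb + 1) * (b ^ rb * (Bbᵀ * Bb).det * (c * N)) = S ^ 2 * Q.det := by
    rw [← hS]
    have h1 : (CX * FY)ᵀ * Q * (CX * FY) = (Na ^ 2) • (FYᵀ * A * FY) := by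
      calc (CX * FY)ᵀ * Q * (CX * FY) = (BX * (CX * FY))ᵀ * A * (BX * (CX * FY)) := by
            rw [hQ, Matrix.transpose_mul BX (CX * FY)]
            simp only [Matrix.mul_assoc]
        _ = (Na ^ 2) • (FYᵀ * A * FY) := by
            rw [hBXU, Matrix.transpose_smul, Matrix.smul_mul, Matrix.smul_mul, Matrix.mul_smul,
              smul_smul, sq]
    rw [h1, Matrix.det_smul, hcardF, hAF, Matrix.det_fromBlocks_zero₂₁, Matrix.det_smul,
      Matrix.det_smul, Matrix.det_one, Fintype.card_fin]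
    simp
  have hS0 : S ≠ 0 := by
    rintro rfl
    have h1 : (Na ^ 2) ^ (rb + 1) * ((Bbᵀ * Bb).det * N) ≠ 0 :=
      mul_ne_zero (pow_ne_zero _ (pow_ne_zero 2 hNa0)) (mul_pos hDb0 hN0).ne'
    apply h1
    rw [s1]; ring
  have hQdet : Q.det = b ^ rb * c * (BXᵀ * BX).det := by
    apply mul_left_cancel₀ (pow_ne_zero 2 hS0)
    rw [← s2]
    linear_combination (b ^ rb * c) * s1
  refine ⟨ra, rb, (Baᵀ * Ba).det, (Bbᵀ * Bb).det, Ea, Eb, S * R, Na ^ (rb + 1), hcard, e4, hDa0, hDb0,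
    by rw [← hNa]; exact hEa, by rw [← hNb]; exact hEb, pow_ne_zero _ hNa0, ?_, ?_, ?_⟩
  · have h1 : (Na ^ (rb + 1)) ^ 2 = (Na ^ 2) ^ (rb + 1) := by rw [← pow_mul, ← pow_mul, mul_comm]
    rw [h1]
    linear_combination (Baᵀ * Ba).det * s1 + S ^ 2 * hR
  · intro ho1 ho2 hce
    have hNaodd : Odd Na := by
      rw [hNa]
      exact (by rw [← neg_sub]; exact ho1.neg : Odd (a - c)).mul ho2
    have hDodd : Odd (Baᵀ * Ba).det := by
      have h1 : Odd ((Baᵀ * Ba).det * Ea) := by rw [hEa]; exact (hNaodd.pow).pow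
      exact (Int.odd_mul.mp h1).1
    have haodd : Odd a := by
      have : a = c - (c - a) := by ring
      rw [this]; exact hce.sub_odd ho1
    have hABa : A * Ba = a • Ba := by
      have h1 : A * Ha = a • Ha := by
        have h2 : A * Ha = el A Z 0 1 0 * el A Z ((c - a) * b) (-(c - a)) g := by rw [hHa, el_A]
        rw [h2, hmul, hHa, el_smul]
        apply eleq <;> ring
      have h2 : Na • (A * Ba) = Na • (a • Ba) := by
        rw [← Matrix.mul_smul, ← hHaBa, ← Matrix.mul_assoc, h1, Matrix.smul_mul, hHaBa, smul_comm]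
      exact smul_cancel Na hNa0 _ _ h2
    have hev := ev4 ra (Fintype.card_fin ra) (Baᵀ * Ba)
      (by rw [Matrix.IsSymm, Matrix.transpose_mul, Matrix.transpose_transpose])
      (by
        intro i
        have h1 := even_quad A hA hdiag Ba i
        rw [Matrix.mul_assoc, hABa, Matrix.mul_smul, Matrix.smul_apply, smul_eq_mul] at h1
        rcases Int.even_mul.mp h1 with h2 | h2
        · exact absurd h2 (Int.not_even_iff_odd.mpr haodd)
        · exact h2) hDodd
    exact hev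
  · intro ho1 ho2 hco
    have hNaodd : Odd Na := by
      rw [hNa]
      exact (by rw [← neg_sub]; exact ho1.neg : Odd (a - c)).mul ho2
    have hDodd : Odd (BXᵀ * BX).det := by
      have h1 : Odd ((BXᵀ * BX).det * EX) := by rw [hEX]; exact (hNaodd.pow).pow
      exact (Int.odd_mul.mp h1).1
    have hDaodd : Odd (Baᵀ * Ba).det := by
      have h1 : Odd ((Baᵀ * Ba).det * Ea) := by rw [hEa]; exact (hNaodd.pow).pow
      exact (Int.odd_mul.mp h1).1
    have haeven : Even a := by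
      have : a = c - (c - a) := by ring
      rw [this]; exact hco.sub_odd ho1
    have hbodd : Odd b := by
      have : b = a - (a - b) := by ring
      rw [this]; exact haeven.sub_odd ho2
    have hQodd : Odd Q.det := by
      rw [hQdet]
      exact ((hbodd.pow).mul hco).mul hDodd
    have hev := ev4 rX (Fintype.card_fin rX) Q
      (by rw [Matrix.IsSymm, hQ, Matrix.transpose_mul, Matrix.transpose_mul,
        Matrix.transpose_transpose, hA, Matrix.mul_assoc])
      (by rw [hQ]; exact even_quad A hA hdiag BX) hQodd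
    have hexp : ((-1 : ℤ)) ^ ((rb + 1) / 2) = (-1) ^ (rX / 2) := by rw [hrX]
    refine ⟨by rw [← hrX]; exact hev.1, ?_⟩
    rw [hexp]
    -- `Da` and `DX` agree modulo `4`
    have hDD : (4 : ℤ) ∣ (BXᵀ * BX).det - (Baᵀ * Ba).det := by
      obtain ⟨k, hk⟩ := hDodd
      obtain ⟨l, hl⟩ := hDaodd
      have hRodd : Odd R := by
        have h1 : Odd (R ^ 2) := by rw [← hR, hk, hl]; exact ⟨2 * k * l + k + l, by ring⟩
        exact Int.odd_pow.mp h1 |>.resolve_right (by norm_num)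
      obtain ⟨r, hr⟩ := hRodd
      rw [hk, hl, hr] at hR
      rw [hk, hl]
      have h2 : Even (k + l) := by
        rw [← Int.not_odd_iff_even]
        rintro ⟨j, hj⟩
        have h3 : 4 * (l * k) + 2 * (k + l) = 4 * (r ^ 2 + r) := by linear_combination hR
        rw [hj] at h3
        omega
      obtain ⟨j, hj⟩ := h2
      exact ⟨j - l, by linear_combination 2 * hj⟩
    have h5 : b ^ rb * c * (Baᵀ * Ba).det - (-1) ^ (rX / 2) =
        (Q.det - (-1) ^ (rX / 2)) - b ^ rb * c * ((BXᵀ * BX).det - (Baᵀ * Ba).det) := by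
      rw [hQdet]; ring
    rw [h5]
    exact dvd_sub hev.2 (Dvd.dvd.mul_left hDD _)

end Pool.Agent.TEV
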