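import Mathlib

/-!
# The arithmetic of the determinants
-/

set_option autoImplicit false

namespace Pool.Agent.TEV

theorem nt_mod (da db n0 k s ca cb g u w : ℕ) (h1 : da * db * n0 * k ^ 2 = s ^ 2)
    (h2 : g * n0 = ca * cb) (h3 : g = u * w) (hda : da ≠ 0) (hdb : db ≠ 0) (hn0 : n0 ≠ 0)
    (hk : k ≠ 0) (hca : ca ≠ 0) (hcb : cb ≠ 0) (hodd : Odd (da * ca * u))
    (hp : ∀ p : ℕ, p.Prime → p % 4 = 3 → p ∣ da * ca * u → ¬ p ∣ db ∧ ¬ p ∣ cb ∧ ¬ p ∣ w) :
    (da * ca * u) % 4 = 1 := by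
  have hg : g ≠ 0 := by
    rintro rfl
    rw [zero_mul] at h2
    exact mul_ne_zero hca hcb h2.symm
  have hu : u ≠ 0 := by
    rintro rfl
    rw [zero_mul] at h3
    exact hg h3
  have hw : w ≠ 0 := by
    rintro rfl
    rw [mul_zero] at h3
    exact hg h3
  have hs : s ≠ 0 := by
    rintro rfl
    have : da * db * n0 * k ^ 2 ≠ 0 :=
      mul_ne_zero (mul_ne_zero (mul_ne_zero hda hdb) hn0) (pow_ne_zero 2 hk)
    apply this
    rw [h1]; norm_num
  have key : ∀ q ∈ (da * ca * u).primeFactors, q % 4 = 3 →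
      Even (padicValNat q (da * ca * u)) := by
    intro q hq hq4
    have hqp : q.Prime := Nat.prime_of_mem_primeFactors hq
    have hqd : q ∣ da * ca * u := Nat.dvd_of_mem_primeFactors hq
    have := Fact.mk hqp
    obtain ⟨p1, p2, p3⟩ := hp q hqp hq4 hqd
    have v1 : padicValNat q da + padicValNat q db + padicValNat q n0 + 2 * padicValNat q k =
        2 * padicValNat q s := by
      have h4 := congrArg (padicValNat q) h1
      rw [padicValNat.mul (mul_ne_zero (mul_ne_zero hda hdb) hn0) (pow_ne_zero 2 hk),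
        padicValNat.mul (mul_ne_zero hda hdb) hn0, padicValNat.mul hda hdb, padicValNat.pow,
        padicValNat.pow] at h4
      exact h4
    have v2 : padicValNat q g + padicValNat q n0 = padicValNat q ca + padicValNat q cb := by
      have h4 := congrArg (padicValNat q) h2
      rwa [padicValNat.mul hg hn0, padicValNat.mul hca hcb] at h4
    have v3 : padicValNat q g = padicValNat q u + padicValNat q w := by
      have h4 := congrArg (padicValNat q) h3
      rwa [padicValNat.mul hu hw] at h4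
    have z1 : padicValNat q db = 0 := padicValNat.eq_zero_of_not_dvd p1
    have z2 : padicValNat q cb = 0 := padicValNat.eq_zero_of_not_dvd p2
    have z3 : padicValNat q w = 0 := padicValNat.eq_zero_of_not_dvd p3
    rw [padicValNat.mul (mul_ne_zero hda hca) hu, padicValNat.mul hda hca, Nat.even_iff]
    omega
  obtain ⟨x, y, hxy⟩ := Nat.eq_sq_add_sq_iff.mpr key
  rw [hxy] at hodd ⊢
  have hx : x ^ 2 % 4 = 0 ∨ x ^ 2 % 4 = 1 := by
    rcases Nat.even_or_odd x with ⟨r, hr⟩ | ⟨r, hr⟩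
    · left; rw [hr]; ring_nf; omega
    · right; rw [hr]; ring_nf; omega
  have hy : y ^ 2 % 4 = 0 ∨ y ^ 2 % 4 = 1 := by
    rcases Nat.even_or_odd y with ⟨r, hr⟩ | ⟨r, hr⟩
    · left; rw [hr]; ring_nf; omega
    · right; rw [hr]; ring_nf; omega
  obtain ⟨r, hr⟩ := hodd
  omega

/-- Two odd integers with product `1` modulo `4` agree modulo `4`. -/
theorem congr_of_mul (D E : ℤ) (hD : Odd D) (hE : Odd E) (h : (4 : ℤ) ∣ D * E - 1) :
    (4 : ℤ) ∣ D - E := by
  obtain ⟨k, hk⟩ := hD
  obtain ⟨l, hl⟩ := hE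
  obtain ⟨m, hm⟩ := h
  rw [hk, hl] at hm
  rw [hk, hl]
  have h2 : Even (k + l) := by
    rw [← Int.not_odd_iff_even]
    rintro ⟨j, hj⟩
    have h3 : 4 * (l * k) + 2 * (k + l) = 4 * m := by linear_combination hm
    rw [hj] at h3
    omega
  obtain ⟨j, hj⟩ := h2
  exact ⟨j - l, by linear_combination 2 * hj⟩

end Pool.Agent.TEV
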