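import Mathlib
import Pool.Agent.TEV.Bi
import Pool.Agent.TEV.Mod
import Pool.Agent.TEV.NTm

/-!
# The integral matrix identities of a biregular graph with three eigenvalues
-/

set_option autoImplicit false

namespace Pool.Agent.TEV

open Matrix Finset

variable {V : Type*} [Fintype V] [DecidableEq V]

omit [DecidableEq V] in
theorem adj_cast_sq (G : SimpleGraph V) [DecidableRel G.Adj] (u v : V) :
    (((G.adjMatrix ℤ * G.adjMatrix ℤ) u v : ℤ) : ℝ) = (G.adjMatrix ℝ * G.adjMatrix ℝ) u v := by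
  rw [SimpleGraph.adjMatrix_mul_apply, SimpleGraph.adjMatrix_mul_apply, Int.cast_sum]
  refine Finset.sum_congr rfl (fun w _ => ?_)
  rw [SimpleGraph.adjMatrix_apply, SimpleGraph.adjMatrix_apply]
  split_ifs <;> simp

/-- The integral form of the identities. -/
theorem mat_of_graph (G : SimpleGraph V) [DecidableRel G.Adj] (θ₀ θ₁ θ₂ : ℝ) (k₁ k₂ : ℕ)
    (B : BiThree G θ₀ θ₁ θ₂ k₁ k₂) (hsum : θ₁ + θ₂ = -1) :
    ∃ (τ g x y c : ℤ) (z : V → ℤ), ((τ : ℝ) = θ₁ ∨ (τ : ℝ) = θ₂) ∧ (c : ℝ) = θ₀ ∧ 1 ≤ g ∧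
      IsCoprime x y ∧ (k₁ : ℤ) = g * x ^ 2 + (τ ^ 2 + τ) ∧ (k₂ : ℤ) = g * y ^ 2 + (τ ^ 2 + τ) ∧
      (∀ v, z v ≠ 0) ∧ G.adjMatrix ℤ *ᵥ z = c • z ∧
      G.adjMatrix ℤ * G.adjMatrix ℤ =
        el (G.adjMatrix ℤ) (vecMulVec z z) (τ ^ 2 + τ) (-1) g := by
  obtain ⟨τ, g, x, y, f, h, W, hPar, hτ, hk1, hk2, ht, -, -, -, -, -⟩ :=
    par_of_graph G θ₀ θ₁ θ₂ k₁ k₂ B hsum
  obtain ⟨u₁, hu₁⟩ := B.ex1
  obtain ⟨u₂, hu₂⟩ := B.ex2
  have hk := B.hk
  have hne : u₁ ≠ u₂ := by
    rintro rfl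
    omega
  have : Nontrivial V := ⟨⟨u₁, u₂, hne⟩⟩
  have hnt : ∀ v, ∃ w, G.Adj v w := fun v => B.conn.preconnected.exists_adj_of_nontrivial v
  obtain ⟨M, hM, hpos, hsym, hAM, hrank, hm⟩ := spec_facts G B.conn hnt θ₀ θ₁ θ₂ B.h01 B.h12 B.spec hsum
  obtain ⟨m, hm'⟩ := hm τ hτ
  obtain ⟨c, hc⟩ : ∃ c : ℤ, (c : ℝ) = θ₀ := by
    refine ⟨((Fintype.card V : ℤ) - 1) * (τ + 1) - (2 * τ + 1) * m, ?_⟩
    push_cast
    linarith
  obtain ⟨z, hz⟩ : ∃ z : V → ℤ, ∀ v, z v = if G.degree v = k₁ then x else y := ⟨_, fun _ => rfl⟩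
  have hg : 1 ≤ g := hPar.hg
  have hx : 2 ≤ x := hPar.hx
  have hy : 1 ≤ y := hPar.hy
  have hzpos : ∀ v, 0 < z v := by
    intro v
    rw [hz]
    split_ifs <;> omega
  have hgR : (0 : ℝ) < g := by exact_mod_cast (by omega : 0 < g)
  have hzR : ∀ v, (0 : ℝ) < z v := fun v => by exact_mod_cast hzpos v
  have hMd : ∀ u, M u u = g * (z u : ℝ) ^ 2 := by
    intro u
    rw [hM, entry_eq, ht]
    rcases B.deg u with hu | hu
    · rw [hz u, if_pos hu, hu]
      have : ((k₁ : ℤ) : ℝ) = g * x ^ 2 + (τ ^ 2 + τ) := by exact_mod_cast hk1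
      push_cast at this
      linarith
    · rw [hz u, if_neg (by rw [hu]; omega), hu]
      have : ((k₂ : ℤ) : ℝ) = g * y ^ 2 + (τ ^ 2 + τ) := by exact_mod_cast hk2
      push_cast at this
      linarith
  have hMuv : ∀ u v, M u v = g * z u * z v := by
    intro u v
    have h1 : M u v ^ 2 = (g * z u * z v) ^ 2 := by
      have h2 := hrank u v u v
      have h3 : M u v ^ 2 = M u u * M v v := by rw [h2, hsym v u]; ring
      rw [h3, hMd, hMd]; ring
    exact (pow_left_inj₀ (hpos u v).le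
      (mul_nonneg (mul_nonneg hgR.le (hzR u).le) (hzR v).le) (by norm_num)).mp h1
  refine ⟨τ, g, x, y, c, z, hτ, hc, hg, hPar.hcop, hk1, hk2, fun v => (hzpos v).ne', ?_, ?_⟩
  · ext u
    have h1 := congrFun (congrFun hAM u) u
    rw [SimpleGraph.adjMatrix_mul_apply] at h1
    simp only [hMuv, Matrix.smul_apply, smul_eq_mul] at h1
    rw [SimpleGraph.adjMatrix_mulVec_apply]
    show ∑ w ∈ G.neighborFinset u, z w = c * z u
    have h2 : (g * z u : ℝ) * (∑ w ∈ G.neighborFinset u, (z w : ℝ) - c * z u) = 0 := by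
      rw [mul_sub, Finset.mul_sum, hc]
      have h3 : ∑ w ∈ G.neighborFinset u, (g * z u : ℝ) * z w =
          ∑ w ∈ G.neighborFinset u, (g : ℝ) * z w * z u :=
        Finset.sum_congr rfl (fun w _ => by ring)
      rw [h3, h1]; ring
    rcases mul_eq_zero.mp h2 with h | h
    · exact absurd h (mul_pos hgR (hzR u)).ne'
    · have h4 : (((∑ w ∈ G.neighborFinset u, z w : ℤ)) : ℝ) = ((c * z u : ℤ) : ℝ) := by
        push_cast
        linarith
      exact_mod_cast h4
  · ext u v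
    have h1 := hMuv u v
    rw [hM, Matrix.add_apply, Matrix.add_apply, ← adj_cast_sq, Matrix.smul_apply, ht] at h1
    have h2 : (((G.adjMatrix ℤ * G.adjMatrix ℤ) u v : ℤ) : ℝ) =
        (((el (G.adjMatrix ℤ) (vecMulVec z z) (τ ^ 2 + τ) (-1) g) u v : ℤ) : ℝ) := by
      simp only [el, Matrix.add_apply, Matrix.smul_apply, Matrix.vecMulVec_apply, smul_eq_mul]
      rw [smul_eq_mul] at h1
      by_cases huv : u = v
      · subst huv
        rw [Matrix.one_apply_eq] at h1 ⊢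
        rw [SimpleGraph.adjMatrix_apply, if_neg (G.loopless.irrefl u)] at h1 ⊢
        push_cast
        linarith
      · rw [Matrix.one_apply_ne huv] at h1 ⊢
        rw [SimpleGraph.adjMatrix_apply] at h1 ⊢
        split_ifs at h1 ⊢ <;> push_cast <;> linarith
    exact_mod_cast h2

/-- The congruence modulo `4`. -/
theorem mod4_core (A : Matrix V V ℤ) (hA : Aᵀ = A) (hdiag : ∀ v, A v v = 0) [Nonempty V]
    (z : V → ℤ) (hz0 : ∀ v, z v ≠ 0) (a b c g : ℤ) (hab : a + b = -1) (hca : a < c) (hcb : b < c)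
    (hg : 1 ≤ g) (hz : A *ᵥ z = c • z) (hAA : A * A = el A (vecMulVec z z) (-(a * b)) (-1) g)
    (hodd : Odd (c - a)) :
    ∃ m m' : ℕ, m + m' + 1 = Fintype.card V ∧ a * m + b * m' + c = 0 ∧ (Even c → Even m) ∧
      (Odd c → Odd m') ∧ ((∀ p : ℕ, p.Prime → p % 4 = 3 → ¬ (p : ℤ) ∣ a - b) →
        ∀ u w : ℕ, g = u * w → (∀ p : ℕ, p.Prime → p ∣ u → (p : ℤ) ∣ c - a) →
          (∀ p : ℕ, p.Prime → p ∣ w → ¬ (p : ℤ) ∣ c - a) →
          (Even c → (c - a) * u ≡ (-1) ^ (m / 2) [ZMOD 4]) ∧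
          (Odd c → b * c * (c - a) * u ≡ (-1) ^ ((m' + 1) / 2) [ZMOD 4])) := by
  obtain ⟨N, hN⟩ : ∃ N, N = z ⬝ᵥ z := ⟨_, rfl⟩
  have hN0 : 0 < N := by
    rw [hN, dotProduct]
    apply Finset.sum_pos
    · intro v _
      exact mul_self_pos.mpr (hz0 v)
    · exact Finset.univ_nonempty
  have hgN : g * N = (c - a) * (c - b) := by
    obtain ⟨v⟩ := ‹Nonempty V›
    have h1 : (A * A) *ᵥ z = (c * c) • z := by
      rw [← Matrix.mulVec_mulVec, hz, Matrix.mulVec_smul, hz, smul_smul]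
    have h2 : (vecMulVec z z) *ᵥ z = N • z := by
      rw [Matrix.vecMulVec_mulVec, ← hN]
      ext v
      simp [mul_comm]
    rw [hAA] at h1
    simp only [el, Matrix.add_mulVec, Matrix.smul_mulVec, Matrix.one_mulVec, hz, h2] at h1
    have h3 := congrFun h1 v
    simp only [Pi.add_apply, Pi.smul_apply, smul_eq_mul] at h3
    apply mul_left_cancel₀ (hz0 v)
    linear_combination h3 + c * z v * hab
  have hne : a ≠ b := by
    intro h
    omega
  obtain ⟨ra, rb, Da, Db, Ea, Eb, S, K, h1, h2, h3, h4, h5, h6, h7, h8, h9, h10⟩ :=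
    dets A hA hdiag z a b c g N (by rw [hab]; exact hAA) hz hN.symm hgN hca.ne' hcb.ne' hne hN0
  have hodd2 : Odd (a - b) := ⟨-b - 1, by omega⟩
  refine ⟨ra, rb, h1, h2, fun h => (h9 hodd hodd2 h).1, fun h => ?_, ?_⟩
  · have h11 := (h10 hodd hodd2 h).1
    rcases Nat.even_or_odd rb with h12 | h12
    · exact absurd h11 (Nat.not_even_iff_odd.mpr h12.add_one)
    · exact h12
  intro hq u w hguw hu hw
  have hua : ∀ p : ℕ, p.Prime → p % 4 = 3 → (p : ℤ) ∣ Da * (c - a) * u → (p : ℤ) ∣ c - a := by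
    intro p hp hp4 hd
    have hpp : Prime (p : ℤ) := Nat.prime_iff_prime_int.mp hp
    rcases hpp.dvd_or_dvd hd with h | h
    · rcases hpp.dvd_or_dvd h with h | h
      · have h11 : (p : ℤ) ∣ (((a - c) * (a - b)) ^ 2) ^ ra := by
          rw [← h5]; exact Dvd.dvd.mul_right h _
        rcases hpp.dvd_or_dvd (hpp.dvd_of_dvd_pow (hpp.dvd_of_dvd_pow h11)) with h | h
        · rw [← neg_sub]; exact (dvd_neg).mpr h
        · exact absurd h (hq p hp hp4)
      · exact h
    · exact hu p hp (by exact_mod_cast h)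
  have hu0 : 0 < (u : ℤ) := by
    rcases Nat.eq_zero_or_pos u with h | h
    · rw [h, Nat.cast_zero, zero_mul] at hguw; omega
    · exact_mod_cast h
  have hw0 : 0 < (w : ℤ) := by
    rcases Nat.eq_zero_or_pos w with h | h
    · rw [h, Nat.cast_zero, mul_zero] at hguw; omega
    · exact_mod_cast h
  -- parity
  have hDaodd : Odd Da := by
    have h11 : Odd (Da * Ea) := by
      rw [h5]
      refine ((Odd.mul ?_ hodd2).pow).pow
      rw [← neg_sub]; exact hodd.neg
    exact (Int.odd_mul.mp h11).1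
  have huodd : Odd (u : ℤ) := by
    rw [← Int.not_even_iff_odd]
    intro h
    have h11 : 2 ∣ u := by
      have := h.two_dvd
      exact_mod_cast this
    have h12 := hu 2 Nat.prime_two h11
    exact (Int.not_even_iff_odd.mpr hodd) (even_iff_two_dvd.mpr (by exact_mod_cast h12))
  have hModd : Odd (Da * (c - a) * u) := (hDaodd.mul hodd).mul huodd
  -- the natural number argument
  have hM4 : (4 : ℤ) ∣ Da * ((c - a) * u) - 1 := by
    lift Da to ℕ using h3.le
    lift Db to ℕ using h4.le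
    lift N to ℕ using hN0.le
    lift g to ℕ using (by omega)
    obtain ⟨ca, hca'⟩ : ∃ x : ℕ, (x : ℤ) = c - a := ⟨(c - a).toNat, Int.toNat_of_nonneg (by omega)⟩
    obtain ⟨cb, hcb'⟩ : ∃ x : ℕ, (x : ℤ) = c - b := ⟨(c - b).toNat, Int.toNat_of_nonneg (by omega)⟩
    have key := nt_mod Da Db N K.natAbs S.natAbs ca cb g u w
      (by zify; rw [sq_abs, sq_abs]; exact h8)
      (by zify; rw [hca', hcb']; exact hgN) (by exact_mod_cast hguw) (by omega) (by omega) (by omega)
      (Int.natAbs_ne_zero.mpr h7) (by omega) (by omega)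
      (by rw [← hca'] at hModd; exact_mod_cast hModd)
      (by
        intro p hp hp4 hd
        have hpp : Prime (p : ℤ) := Nat.prime_iff_prime_int.mp hp
        have h11 : (p : ℤ) ∣ c - a := hua p hp hp4 (by rw [← hca']; exact_mod_cast hd)
        have h12 : ¬ (p : ℤ) ∣ c - b := by
          intro h
          apply hq p hp hp4
          have h13 : a - b = (c - b) - (c - a) := by ring
          rw [h13]; exact dvd_sub h h11
        refine ⟨?_, ?_, ?_⟩
        · intro h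
          have h13 : (p : ℤ) ∣ (((b - c) * (b - a)) ^ 2) ^ rb := by
            rw [← h6]; exact Dvd.dvd.mul_right (by exact_mod_cast h) _
          rcases hpp.dvd_or_dvd (hpp.dvd_of_dvd_pow (hpp.dvd_of_dvd_pow h13)) with h | h
          · apply h12; rw [← neg_sub]; exact (dvd_neg).mpr h
          · apply hq p hp hp4; rw [← neg_sub]; exact (dvd_neg).mpr h
        · intro h
          apply h12
          rw [← hcb']; exact_mod_cast h
        · intro h
          exact hw p hp h h11)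
    have h14 : ((Da * ca * u : ℕ) : ℤ) % 4 = 1 := by exact_mod_cast key
    push_cast at h14
    rw [hca'] at h14
    have h15 : (Da : ℤ) * ((c - a) * u) = Da * (c - a) * u := by ring
    rw [h15]
    omega
  have hcong := congr_of_mul Da ((c - a) * u) hDaodd (hodd.mul huodd) hM4
  constructor
  · intro hc
    have h11 := (h9 hodd hodd2 hc).2
    rw [Int.modEq_iff_dvd]
    have h12 : (-1) ^ (ra / 2) - (c - a) * u = (Da - (c - a) * u) - (Da - (-1) ^ (ra / 2)) := by ring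
    rw [h12]
    exact dvd_sub hcong h11
  · intro hc
    obtain ⟨h13, h11⟩ := h10 hodd hodd2 hc
    have hrb : Odd rb := by
      rcases Nat.even_or_odd rb with h12 | h12
      · exact absurd h13 (Nat.not_even_iff_odd.mpr h12.add_one)
      · exact h12
    obtain ⟨r, hr⟩ := hrb
    have hbodd : Odd b := by
      obtain ⟨j, hj⟩ := hc
      obtain ⟨k, hk⟩ := hodd
      exact ⟨-1 - j + k, by omega⟩
    -- `b ^ rb = b` modulo `4`
    have hbp : (4 : ℤ) ∣ b ^ rb - b := by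
      have h14 : b ^ rb - b = b * ((b ^ 2) ^ r - 1) := by
        rw [hr, pow_succ, pow_mul]; ring
      rw [h14]
      apply Dvd.dvd.mul_left
      obtain ⟨j, hj⟩ := hbodd
      have h15 : (4 : ℤ) ∣ b ^ 2 - 1 := ⟨j ^ 2 + j, by rw [hj]; ring⟩
      exact h15.trans (sub_one_dvd_pow_sub_one (b ^ 2) r)
    rw [Int.modEq_iff_dvd]
    have h12 : (-1) ^ ((rb + 1) / 2) - b * c * (c - a) * u =
        b * c * (Da - (c - a) * u) + (b ^ rb - b) * (c * Da)
          - (b ^ rb * c * Da - (-1) ^ ((rb + 1) / 2)) := by ring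
    rw [h12]
    exact dvd_sub (dvd_add (Dvd.dvd.mul_left hcong _) (Dvd.dvd.mul_right hbp _)) h11

end Pool.Agent.TEV
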