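import Pool.Agent.TEV.LF

/-!
# The case `T ^ 2 ∣ W`, `x ∣ m ^ 2`
-/

set_option autoImplicit false

namespace Pool.Agent.TEV

variable {τ g x y f h W T m : ℤ}

theorem Par.cop2 (P : Par τ g x y f h W) : IsCoprime (2 * τ + 1) (τ ^ 2) := P.cop.pow_right

theorem Par.x_dvd (P : Par τ g x y f h W) : x ∣ τ ^ 2 := ⟨g * y, by rw [← P.hP]; ring⟩

theorem Par.y_dvd (P : Par τ g x y f h W) : y ∣ τ ^ 2 := ⟨g * x, by rw [← P.hP]; ring⟩

theorem Par.copx (P : Par τ g x y f h W) : IsCoprime (2 * τ + 1) x :=
  IsCoprime.of_isCoprime_of_dvd_right P.cop2 P.x_dvd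

theorem Par.copy (P : Par τ g x y f h W) : IsCoprime (2 * τ + 1) y :=
  IsCoprime.of_isCoprime_of_dvd_right P.cop2 P.y_dvd

theorem Siz.m_dvd (S : Siz τ T m) : m ∣ τ := by
  rcases S.hτ with h | h
  · exact ⟨T, by rw [h]; ring⟩
  · exact ⟨-T, by rw [h]; ring⟩

theorem Siz.T_dvd (S : Siz τ T m) : T ∣ τ := by
  rcases S.hτ with h | h
  · exact ⟨m, by rw [h]⟩
  · exact ⟨-m, by rw [h]; ring⟩

theorem Par.copT (P : Par τ g x y f h W) (S : Siz τ T m) : IsCoprime (2 * τ + 1) T :=
  IsCoprime.of_isCoprime_of_dvd_right P.cop S.T_dvd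

theorem Par.copm (P : Par τ g x y f h W) (S : Siz τ T m) : IsCoprime (2 * τ + 1) m :=
  IsCoprime.of_isCoprime_of_dvd_right P.cop S.m_dvd

theorem Par.xq (P : Par τ g x y f h W) (hd : x ∣ 2 * τ + 1) : False := by
  have h1 : IsUnit x := P.copx.symm.isUnit_of_dvd hd
  have := P.hx
  rcases Int.isUnit_iff.mp h1 with h2 | h2 <;> omega

theorem Siz.q15 (S : Siz τ T m) : 15 ≤ |2 * τ + 1| := by
  have h1 := S.q_ge
  have h3 := S.Tm8
  omega

theorem Par.qN (P : Par τ g x y f h W) (S : Siz τ T m) {N : ℤ} (hd : (2 * τ + 1) ∣ N)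
    (hc : IsCoprime (2 * τ + 1) N) : False := by
  have h1 : IsUnit (2 * τ + 1) := hc.isUnit_of_dvd hd
  have h2 := S.q15
  rcases Int.isUnit_iff.mp h1 with h3 | h3 <;> rw [h3] at h2 <;> norm_num at h2

theorem Wa (P : Par τ g x y f h W) (S : Siz τ T m) (hd : T ^ 2 ∣ W) (hxm : x ∣ m ^ 2) :
    False := by
  obtain ⟨W', hW'⟩ := hd
  obtain ⟨μ, hμ⟩ := hxm
  have hT8 := S.hT8
  have hT : 1 ≤ T := by omega
  have hT2 : T ^ 2 ≠ 0 := pow_ne_zero 2 (by omega)
  have hm := S.hm
  have hx := P.hx
  have hy := P.hy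
  have hg := P.hg
  have hxy := P.hxy
  have hf2 := P.hf2
  obtain ⟨M, hM⟩ : ∃ M, M = m ^ 2 := ⟨_, rfl⟩
  have hM1 : 1 ≤ M := by rw [hM]; exact S.one 2
  rw [← hM] at hμ
  have hμ1 : 1 ≤ μ := by
    by_contra hc
    have : x * μ ≤ 0 := mul_nonpos_of_nonneg_of_nonpos (by omega) (by omega)
    omega
  have hxM : x ≤ M := by
    have : x * 1 ≤ x * μ := mul_le_mul_of_nonneg_left hμ1 (by omega)
    omega
  have hPS : g * x * y = T ^ 2 * M := by rw [P.hP, S.sq, hM]
  have hgy : g * y = T ^ 2 * μ := by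
    have : x * (g * y - T ^ 2 * μ) = 0 := by rw [hμ] at hPS; linear_combination hPS
    rcases mul_eq_zero.mp this with h2 | h2
    · omega
    · omega
  obtain ⟨Θ, hΘ⟩ : ∃ Θ, Θ = y * W' - M * x := ⟨_, rfl⟩
  have hZΘ : y * (W - g * x ^ 2) = T ^ 2 * Θ := by
    rw [hW', hΘ]; linear_combination (-x) * hPS
  have hyf : y * ((x - y) * f) = T ^ 2 * (μ * y ^ 2 - Θ) + (2 * τ + 1) * y := by
    have h1 := P.Z
    linear_combination y * h1 - hZΘ + y ^ 2 * hgy
  have hT3 : 3 * (m * M) ≤ T := by
    have := S.T3 3 (by norm_num)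
    have h2 : m * M = m ^ 3 := by rw [hM]; ring
    omega
  have hqy : (2 * (T * m) + 1) * y < T ^ 2 := by
    have h1 : (2 * (T * m) + 1) * y ≤ 3 * (T * m) * y :=
      mul_le_mul_of_nonneg_right (by have := S.Tm8; omega) (by omega)
    have h2 : 3 * (T * m) * y < 3 * (T * m) * M :=
      mul_lt_mul_of_pos_left (by omega) (by positivity)
    have h3 : T * (3 * (m * M)) ≤ T * T := mul_le_mul_of_nonneg_left hT3 (by omega)
    nlinarith
  have hτle : (2 * τ + 1) * y < T ^ 2 := by
    rcases S.hτ with ht | ht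
    · rw [ht]; exact hqy
    · have : 0 < T * m := by positivity
      have h2 : (2 * τ + 1) * y ≤ 0 := mul_nonpos_of_nonpos_of_nonneg (by omega) (by omega)
      have h3 : 0 < T ^ 2 := by positivity
      omega
  have hΘM : Θ ≤ M * y := by
    have h1 : y * (x - y) * (-(g * y)) < y * (x - y) * f :=
      mul_lt_mul_of_pos_left P.hf1 (mul_pos (by omega) (by omega))
    have h2 : T ^ 2 * (-1) < T ^ 2 * (M * y - Θ) := by
      have h3 : T ^ 2 * (M * y - Θ) = y * ((x - y) * f) - (2 * τ + 1) * y +
          y * (x - y) * (g * y) := by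
        rw [hyf, hgy, hμ]; ring
      rw [h3]
      nlinarith
    have h3 := cancel_lt hT h2
    omega
  have hWp : M * x + Θ = y * W' := by rw [hΘ]; ring
  have hN : (2 * τ + 1) ∣ (μ * y ^ 2 - Θ) * (M * x + Θ) := by
    have h1 : f * W' = M * h := by
      have : T ^ 2 * (f * W' - M * h) = 0 := by
        have h2 := P.hW
        rw [S.sq, hW', ← hM] at h2
        linear_combination h2
      rcases mul_eq_zero.mp this with h3 | h3
      · exact absurd h3 hT2
      · omega
    have h2 : T ^ 2 * ((μ * y ^ 2 - Θ) * (M * x + Θ)) =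
        y ^ 2 * M * ((x - y) * h) - (2 * τ + 1) * (y * (M * x + Θ)) := by
      rw [hWp]
      linear_combination (-(y * W')) * hyf + (y ^ 2 * (x - y)) * h1
    have h3 : (2 * τ + 1) ∣ T ^ 2 * ((μ * y ^ 2 - Θ) * (M * x + Θ)) := by
      rw [h2]
      exact dvd_sub (Dvd.dvd.mul_left P.hq _) (dvd_mul_right _ _)
    exact (P.copT S).pow_right.dvd_of_dvd_mul_left h3
  have hgen : M * (τ + 1) ≤ (g * x - f) * Θ := by
    have h1 : y * (g * x * (τ + 1)) ≤ y * ((g * x - f) * (W - g * x ^ 2)) :=
      mul_le_mul_of_nonneg_left P.h11 (by omega)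
    have h2 : T ^ 2 * (M * (τ + 1)) ≤ T ^ 2 * ((g * x - f) * Θ) := by
      calc T ^ 2 * (M * (τ + 1)) = y * (g * x * (τ + 1)) := by
            linear_combination (-(τ + 1)) * hPS
        _ ≤ y * ((g * x - f) * (W - g * x ^ 2)) := h1
        _ = T ^ 2 * ((g * x - f) * Θ) := by linear_combination (g * x - f) * hZΘ
    exact cancel_le hT h2
  rcases lt_trichotomy Θ 0 with hΘ0 | hΘ0 | hΘ0
  · -- `Θ < 0`
    rcases S.hτ with ht | ht
    · have hτ : 0 < τ := by rw [ht]; positivity
      have h1 : 0 < M * (τ + 1) := by positivity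
      have h2 : (g * x - f) * Θ ≤ 0 := mul_nonpos_of_nonneg_of_nonpos (by omega) (by omega)
      omega
    · have hTm := S.Tm8
      obtain ⟨v, hv⟩ : ∃ v, v = g * x - f := ⟨_, rfl⟩
      have hv1 : 1 ≤ v := by omega
      rw [← hv] at hgen
      obtain ⟨ξ, hξ⟩ : ∃ ξ, ξ = M * (x - y) - μ * y ^ 2 + Θ := ⟨_, rfl⟩
      have h1 : y * ((x - y) * v) = T ^ 2 * ξ - (2 * τ + 1) * y := by
        rw [hξ, hv]
        linear_combination (x - y) * hPS - hyf
      have hξ0 : 0 ≤ ξ := by
        have h2 : 0 < y * ((x - y) * v) := by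
          have : 0 < x - y := by omega
          positivity
        have h3 : -((2 * τ + 1) * y) < T ^ 2 := by
          have h4 : -((2 * τ + 1) * y) = (2 * (T * m) - 1) * y := by rw [ht]; ring
          have h5 : (2 * (T * m) - 1) * y ≤ (2 * (T * m) + 1) * y :=
            mul_le_mul_of_nonneg_right (by omega) (by omega)
          omega
        have h4 : T ^ 2 * (-1) < T ^ 2 * ξ := by omega
        have h5 := cancel_lt hT h4
        omega
      have hvs : v ≤ M * (-τ - 1) := by
        have h2 : v * 1 ≤ v * (-Θ) := mul_le_mul_of_nonneg_left (by omega) (by omega)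
        have h3 : v * (-Θ) = -(v * Θ) := by ring
        have h4 : M * (-τ - 1) = -(M * (τ + 1)) := by ring
        omega
      have hξ1 : ξ < 1 := by
        have h2 : y * (x - y) ≤ M * M := mul_le_mul (by omega) (by omega) (by omega) (by omega)
        have h3 : y * (x - y) * v ≤ M * M * (M * (-τ - 1)) :=
          mul_le_mul h2 hvs (by omega) (by positivity)
        have h4 : M * M * (M * (-τ - 1)) < M * M * (M * (T * m)) := by
          apply mul_lt_mul_of_pos_left _ (by positivity)
          apply mul_lt_mul_of_pos_left _ (by omega)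
          omega
        have h5 : M * M * (M * (T * m)) = T * m ^ 7 := by rw [hM]; ring
        have h6 : (2 * τ + 1) * y ≤ 0 := mul_nonpos_of_nonpos_of_nonneg (by omega) (by omega)
        have h7 : T * (T * ξ) < T * m ^ 7 := by nlinarith
        have h8 := lt_of_mul_lt_mul_left h7 (by omega)
        have h9 := S.hT7
        have h10 := S.one 7
        by_contra hc
        have h11 : T * 1 ≤ T * ξ := mul_le_mul_of_nonneg_left (by omega) (by omega)
        omega
      have hξ2 : ξ = 0 := by omega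
      have h2 : (x - y) * v = -(2 * τ + 1) := by
        have : y * ((x - y) * v + (2 * τ + 1)) = 0 := by rw [hξ2] at h1; linear_combination h1
        rcases mul_eq_zero.mp this with h3 | h3 <;> omega
      have h3 : W = g * y * (x + y) := by
        have : y * (W - g * y * (x + y)) = 0 := by
          have h4 : Θ = μ * y ^ 2 - M * (x - y) := by omega
          rw [h4] at hZΘ
          linear_combination hZΘ + (x - y) * hPS - y ^ 2 * hgy
        rcases mul_eq_zero.mp this with h4 | h4 <;> omega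
      have h4 : f * (x + y) = x * h := by
        have : g * y * (f * (x + y) - x * h) = 0 := by
          have h5 := P.hW
          rw [h3, ← P.hP] at h5
          linear_combination h5
        rcases mul_eq_zero.mp this with h6 | h6
        · have : 0 < g * y := by positivity
          omega
        · omega
      have h5 : x ∣ f := by
        have h6 : IsCoprime x (x + y) := by
          have := P.hcop
          obtain ⟨a, b, hab⟩ := this
          exact ⟨a - b, b, by linear_combination hab⟩
        exact h6.dvd_of_dvd_mul_right ⟨h, h4⟩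
      apply P.xq
      have h6 : x ∣ v := by
        rw [hv]; exact dvd_sub (dvd_mul_left _ _) h5
      have h7 : x ∣ -(2 * τ + 1) := by rw [← h2]; exact Dvd.dvd.mul_left h6 _
      exact (dvd_neg).mp h7
  · -- `Θ = 0`
    rw [hΘ0] at hN
    apply P.qN S hN
    have hμd : μ ∣ m ^ 2 := ⟨x, by rw [← hM, hμ]; ring⟩
    have h1 : IsCoprime (2 * τ + 1) μ :=
      IsCoprime.of_isCoprime_of_dvd_right ((P.copm S).pow_right (n := 2)) hμd
    have h2 : (μ * y ^ 2 - 0) * (M * x + 0) = μ * y ^ 2 * (m ^ 2 * x) := by rw [hM]; ring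
    rw [h2]
    exact (h1.mul_right P.copy.pow_right).mul_right ((P.copm S).pow_right.mul_right P.copx)
  · -- `Θ > 0`
    have hμy : μ * y ^ 2 ≤ M * y := by
      have h1 : μ * y * y ≤ μ * y * x := mul_le_mul_of_nonneg_left (by omega) (by positivity)
      have h2 : μ * y * x = M * y := by rw [hμ]; ring
      nlinarith
    have hμy0 : 0 < μ * y ^ 2 := by positivity
    have hA : |μ * y ^ 2 - Θ| ≤ M * y := by
      rw [abs_le]; constructor <;> omega
    have hB : |M * x + Θ| ≤ 2 * (M * x) := by
      have h1 : M * y ≤ M * x := mul_le_mul_of_nonneg_left (by omega) (by omega)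
      have h2 : 0 < M * x := by positivity
      rw [abs_of_pos (by omega)]
      omega
    have hsmall : |(μ * y ^ 2 - Θ) * (M * x + Θ)| < |2 * τ + 1| := by
      rw [abs_mul]
      have h1 : |μ * y ^ 2 - Θ| * |M * x + Θ| ≤ M * y * (2 * (M * x)) :=
        mul_le_mul hA hB (abs_nonneg _) (by positivity)
      have h2 : y * x ≤ M * M := mul_le_mul (by omega) hxM (by omega) (by omega)
      have h3 : M * y * (2 * (M * x)) ≤ 2 * M ^ 4 := by
        have : M * M * (y * x) ≤ M * M * (M * M) := mul_le_mul_of_nonneg_left h2 (by positivity)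
        nlinarith
      have h4 := S.q_ge
      have h5 := S.Tm
      have h6 : M ^ 4 = m ^ 8 := by rw [hM]; ring
      have h7 := S.one 8
      omega
    have h0 := dvd_small hN hsmall
    have h1 : μ * y ^ 2 - Θ = 0 := by
      rcases mul_eq_zero.mp h0 with h2 | h2
      · exact h2
      · have : 0 < M * x := by positivity
        omega
    rw [h1] at hyf
    have h2 : (x - y) * f = 2 * τ + 1 := by
      have : y * ((x - y) * f - (2 * τ + 1)) = 0 := by linear_combination hyf
      rcases mul_eq_zero.mp this with h3 | h3 <;> omega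
    have h3 : W = g * (x ^ 2 + y ^ 2) := by
      rw [P.hWd]; linear_combination -h2
    have h4 : f * (x ^ 2 + y ^ 2) = x * y * h := by
      have : g * (f * (x ^ 2 + y ^ 2) - x * y * h) = 0 := by
        have h5 := P.hW
        rw [h3, ← P.hP] at h5
        linear_combination h5
      rcases mul_eq_zero.mp this with h6 | h6 <;> omega
    have h5 : x ∣ f := by
      have h6 : x ∣ f * y ^ 2 := ⟨y * h - f * x, by linear_combination h4⟩
      exact (P.hcop.pow_right).dvd_of_dvd_mul_right h6
    apply P.xq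
    rw [← h2]
    exact Dvd.dvd.mul_left h5 _

end Pool.Agent.TEV
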