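import Pool.Agent.TEV.LA

/-!
# The case `T ^ 2 ∣ W`, `y ∣ m ^ 2`: set-up, `θ ≤ 0`, and `T ∣ x`
-/

set_option autoImplicit false

namespace Pool.Agent.TEV

variable {τ g x y f h W T m : ℤ}

/-- The data of the case `T ^ 2 ∣ W`, `y ∣ m ^ 2`. -/
structure Dat (τ g x y f h W T m ν θ : ℤ) : Prop where
  P : Par τ g x y f h W
  S : Siz τ T m
  hν : m ^ 2 = y * ν
  hν1 : 1 ≤ ν
  hgx : g * x = T ^ 2 * ν
  hWθ : W = T ^ 2 * (ν * x + θ)
  hθM : θ ≤ m ^ 2
  hθn : τ < 0 → θ < m ^ 2
  hge : ν * (τ + 1) ≤ (g * x - f) * θ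
  hxf : x * ((x - y) * f) = T ^ 2 * (m ^ 2 * y - θ * x) + (2 * τ + 1) * x
  hN : (2 * τ + 1) ∣ (m ^ 2 * y - θ * x) * (ν * x + θ)

theorem Dat.mk' (P : Par τ g x y f h W) (S : Siz τ T m) (hd : T ^ 2 ∣ W) (hym : y ∣ m ^ 2) :
    ∃ ν θ, Dat τ g x y f h W T m ν θ := by
  obtain ⟨W', hW'⟩ := hd
  obtain ⟨ν, hν⟩ := hym
  have hT8 := S.hT8
  have hT : 1 ≤ T := by omega
  have hT2 : T ^ 2 ≠ 0 := pow_ne_zero 2 (by omega)
  have hm := S.hm
  have hx := P.hx
  have hy := P.hy
  have hg := P.hg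
  have hxy := P.hxy
  have hf2 := P.hf2
  obtain ⟨M, hM⟩ : ∃ M, M = m ^ 2 := ⟨_, rfl⟩
  have hM1 : 1 ≤ M := by rw [hM]; exact S.one 2
  rw [← hM] at hν
  have hν1 : 1 ≤ ν := by
    by_contra hc
    have : y * ν ≤ 0 := mul_nonpos_of_nonneg_of_nonpos (by omega) (by omega)
    omega
  have hPS : g * x * y = T ^ 2 * M := by rw [P.hP, S.sq, hM]
  have hgx : g * x = T ^ 2 * ν := by
    have : y * (g * x - T ^ 2 * ν) = 0 := by rw [hν] at hPS; linear_combination hPS
    rcases mul_eq_zero.mp this with h2 | h2 <;> omega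
  obtain ⟨θ, hθ⟩ : ∃ θ, θ = W' - ν * x := ⟨_, rfl⟩
  have hW2 : W' = ν * x + θ := by omega
  have hZθ : W - g * x ^ 2 = T ^ 2 * θ := by
    rw [hW', hθ]; linear_combination (-x) * hgx
  have hδf : (x - y) * f = g * y ^ 2 + 2 * τ + 1 - T ^ 2 * θ := by
    have := P.Z
    omega
  have hxf : x * ((x - y) * f) = T ^ 2 * (M * y - θ * x) + (2 * τ + 1) * x := by
    rw [hδf]; linear_combination y * hPS
  have hlt : T ^ 2 * (θ - M) < 2 * τ + 1 := by
    have h1 : (x - y) * (-(g * y)) < (x - y) * f := mul_lt_mul_of_pos_left P.hf1 (by omega)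
    rw [hδf] at h1
    nlinarith
  have hq2 : 2 * τ + 1 < T ^ 2 := by
    rcases S.hτ with ht | ht
    · have h1 := S.T3m
      have h2 := S.Tm8
      have h3 : T * (3 * m) ≤ T * T := mul_le_mul_of_nonneg_left h1 (by omega)
      nlinarith
    · have : 0 < T * m := by positivity
      have h3 : 0 < T ^ 2 := by positivity
      omega
  refine ⟨ν, θ, P, S, by rw [← hM]; exact hν, hν1, hgx, by rw [hW', hW2], ?_, ?_, ?_, ?_, ?_⟩
  · rw [← hM]
    have h1 : T ^ 2 * (θ - M) < T ^ 2 * 1 := by omega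
    have := cancel_lt hT h1
    omega
  · intro hτ
    rw [← hM]
    have h1 : T ^ 2 * (θ - M) < T ^ 2 * 0 := by omega
    have := cancel_lt hT h1
    omega
  · have h1 := P.h11
    rw [hZθ, hgx] at h1
    have h2 : T ^ 2 * (ν * (τ + 1)) ≤ T ^ 2 * ((g * x - f) * θ) := by
      calc T ^ 2 * (ν * (τ + 1)) = T ^ 2 * ν * (τ + 1) := by ring
        _ ≤ (T ^ 2 * ν - f) * (T ^ 2 * θ) := h1
        _ = T ^ 2 * ((g * x - f) * θ) := by rw [hgx]; ring
    exact cancel_le hT h2
  · rw [← hM]; exact hxf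
  · rw [← hM]
    have h1 : f * W' = M * h := by
      have : T ^ 2 * (f * W' - M * h) = 0 := by
        have h2 := P.hW
        rw [S.sq, hW', ← hM] at h2
        linear_combination h2
      rcases mul_eq_zero.mp this with h3 | h3
      · exact absurd h3 hT2
      · omega
    have h2 : T ^ 2 * ((M * y - θ * x) * (ν * x + θ)) =
        x * M * ((x - y) * h) - (2 * τ + 1) * (x * (ν * x + θ)) := by
      rw [← hW2]
      linear_combination (-W') * hxf + (x * (x - y)) * h1
    have h3 : (2 * τ + 1) ∣ T ^ 2 * ((M * y - θ * x) * (ν * x + θ)) := by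
      rw [h2]
      exact dvd_sub (Dvd.dvd.mul_left P.hq _) (dvd_mul_right _ _)
    exact (P.copT S).pow_right.dvd_of_dvd_mul_left h3

variable {ν θ : ℤ}

/-- `θ ≤ 0`: the Petersen cone. -/
theorem Dat.nonpos (D : Dat τ g x y f h W T m ν θ) (hθ : θ ≤ 0)
    (hne : ∀ E : ℤ, E * x ≠ m ^ 2 * y) : Pet τ g x y f := by
  obtain ⟨P, S, hν, hν1, hgx, hWθ, hθM, hθn, hge, hxf, hN⟩ := D
  have hT8 := S.hT8
  have hT : 1 ≤ T := by omega
  have hm := S.hm
  have hx := P.hx
  have hy := P.hy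
  have hg := P.hg
  have hxy := P.hxy
  have hf2 := P.hf2
  obtain ⟨M, hM⟩ : ∃ M, M = m ^ 2 := ⟨_, rfl⟩
  have hM1 : 1 ≤ M := by rw [hM]; exact S.one 2
  rw [← hM] at hν hθM hxf hN hne
  rcases S.hτ with ht | ht
  · exfalso
    have hτ : 0 < τ := by rw [ht]; positivity
    have h1 : 0 < ν * (τ + 1) := by positivity
    have h2 : (g * x - f) * θ ≤ 0 := mul_nonpos_of_nonneg_of_nonpos (by omega) hθ
    omega
  have hTm := S.Tm8
  rcases eq_or_lt_of_le hθ with h0 | h0
  · exfalso
    rw [h0] at hN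
    apply P.qN S hN
    have hνd : ν ∣ m ^ 2 := ⟨y, by rw [← hM, hν]; ring⟩
    have h1 : IsCoprime (2 * τ + 1) ν :=
      IsCoprime.of_isCoprime_of_dvd_right ((P.copm S).pow_right (n := 2)) hνd
    have h2 : (M * y - 0 * x) * (ν * x + 0) = m ^ 2 * y * (ν * x) := by rw [hM]; ring
    rw [h2]
    exact ((P.copm S).pow_right.mul_right P.copy).mul_right (h1.mul_right P.copx)
  obtain ⟨v, hv⟩ : ∃ v, v = g * x - f := ⟨_, rfl⟩
  have hv1 : 1 ≤ v := by omega
  rw [← hv] at hge
  obtain ⟨E, hE⟩ : ∃ E, E = ν * (x - y) + θ := ⟨_, rfl⟩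
  have h1 : x * ((x - y) * v) = T ^ 2 * (E * x - M * y) - (2 * τ + 1) * x := by
    rw [hE, hv]
    linear_combination x * (x - y) * hgx - hxf
  have hE0 : 0 ≤ E := by
    have h2 := P.hWP
    rw [hWθ, S.sq, ← hM] at h2
    have h3 := cancel_le hT h2
    rw [hE]; rw [hν] at h3
    linarith [mul_comm y ν, mul_sub ν x y]
  rcases eq_or_lt_of_le hE0 with hE1 | hE1
  · apply join P
    rw [hWθ, S.sq, ← hM, hν]
    have : ν * x + θ = y * ν := by rw [← hE1] at hE; linear_combination -hE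
    rw [this]
  exfalso
  have hyM : y ≤ M := by
    have : y * 1 ≤ y * ν := mul_le_mul_of_nonneg_left hν1 (by omega)
    omega
  have hxE : x ≤ E * x := by nlinarith
  have hMy : M * y ≤ M * M := mul_le_mul_of_nonneg_left hyM (by omega)
  have hM2 : m * (M * M) = m ^ 5 := by rw [hM]; ring
  have h5 := S.T3 5 (by norm_num)
  have hdv : 0 < x * ((x - y) * v) := by
    have : 0 < x - y := by omega
    positivity
  rcases lt_trichotomy (E * x) (M * y) with h2 | h2 | h2
  · have h3 : T ^ 2 * (E * x - M * y) ≤ T ^ 2 * (-1) :=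
      mul_le_mul_of_nonneg_left (by omega) (by positivity)
    have h4 : T * T < T * (2 * m * x) := by
      have : -(2 * τ + 1) * x = (2 * (T * m) - 1) * x := by rw [ht]; ring
      nlinarith
    have h6 := lt_of_mul_lt_mul_left h4 (by omega)
    have h7 : m * x ≤ m * (M * M) := mul_le_mul_of_nonneg_left (by omega) (by omega)
    have h8 : 2 * m * x = 2 * (m * x) := by ring
    omega
  · exact hne E h2
  · obtain ⟨t, htt⟩ : ∃ t, t = -θ := ⟨_, rfl⟩
    have ht1 : 1 ≤ t := by omega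
    have hge' : v * t ≤ ν * (-τ - 1) := by
      have : v * t = -(v * θ) := by rw [htt]; ring
      have h8 : ν * (-τ - 1) = -(ν * (τ + 1)) := by ring
      omega
    have h3 : t * (x * ((x - y) * v)) ≤ x * (x - y) * (ν * (-τ - 1)) := by
      have : x * (x - y) * (v * t) ≤ x * (x - y) * (ν * (-τ - 1)) :=
        mul_le_mul_of_nonneg_left hge' (mul_nonneg (by omega) (by omega))
      linarith [show t * (x * ((x - y) * v)) = x * (x - y) * (v * t) by ring]
    have h4 : x * (x - y) * (ν * (-τ - 1)) ≤ x * (x - y) * (ν * (T * m)) := by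
      apply mul_le_mul_of_nonneg_left _ (mul_nonneg (by omega) (by omega))
      apply mul_le_mul_of_nonneg_left _ (by omega)
      omega
    have h6 : t * (T ^ 2 * (E * x - M * y)) < x * (x - y) * (ν * (T * m)) := by
      rw [h1] at h3
      have h7 : 0 < t * (-(2 * τ + 1) * x) := by
        have : 0 < -(2 * τ + 1) := by omega
        positivity
      linarith [show t * (T ^ 2 * (E * x - M * y) - (2 * τ + 1) * x) =
        t * (T ^ 2 * (E * x - M * y)) + t * (-(2 * τ + 1) * x) by ring]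
    have h7 : ν * (x - y) = E + t := by omega
    have h8 : T * (t * (T * (E * x - M * y))) < T * (m * x * (E + t)) := by
      linarith [show T * (t * (T * (E * x - M * y))) = t * (T ^ 2 * (E * x - M * y)) by ring,
        show x * (x - y) * (ν * (T * m)) = T * (m * x * (ν * (x - y))) by ring,
        show T * (m * x * (ν * (x - y))) = T * (m * x * (E + t)) by rw [h7]]
    have h9 := lt_of_mul_lt_mul_left h8 (by omega)
    have h10 : E + t ≤ 2 * (E * t) := by nlinarith
    have h11 : m * x * (E + t) ≤ m * x * (2 * (E * t)) :=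
      mul_le_mul_of_nonneg_left h10 (by positivity)
    have h12 : t * (T * (E * x - M * y)) < t * (2 * m * (E * x)) := by
      linarith [show m * x * (2 * (E * t)) = t * (2 * m * (E * x)) by ring]
    have h13 := lt_of_mul_lt_mul_left h12 (by omega)
    obtain ⟨e, he⟩ : ∃ e, e = E * x := ⟨_, rfl⟩
    rw [← he] at h13 h2
    have hT3 := S.T3m
    -- `e (T - 2 m) < T M y`
    have h14 : e * T < 3 * (T * (M * y)) := by
      have h15 : e * (3 * (2 * m)) ≤ e * (2 * T) :=
        mul_le_mul_of_nonneg_left (by omega) (by omega)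
      nlinarith
    have h15 : e < 3 * (M * y) := by
      have : T * e < T * (3 * (M * y)) := by linarith [mul_comm e T]
      exact lt_of_mul_lt_mul_left this (by omega)
    have h16 : T * 1 ≤ T * (e - M * y) := mul_le_mul_of_nonneg_left (by omega) (by omega)
    have h17 : m * e ≤ m * (3 * (M * M)) := mul_le_mul_of_nonneg_left (by omega) (by omega)
    have h18 : T < 6 * m ^ 5 := by
      linarith [show m * (3 * (M * M)) = 3 * m ^ 5 by rw [← hM2]; ring,
        show 2 * m * e = 2 * (m * e) by ring]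
    have h19 : 6 * m ^ 5 ≤ T := by
      rcases eq_or_lt_of_le hm with hm1 | hm1
      · rw [← hm1]; omega
      · have h20 : m ^ 5 * 2 ^ 2 ≤ m ^ 5 * m ^ 2 :=
          mul_le_mul_of_nonneg_left (pow_le_pow_left₀ (by norm_num) (by omega) 2) (by positivity)
        have h21 := S.hT7
        have h22 : m ^ 5 * m ^ 2 = m ^ 7 := by ring
        omega
    omega

end Pool.Agent.TEV
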