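import Pool.Agent.TEV.LB

/-!
# The case `T ^ 2 ∣ W`, `θ ≥ 1`, `T ∣ x`
-/

set_option autoImplicit false

namespace Pool.Agent.TEV

variable {τ g x y f h W T m ν θ : ℤ}

/-- `x - y` divides `κ T ^ 2 + 2 τ + 1`, `κ = m ^ 2 - θ`. -/
theorem Dat.dvdG (D : Dat τ g x y f h W T m ν θ) :
    (x - y) ∣ (m ^ 2 - θ) * T ^ 2 + 2 * τ + 1 := by
  have h1 : (x - y) ∣ y * ((m ^ 2 - θ) * T ^ 2 + 2 * τ + 1) :=
    ⟨x * f + T ^ 2 * θ - (2 * τ + 1), by linear_combination -D.hxf⟩
  have h2 : IsCoprime (x - y) y := by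
    obtain ⟨a, b, hab⟩ := D.P.hcop
    exact ⟨a, a + b, by linear_combination hab⟩
  exact h2.dvd_of_dvd_mul_left h1

theorem Dat.q_pos (D : Dat τ g x y f h W T m ν θ) : 6 * m ^ 8 - 1 ≤ |2 * τ + 1| ∧
    15 ≤ |2 * τ + 1| := by
  have h1 := D.S.q_ge
  have h2 := D.S.Tm
  have h3 := D.S.Tm8
  constructor <;> omega

/-- The case `T ∣ x`. -/
theorem Dat.alpha (D : Dat τ g x y f h W T m ν θ) (hθ : 1 ≤ θ) (hd : T ∣ x) (hg2 : 2 ≤ g) :
    False := by
  obtain ⟨x₁, hx₁⟩ := hd
  have hG := D.dvdG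
  obtain ⟨hqq, hq15⟩ := D.q_pos
  obtain ⟨P, S, hν, hν1, hgx, hWθ, hθM, hθn, hge, hxf, hN⟩ := D
  have hT8 := S.hT8
  have hT : 1 ≤ T := by omega
  have hm := S.hm
  have hx := P.hx
  have hy := P.hy
  have hg := P.hg
  have hxy := P.hxy
  have hf2 := P.hf2
  have hT3m := S.T3m
  have hTm := S.Tm8
  have hx1 : 1 ≤ x₁ := by
    by_contra hc
    have : T * x₁ ≤ 0 := mul_nonpos_of_nonneg_of_nonpos (by omega) (by omega)
    omega
  have hcop1 : IsCoprime x₁ y :=
    IsCoprime.of_isCoprime_of_dvd_left P.hcop ⟨T, by rw [hx₁]; ring⟩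
  obtain ⟨M, hM⟩ : ∃ M, M = m ^ 2 := ⟨_, rfl⟩
  have hM1 : 1 ≤ M := by rw [hM]; exact S.one 2
  have hmM : m ≤ M := by rw [hM]; have := S.pw 1 2 (by norm_num); simpa using this
  obtain ⟨κ, hκ⟩ : ∃ κ, κ = M - θ := ⟨_, rfl⟩
  rw [← hM] at hν hθM hθn hxf hN hG
  rw [← hκ] at hG
  have hκ0 : 0 ≤ κ := by omega
  have hyM : y ≤ M := by
    have : y * 1 ≤ y * ν := mul_le_mul_of_nonneg_left hν1 (by omega)
    omega
  have hPS : g * x * y = T ^ 2 * M := by rw [P.hP, S.sq, hM]
  -- the sign
  obtain ⟨c, hc, hcm⟩ : ∃ c, τ = c * T ∧ (c = m ∨ c = -m) := by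
    rcases S.hτ with ht | ht
    · exact ⟨m, by rw [ht]; ring, Or.inl rfl⟩
    · exact ⟨-m, by rw [ht]; ring, Or.inr rfl⟩
  have hcabs : |c| = m := by
    rcases hcm with h | h
    · rw [h, abs_of_pos (by omega)]
    · rw [h, abs_neg, abs_of_pos (by omega)]
  have hR : (x - y) ∣ κ * y ^ 2 + 2 * c * x₁ * y + x₁ ^ 2 := by
    have h1 : κ * y ^ 2 + 2 * c * x₁ * y + x₁ ^ 2 = x₁ ^ 2 * (κ * T ^ 2 + 2 * τ + 1) -
        (x - y) * (κ * (x + y) + 2 * c * x₁) := by
      rw [hc, hx₁]; ring
    rw [h1]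
    exact dvd_sub (Dvd.dvd.mul_left hG _) (dvd_mul_right _ _)
  obtain ⟨j, hj⟩ := hR
  rw [hx₁] at hj
  by_cases hj0 : j = 0
  · -- `κ y ^ 2 + 2 c x₁ y + x₁ ^ 2 = 0`
    rw [hj0, mul_zero] at hj
    rcases hcm with hc1 | hc1
    · have h1 : 0 ≤ κ * y ^ 2 := by positivity
      have h2 : 0 < 2 * c * x₁ * y := by rw [hc1]; positivity
      have h3 : 0 < x₁ ^ 2 := by positivity
      omega
    · rw [hc1] at hj
      have hτ : τ = -(m * T) := by rw [hc, hc1]; ring
      have hτ0 : τ < 0 := by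
        have : 0 < m * T := by positivity
        omega
      have hy1 : y = 1 := by
        have h1 : y ∣ x₁ ^ 2 := ⟨2 * m * x₁ - κ * y, by linear_combination hj⟩
        have h2 : IsUnit y := (hcop1.pow_left).symm.isUnit_of_dvd h1
        rcases Int.isUnit_iff.mp h2 with h3 | h3
        · exact h3
        · omega
      rw [hy1] at hj hν
      have hκ1 := hθn hτ0
      have hκe : κ = x₁ * (2 * m - x₁) := by linear_combination hj
      have hx2m : x₁ < 2 * m := by
        by_contra hcc
        have : x₁ * (2 * m - x₁) ≤ 0 := mul_nonpos_of_nonneg_of_nonpos (by omega) (by omega)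
        omega
      have hθe : θ = (m - x₁) ^ 2 := by
        have : θ = M - κ := by omega
        rw [this, hκe, hM]; ring
      have hd1 : (2 * τ + 1) ∣ m * ((2 * m ^ 3 - θ * x₁) * (m * x₁ + 2 * θ)) := by
        have h1 : m * ((2 * m ^ 3 - θ * x₁) * (m * x₁ + 2 * θ)) =
            4 * m ^ 2 * ((M * y - θ * x) * (ν * x + θ)) + (2 * τ + 1) *
              (x₁ * (M * (2 * m ^ 3 - θ * x₁) - θ * (m ^ 2 * x₁ + 2 * m * θ) +
                (2 * τ + 1) * θ * M * x₁)) := by
          have h2 : ν = M := by omega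
          rw [h2, hy1, hx₁, hτ, hM]
          ring
        rw [h1]
        exact dvd_add (Dvd.dvd.mul_left hN _) (dvd_mul_right _ _)
      have hθm : θ ≤ m ^ 2 := by rw [← hM]; exact hθM
      have h1 : θ * x₁ < 2 * m ^ 3 := by
        have h2 : θ * x₁ ≤ m ^ 2 * x₁ := mul_le_mul_of_nonneg_right hθm (by omega)
        have h3 : m ^ 2 * x₁ < m ^ 2 * (2 * m) := mul_lt_mul_of_pos_left hx2m (by positivity)
        have h4 : m ^ 2 * (2 * m) = 2 * m ^ 3 := by ring
        omega
      have h2 : 0 < θ * x₁ := by positivity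
      have h3 : m * x₁ + 2 * θ ≤ 4 * m ^ 2 := by
        have h4 : m * x₁ ≤ m * (2 * m) := mul_le_mul_of_nonneg_left (by omega) (by omega)
        have h5 : m * (2 * m) = 2 * m ^ 2 := by ring
        omega
      have h4 : 0 < m * x₁ + 2 * θ := by positivity
      have h5 : 0 < m * ((2 * m ^ 3 - θ * x₁) * (m * x₁ + 2 * θ)) := by
        have : 0 < 2 * m ^ 3 - θ * x₁ := by omega
        positivity
      have h6 : m * ((2 * m ^ 3 - θ * x₁) * (m * x₁ + 2 * θ)) ≤ m * (2 * m ^ 3 * (4 * m ^ 2)) := by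
        apply mul_le_mul_of_nonneg_left _ (by omega)
        apply mul_le_mul (by omega) h3 (by omega) (by positivity)
      have h7 : m * (2 * m ^ 3 * (4 * m ^ 2)) = 8 * m ^ 6 := by ring
      have h8 : 8 * m ^ 6 < |2 * τ + 1| := by
        rcases eq_or_lt_of_le hm with hm1 | hm1
        · rw [← hm1]; omega
        · have h20 : m ^ 6 * 2 ^ 2 ≤ m ^ 6 * m ^ 2 :=
            mul_le_mul_of_nonneg_left (pow_le_pow_left₀ (by norm_num) (by omega) 2) (by positivity)
          have h22 : m ^ 6 * m ^ 2 = m ^ 8 := by ring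
          have h23 := S.one 6
          omega
      have h9 := dvd_small hd1 (by rw [abs_of_pos h5]; omega)
      omega
  · -- `R ≠ 0`
    have hdiv : x₁ * (j * T - 2 * c * y - x₁) = y * (κ * y + j) := by linear_combination (-1 : ℤ) * hj
    have hdv : x₁ ∣ κ * y + j := hcop1.dvd_of_dvd_mul_left ⟨_, hdiv.symm⟩
    by_cases hκj : κ * y + j = 0
    · rw [hκj, mul_zero] at hdiv
      have h1 : j * T - 2 * c * y - x₁ = 0 := by
        rcases mul_eq_zero.mp hdiv with h2 | h2 <;> omega
      have hκ1 : 1 ≤ κ := by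
        rcases eq_or_lt_of_le hκ0 with h2 | h2
        · exfalso; apply hj0; rw [← h2] at hκj; omega
        · omega
      have h2 : j = -(κ * y) := by omega
      rw [h2] at h1
      have h3 : κ * (y * T) = -(2 * c * y) - x₁ := by linear_combination -h1
      have h4 : 1 * (y * T) ≤ κ * (y * T) := mul_le_mul_of_nonneg_right hκ1 (by positivity)
      have h5 : -(2 * c * y) ≤ 2 * m * y := by
        have : -c ≤ m := by rcases hcm with h | h <;> omega
        nlinarith
      have h6 : y * (3 * m) ≤ y * T := mul_le_mul_of_nonneg_left hT3m (by omega)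
      nlinarith
    · -- sizes
      obtain ⟨J, hJ⟩ : ∃ J, J = |j| := ⟨_, rfl⟩
      have hJ1 : 1 ≤ J := by rw [hJ]; exact Int.one_le_abs hj0
      have hx1J : x₁ ≤ κ * y + J := by
        have h1 : x₁ ≤ |κ * y + j| := by
          have h2 := Int.le_of_dvd (abs_pos.mpr hκj) ((dvd_abs x₁ _).mpr hdv)
          exact h2
        have h2 : |κ * y + j| ≤ |κ * y| + |j| := abs_add_le _ _
        rw [abs_of_nonneg (by positivity : (0 : ℤ) ≤ κ * y)] at h2
        omega
      have hxT : 0 < T * x₁ - y := by omega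
      have hRle : J * (T * x₁ - y) ≤ κ * y ^ 2 + 2 * m * x₁ * y + x₁ ^ 2 := by
        have h1 : J * (T * x₁ - y) = |κ * y ^ 2 + 2 * c * x₁ * y + x₁ ^ 2| := by
          rw [hj, abs_mul, abs_of_pos hxT, hJ, mul_comm]
        rw [h1, abs_le]
        have h2 : 0 ≤ κ * y ^ 2 := by positivity
        have h3 : 0 ≤ x₁ ^ 2 := by positivity
        have h4 : 2 * c * x₁ * y ≤ 2 * m * x₁ * y ∧ -(2 * m * x₁ * y) ≤ 2 * c * x₁ * y := by
          have h5 : 0 < x₁ * y := by positivity
          rcases hcm with h | h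
          · rw [h]; constructor <;> nlinarith
          · rw [h]; constructor <;> nlinarith
        constructor <;> omega
      -- everything divided by `x₁`
      have hκM : κ ≤ M - 1 := by omega
      have hκy : κ * y ^ 2 ≤ (M - 1) * M ^ 2 := by
        have h1 : y ^ 2 ≤ M ^ 2 := pow_le_pow_left₀ (by omega) hyM 2
        exact mul_le_mul hκM h1 (by positivity) (by omega)
      have hkey : J * T ≤ J * M + (M - 1) * M ^ 2 + 2 * m * M + x₁ := by
        have h1 : x₁ * (J * T) ≤ x₁ * (J * M + (M - 1) * M ^ 2 + 2 * m * M + x₁) := by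
          have h2 : J * y ≤ x₁ * (J * M) := by
            have h5 : J * y ≤ J * M := mul_le_mul_of_nonneg_left hyM (by omega)
            have h6 : 1 * (J * M) ≤ x₁ * (J * M) :=
              mul_le_mul_of_nonneg_right hx1 (mul_nonneg (by omega) (by omega))
            linarith
          have h3 : (M - 1) * M ^ 2 ≤ x₁ * ((M - 1) * M ^ 2) := by
            have h5 : 0 ≤ (M - 1) * M ^ 2 := mul_nonneg (by omega) (by positivity)
            have h6 := mul_le_mul_of_nonneg_right hx1 h5
            linarith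
          have h4 : 2 * m * x₁ * y ≤ x₁ * (2 * m * M) := by
            have : 2 * m * x₁ * y ≤ 2 * m * x₁ * M :=
              mul_le_mul_of_nonneg_left hyM (by positivity)
            linarith [show 2 * m * x₁ * M = x₁ * (2 * m * M) by ring]
          have h7 : x₁ * (J * T) = J * (T * x₁ - y) + J * y := by ring
          have h8 : x₁ * (J * M + (M - 1) * M ^ 2 + 2 * m * M + x₁) =
            x₁ * (J * M) + x₁ * ((M - 1) * M ^ 2) + x₁ * (2 * m * M) + x₁ ^ 2 := by ring
          rw [h7, h8]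
          linarith
        exact le_of_mul_le_mul_left h1 (by omega)
      have hM3 : m * M ^ 3 = m ^ 7 := by rw [hM]; ring
      have hT7 := S.hT7
      rw [← hM3] at hT7
      have hmM3 : M ^ 3 ≤ m * M ^ 3 := by
        have : 0 ≤ M ^ 3 := by positivity
        nlinarith
      have hMM3 : M ≤ M ^ 3 := by
        have := pow_le_pow_right₀ hM1 (show 1 ≤ 3 by norm_num)
        simpa using this
      have hJM0 : 0 ≤ J * M := mul_nonneg (by omega) (by omega)
      have hmM1 : m * M ≤ m * M ^ 3 := mul_le_mul_of_nonneg_left hMM3 (by omega)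
      have hM3' : (M - 1) * M ^ 2 = M ^ 3 - M ^ 2 := by ring
      have hM2 : M ≤ M ^ 2 := by nlinarith
      -- `J ≤ M + 2`
      have hx1T : 2 * x₁ ≤ T * M := by
        have h1 : g * x₁ * y = T * M := by
          have : T * (g * x₁ * y - T * M) = 0 := by rw [hx₁] at hPS; linear_combination hPS
          rcases mul_eq_zero.mp this with h2 | h2 <;> omega
        have h2 : 2 * x₁ ≤ g * x₁ := mul_le_mul_of_nonneg_right hg2 (by omega)
        have h3 : g * x₁ * 1 ≤ g * x₁ * y := mul_le_mul_of_nonneg_left hy (by positivity)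
        omega
      have hJM : J ≤ M + 2 := by
        by_contra hcc
        have h1 : M + 3 ≤ J := by omega
        have h2 : (M + 3) * (T - M) ≤ J * (T - M) :=
          mul_le_mul_of_nonneg_right h1 (by omega)
        have h3 : J * (T - M) = J * T - J * M := by ring
        have h4 : (M + 3) * (T - M) = T * M + 3 * T - M ^ 2 - 3 * M := by ring
        have h5 : M ^ 2 ≤ M ^ 3 := pow_le_pow_right₀ hM1 (by norm_num)
        have h6 : 0 < T * M := by positivity
        have h7 : 2 * m * M = 2 * (m * M) := by ring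
        omega
      have hx1M : x₁ ≤ M ^ 2 + 2 := by
        have h1 : κ * y ≤ (M - 1) * M := mul_le_mul hκM hyM (by omega) (by omega)
        have h2 : (M - 1) * M = M ^ 2 - M := by ring
        omega
      -- the contradiction
      have hfin : T ≤ M + ((M - 1) * M ^ 2 + 2 * m * M + x₁) := by
        obtain ⟨s, hs⟩ : ∃ s, s = (M - 1) * M ^ 2 + 2 * m * M + x₁ := ⟨_, rfl⟩
        have h3 : 0 ≤ s := by
          have : 0 ≤ (M - 1) * M ^ 2 := mul_nonneg (by omega) (by positivity)
          have h7 : 0 ≤ 2 * m * M := by positivity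
          omega
        rw [← hs]
        by_contra hcc
        have h1 : M + s + 1 ≤ T := by omega
        have h2 : J * (M + s + 1) ≤ J * T := mul_le_mul_of_nonneg_left h1 (by omega)
        have h4 : 1 * s ≤ J * s := mul_le_mul_of_nonneg_right hJ1 h3
        have h5 : J * (M + s + 1) = J * M + J * s + J := by ring
        omega
      rcases eq_or_lt_of_le hm with hm1 | hm1
      · have hMe : M = 1 := by rw [hM, ← hm1]; norm_num
        rw [hMe, ← hm1] at hfin
        rw [hMe] at hx1M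
        norm_num at hfin hx1M
        omega
      · have h2 : 2 * M ^ 3 ≤ m * M ^ 3 := mul_le_mul_of_nonneg_right (by omega) (by positivity)
        have h3 : 2 * m * M = 2 * (m * M) := by ring
        have h4 : 4 ≤ M := by rw [hM]; nlinarith
        have h5 : M ^ 2 + 3 ≤ M ^ 3 := by
          have h6 : M ^ 2 * 3 ≤ M ^ 2 * (M - 1) := mul_le_mul_of_nonneg_left (by omega) (by positivity)
          have h7 : M ^ 2 * (M - 1) = M ^ 3 - M ^ 2 := by ring
          omega
        omega

end Pool.Agent.TEV
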