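import Pool.Agent.TEV.Par

/-!
# The case `T ^ 2 ∣ f` and the case `T ^ 2 ∣ x`
-/

set_option autoImplicit false

namespace Pool.Agent.TEV

variable {τ g x y f h W : ℤ}

theorem cancel_lt {T a b : ℤ} (hT : 1 ≤ T) (h : T ^ 2 * a < T ^ 2 * b) : a < b :=
  lt_of_mul_lt_mul_left h (by positivity)

theorem cancel_le {T a b : ℤ} (hT : 1 ≤ T) (h : T ^ 2 * a ≤ T ^ 2 * b) : a ≤ b :=
  le_of_mul_le_mul_left h (by positivity)

/-- Size of `T`. -/
structure Siz (τ T m : ℤ) : Prop where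
  hm : 1 ≤ m
  hT8 : 8 ≤ T
  hT7 : 3 * m ^ 7 ≤ T
  hτ : τ = T * m ∨ τ = -(T * m)

variable {T m : ℤ}

theorem Siz.sq (S : Siz τ T m) : τ ^ 2 = T ^ 2 * m ^ 2 := by
  rcases S.hτ with h | h <;> rw [h] <;> ring

theorem Siz.pw (S : Siz τ T m) (i j : ℕ) (hij : i ≤ j) : m ^ i ≤ m ^ j :=
  pow_le_pow_right₀ S.hm hij

theorem Siz.one (S : Siz τ T m) (i : ℕ) : 1 ≤ m ^ i := one_le_pow₀ S.hm

/-- `T ≥ 3 m ^ i` for `i ≤ 7`. -/
theorem Siz.T3 (S : Siz τ T m) (i : ℕ) (hi : i ≤ 7) : 3 * m ^ i ≤ T := by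
  have := S.pw i 7 hi
  have := S.hT7
  omega

theorem Siz.T3m (S : Siz τ T m) : 3 * m ≤ T := by
  have := S.T3 1 (by norm_num)
  simpa using this

theorem Siz.q_ge (S : Siz τ T m) : 2 * (T * m) - 1 ≤ |2 * τ + 1| := by
  rcases S.hτ with h | h
  · rw [h]
    have := le_abs_self (2 * (T * m) + 1)
    omega
  · rw [h]
    have := neg_abs_le (2 * -(T * m) + 1)
    omega

theorem Siz.Tm (S : Siz τ T m) : 3 * m ^ 8 ≤ T * m := by
  have h1 := mul_le_mul_of_nonneg_right S.hT7 (show 0 ≤ m by have := S.hm; omega)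
  have h2 : 3 * m ^ 7 * m = 3 * m ^ 8 := by ring
  omega

theorem Siz.Tm8 (S : Siz τ T m) : 8 ≤ T * m := by
  have h1 := mul_le_mul S.hT8 S.hm (by norm_num) (by have := S.hT8; omega)
  omega

/-- `Z = W - g x ^ 2`. -/
theorem Par.Z (P : Par τ g x y f h W) : W - g * x ^ 2 = g * y ^ 2 + 2 * τ + 1 - (x - y) * f := by
  rw [P.hWd]; ring

theorem Par.Zpos (P : Par τ g x y f h W) (hτ : 0 < τ) : 0 < W - g * x ^ 2 := by
  by_contra hc
  have h1 : (g * x - f) * (W - g * x ^ 2) ≤ 0 :=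
    mul_nonpos_of_nonneg_of_nonpos (by have := P.hf2; omega) (by omega)
  have h2 : 0 < g * x * (τ + 1) := by
    have := P.hg; have := P.hx; positivity
  have := P.h11
  omega

theorem dvd_small {q N : ℤ} (hd : q ∣ N) (hN : |N| < |q|) : N = 0 :=
  Int.eq_zero_of_abs_lt_dvd ((abs_dvd q N).mpr hd) hN

/-- Reduction modulo `q = 2 τ + 1` if `T ^ 2 ∣ f`. -/
theorem Ff_dvd (P : Par τ g x y f h W) (S : Siz τ T m) (k : ℤ) (hk : f = T ^ 2 * k) :
    (2 * τ + 1) ∣ (x - y) * k * (m ^ 2 * (x ^ 2 + y ^ 2) - (x - y) * k * (x * y)) := by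
  have hT : 1 ≤ T := by have := S.hT8; omega
  have hT0 : T ^ 2 ≠ 0 := pow_ne_zero 2 (by omega)
  have h1 : k * W = m ^ 2 * h := by
    have : T ^ 2 * (k * W - m ^ 2 * h) = 0 := by
      have h2 := P.hW
      rw [S.sq, hk] at h2
      linear_combination h2
    rcases mul_eq_zero.mp this with h3 | h3
    · exact absurd h3 hT0
    · omega
  have h2 : (2 * τ + 1) ∣ (x - y) * k * W := by
    have h3 : (x - y) * k * W = m ^ 2 * ((x - y) * h) := by linear_combination (x - y) * h1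
    rw [h3]
    exact Dvd.dvd.mul_left P.hq _
  have h3 : (x - y) * k * (m ^ 2 * (x ^ 2 + y ^ 2) - (x - y) * k * (x * y)) =
      4 * m ^ 2 * x * y * ((x - y) * k * W) - (2 * τ + 1) * ((x - y) * k *
        ((2 * τ - 1) * (m ^ 2 * (x ^ 2 + y ^ 2) - (x - y) * k * (x * y)) +
          4 * m ^ 2 * x * y)) := by
    have h4 := P.hP
    have h5 := S.sq
    have h6 : x * y * W = τ ^ 2 * (x ^ 2 + y ^ 2) + (2 * τ + 1) * (x * y) -
        (x - y) * (T ^ 2 * k) * (x * y) := by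
      rw [P.hWd, hk]
      linear_combination (x ^ 2 + y ^ 2) * h4
    linear_combination (-(4 * m ^ 2 * (x - y) * k)) * h6 +
      (-(4 * (x - y) ^ 2 * k ^ 2 * x * y)) * h5
  rw [h3]
  exact dvd_sub (Dvd.dvd.mul_left h2 _) (dvd_mul_right _ _)

theorem Ff_pos (P : Par τ g x y f h W) (S : Siz τ T m) (k : ℤ) (hk : f = T ^ 2 * k) :
    0 < m ^ 2 * (x ^ 2 + y ^ 2) - (x - y) * k * (x * y) := by
  have hT : 1 ≤ T := by have := S.hT8; omega
  have h1 : T ^ 2 * (m ^ 2 * (x ^ 2 + y ^ 2) - (x - y) * k * (x * y)) =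
      x * y * (W - (2 * τ + 1)) := by
    rw [P.hWd, hk]
    linear_combination (-(x ^ 2 + y ^ 2)) * S.sq - (x ^ 2 + y ^ 2) * P.hP
  have h2 : 0 < W - (2 * τ + 1) := by
    have h3 := P.hWP
    have h4 := S.Tm8
    have h5 : 2 * τ + 1 < τ ^ 2 := by
      rcases S.hτ with h6 | h6
      · have : 8 ≤ τ := by omega
        nlinarith
      · have : τ ≤ -8 := by omega
        nlinarith
    omega
  have hx := P.hx
  have hy := P.hy
  have h3 : 0 < x * y * (W - (2 * τ + 1)) := by positivity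
  rw [← h1] at h3
  exact (mul_pos_iff_of_pos_left (by positivity)).mp h3

/-- `k < 0`. -/
theorem Ff_neg (P : Par τ g x y f h W) (S : Siz τ T m) (k : ℤ) (hk : f = T ^ 2 * k)
    (hk0 : k < 0) : x < m ^ 2 ∧ (x - y) * (-k) < m ^ 2 := by
  have hT : 1 ≤ T := by have := S.hT8; omega
  have hx := P.hx
  have hy := P.hy
  have h1 : T ^ 2 * (x * (-k)) < T ^ 2 * m ^ 2 := by
    rw [← S.sq, ← P.hP]
    have h2 := P.hf1
    rw [hk] at h2
    have h3 : x * (T ^ 2 * (-k)) < x * (g * y) :=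
      mul_lt_mul_of_pos_left (by linarith) (by omega)
    calc T ^ 2 * (x * (-k)) = x * (T ^ 2 * (-k)) := by ring
      _ < x * (g * y) := h3
      _ = g * x * y := by ring
  have h2 := cancel_lt hT h1
  have h3 : x ≤ x * (-k) := by nlinarith
  have h4 : (x - y) * (-k) ≤ x * (-k) := mul_le_mul_of_nonneg_right (by omega) (by omega)
  exact ⟨by omega, by omega⟩

/-- `k > 0`. -/
theorem Ff_posk (P : Par τ g x y f h W) (S : Siz τ T m) (k : ℤ) (hk : f = T ^ 2 * k)
    (hk0 : 0 < k) : y < m ^ 2 ∧ (x - y) * k ≤ m ^ 2 := by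
  have hT : 1 ≤ T := by have := S.hT8; omega
  have hT3 := S.T3m
  have hm := S.hm
  have hx := P.hx
  have hy := P.hy
  have hxy := P.hxy
  have hg := P.hg
  have hT2 : 0 < T ^ 2 := by positivity
  have hPS : g * x * y = T ^ 2 * m ^ 2 := by rw [P.hP, S.sq]
  have h1 : T ^ 2 * (k * y) < T ^ 2 * m ^ 2 := by
    rw [← hPS]
    have h2 := P.hf2
    rw [hk] at h2
    have h3 : y * (T ^ 2 * k) < y * (g * x) := mul_lt_mul_of_pos_left h2 (by omega)
    calc T ^ 2 * (k * y) = y * (T ^ 2 * k) := by ring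
      _ < y * (g * x) := h3
      _ = g * x * y := by ring
  have h2 := cancel_lt hT h1
  have h3 : y ≤ k * y := by nlinarith
  refine ⟨by omega, ?_⟩
  by_contra hc
  have hc' : m ^ 2 + 1 ≤ (x - y) * k := by omega
  -- the common consequence
  have hxT : 0 < T ^ 2 * x := by positivity
  have h5 : T ^ 2 * x * (m ^ 2 + 1) ≤ T ^ 2 * x * ((x - y) * k) :=
    mul_le_mul_of_nonneg_left hc' hxT.le
  have h6 : T ^ 2 * x * ((x - y) * k) = x * ((x - y) * f) := by rw [hk]; ring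
  have h7 : T ^ 2 * m ^ 2 * y ≤ T ^ 2 * m ^ 2 * (x - 1) :=
    mul_le_mul_of_nonneg_left (by omega) (by positivity)
  have h8 : x * (g * y ^ 2) = T ^ 2 * m ^ 2 * y := by rw [← hPS]; ring
  have hZ := P.Z
  rcases S.hτ with ht | ht
  · have hτ : 0 < τ := by
      rw [ht]; positivity
    have h9 := P.Zpos hτ
    rw [hZ] at h9
    have h10 : x * ((x - y) * f) < x * (g * y ^ 2 + 2 * τ + 1) :=
      mul_lt_mul_of_pos_left (by omega) (by omega)
    have h11 : x * (g * y ^ 2 + 2 * τ + 1) = T ^ 2 * m ^ 2 * y + x * (2 * τ + 1) := by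
      rw [← h8]; ring
    have h12 : T ^ 2 * x + T ^ 2 * m ^ 2 < x * (2 * τ + 1) := by
      nlinarith
    have h13 : 0 < T ^ 2 * m ^ 2 := by positivity
    have h14 : x * (T ^ 2) < x * (2 * τ + 1) := by nlinarith
    have h15 := lt_of_mul_lt_mul_left h14 (by omega)
    have h16 : 3 * (T * m) ≤ T ^ 2 := by nlinarith
    have := S.Tm8
    rw [ht] at h15
    omega
  · have hτ : τ < 0 := by
      have : 0 < T * m := by positivity
      omega
    obtain ⟨Z, hZd⟩ : ∃ Z, Z = W - g * x ^ 2 := ⟨_, rfl⟩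
    have h9 := P.h11
    rw [← hZd] at h9 hZ
    have h10 : T ^ 2 * (m ^ 2 * (τ + 1)) ≤ T ^ 2 * ((m ^ 2 - k * y) * Z) := by
      have h11 : y * (g * x * (τ + 1)) ≤ y * ((g * x - f) * Z) :=
        mul_le_mul_of_nonneg_left h9 (by omega)
      calc T ^ 2 * (m ^ 2 * (τ + 1)) = y * (g * x * (τ + 1)) := by
            linear_combination (-(τ + 1)) * hPS
        _ ≤ y * ((g * x - f) * Z) := h11
        _ = T ^ 2 * ((m ^ 2 - k * y) * Z) := by
          rw [hk]; linear_combination Z * hPS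
    have h11 := cancel_le hT h10
    have hq0 : 2 * τ + 1 < 0 := by omega
    rcases le_or_gt 0 Z with hZ0 | hZ0
    · have h12 : x * ((x - y) * f) ≤ x * (g * y ^ 2) :=
        mul_le_mul_of_nonneg_left (by omega) (by omega)
      rw [h8] at h12
      nlinarith
    · have h12 : (m ^ 2 - k * y) * Z ≤ Z := by nlinarith
      have h13 : (x - y) * f ≤ g * y ^ 2 - m ^ 2 * τ := by
        have : 1 ≤ m ^ 2 := S.one 2
        nlinarith
      have h14 : x * ((x - y) * f) ≤ x * (g * y ^ 2 - m ^ 2 * τ) :=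
        mul_le_mul_of_nonneg_left h13 (by omega)
      have h15 : x * (g * y ^ 2 - m ^ 2 * τ) = T ^ 2 * m ^ 2 * y + T * m ^ 3 * x := by
        rw [ht]; linear_combination h8
      have h16 : T ^ 2 * x + T ^ 2 * m ^ 2 ≤ T * m ^ 3 * x := by nlinarith
      have h17 : T * (T * x) < T * (m ^ 3 * x) := by
        have : 0 < T ^ 2 * m ^ 2 := by positivity
        nlinarith
      have h18 := lt_of_mul_lt_mul_left h17 (by omega)
      have h19 := lt_of_mul_lt_mul_right h18 (by omega)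
      have := S.T3 3 (by norm_num)
      have := S.one 3
      omega

/-- No nonzero multiple of `T ^ 2`. -/
theorem Ff (P : Par τ g x y f h W) (S : Siz τ T m) (hd : T ^ 2 ∣ f) : f = 0 := by
  obtain ⟨k, hk⟩ := hd
  by_contra hf
  have hk0 : k ≠ 0 := by
    intro h0; apply hf; rw [hk, h0]; ring
  have hm := S.hm
  have hx := P.hx
  have hy := P.hy
  have hxy := P.hxy
  have hB := Ff_pos P S k hk
  have hD := Ff_dvd P S k hk
  obtain ⟨M, hM⟩ : ∃ M, M = m ^ 2 := ⟨_, rfl⟩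
  have hM1 : 1 ≤ M := by rw [hM]; exact S.one 2
  obtain ⟨B, hBd⟩ : ∃ B, B = m ^ 2 * (x ^ 2 + y ^ 2) - (x - y) * k * (x * y) := ⟨_, rfl⟩
  rw [← hBd] at hB hD
  have hq : 6 * M ^ 4 - 1 ≤ |2 * τ + 1| ∧ 15 ≤ |2 * τ + 1| := by
    have h1 := S.q_ge
    have h2 := S.Tm
    have h3 := S.Tm8
    have h4 : M ^ 4 = m ^ 8 := by rw [hM]; ring
    constructor <;> omega
  have hM4 : 1 ≤ M ^ 4 := one_le_pow₀ hM1
  have hN : |(x - y) * k * B| < |2 * τ + 1| := by
    rcases lt_or_gt_of_ne hk0 with hk1 | hk1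
    · obtain ⟨h1, h2⟩ := Ff_neg P S k hk hk1
      rw [← hM] at h1 h2
      obtain ⟨d, hd⟩ : ∃ d, d = (x - y) * (-k) := ⟨_, rfl⟩
      rw [← hd] at h2
      have hd0 : 0 ≤ d := by rw [hd]; exact mul_nonneg (by omega) (by omega)
      have hdk : (x - y) * k = -d := by rw [hd]; ring
      have hB2 : B ≤ 3 * M ^ 3 := by
        rw [hBd, hdk, ← hM]
        have h3 : x * x ≤ M * M := mul_le_mul h1.le h1.le (by omega) (by omega)
        have h4 : y * y ≤ M * M := mul_le_mul (by omega) (by omega) (by omega) (by omega)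
        have h5 : x * y ≤ M * M := mul_le_mul h1.le (by omega) (by omega) (by omega)
        have h6 : d * (x * y) ≤ M * (M * M) := mul_le_mul h2.le h5 (by positivity) (by omega)
        have h7 : M * (x ^ 2 + y ^ 2) ≤ M * (2 * (M * M)) :=
          mul_le_mul_of_nonneg_left (by nlinarith) (by omega)
        nlinarith
      have h8 : |(x - y) * k * B| = d * B := by
        rw [hdk, neg_mul, abs_neg, abs_of_nonneg (mul_nonneg hd0 hB.le)]
      have h9 : d * B ≤ M * (3 * M ^ 3) := mul_le_mul h2.le hB2 hB.le (by omega)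
      have h10 : M * (3 * M ^ 3) = 3 * M ^ 4 := by ring
      rw [h8]
      obtain ⟨hq1, hq2⟩ := hq
      omega
    · obtain ⟨h1, h2⟩ := Ff_posk P S k hk hk1
      rw [← hM] at h1 h2
      obtain ⟨d, hd⟩ : ∃ d, d = (x - y) * k := ⟨_, rfl⟩
      rw [← hd] at h2
      have hdx : x - y ≤ d := by rw [hd]; nlinarith
      have hx2 : x ≤ 2 * M := by omega
      have hB2 : B < 5 * M ^ 3 := by
        rw [hBd, ← hd, ← hM]
        have h3 : x * x ≤ 2 * M * (2 * M) := mul_le_mul hx2 hx2 (by omega) (by omega)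
        have h4 : y * y ≤ M * M := mul_le_mul (by omega) (by omega) (by omega) (by omega)
        have h7 : M * (x ^ 2 + y ^ 2) ≤ M * (5 * (M * M)) :=
          mul_le_mul_of_nonneg_left (by nlinarith) (by omega)
        have h8 : 0 < d * (x * y) := by
          have : 0 < d := by omega
          positivity
        nlinarith
      have h8 : |(x - y) * k * B| = d * B := by
        rw [← hd, abs_of_nonneg (mul_nonneg (by omega) hB.le)]
      have h9 : d * B ≤ M * (5 * M ^ 3 - 1) := mul_le_mul h2 (by omega) hB.le (by omega)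
      have h10 : M * (5 * M ^ 3 - 1) = 5 * M ^ 4 - M := by ring
      rw [h8]
      obtain ⟨hq1, hq2⟩ := hq
      omega
  have h0 := dvd_small hD hN
  rcases mul_eq_zero.mp h0 with h1 | h1
  · rcases mul_eq_zero.mp h1 with h2 | h2
    · omega
    · exact hk0 h2
  · omega

end Pool.Agent.TEV
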