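import Pool.Agent.TEV.LF

/-!
# The case `T ^ 2 ∣ x`
-/

set_option autoImplicit false

namespace Pool.Agent.TEV

variable {τ g x y f h W T m : ℤ}

theorem Gx (P : Par τ g x y f h W) (S : Siz τ T m) (hd : T ^ 2 ∣ x) (hneg : f < 0 → T ∣ W) :
    f = 0 := by
  obtain ⟨x', hx'⟩ := hd
  have hT8 := S.hT8
  have hT : 1 ≤ T := by omega
  have hm := S.hm
  have hx := P.hx
  have hy := P.hy
  have hg := P.hg
  have hxy := P.hxy
  have hT3 := S.T3m
  have hx1 : 1 ≤ x' := by
    by_contra hc
    have : T ^ 2 * x' ≤ 0 := mul_nonpos_of_nonneg_of_nonpos (by positivity) (by omega)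
    omega
  obtain ⟨M, hM⟩ : ∃ M, M = m ^ 2 := ⟨_, rfl⟩
  have hM1 : 1 ≤ M := by rw [hM]; exact S.one 2
  have hgxy : g * x' * y = M := by
    have : T ^ 2 * (g * x' * y - M) = 0 := by
      have h1 := P.hP
      rw [S.sq, hx', ← hM] at h1
      linear_combination h1
    rcases mul_eq_zero.mp this with h2 | h2
    · exact absurd h2 (pow_ne_zero 2 (by omega))
    · omega
  have hgy0 : 1 ≤ g * y := by nlinarith
  have hgy : g * y ≤ M := by
    have : g * y * 1 ≤ g * y * x' := mul_le_mul_of_nonneg_left hx1 (by omega)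
    have h2 : g * y * x' = M := by rw [← hgxy]; ring
    omega
  have hyM : y ≤ M := by
    have : 1 * y ≤ g * y := mul_le_mul_of_nonneg_right hg (by omega)
    omega
  have hgy2 : g * y ^ 2 ≤ M ^ 2 := by
    have : g * y * y ≤ M * M := mul_le_mul hgy hyM (by omega) (by omega)
    nlinarith
  have hT4 : 3 * M ^ 2 ≤ T := by
    have := S.T3 4 (by norm_num)
    have h2 : M ^ 2 = m ^ 4 := by rw [hM]; ring
    omega
  have hxT : T ^ 2 ≤ x := by
    rw [hx']
    have : T ^ 2 * 1 ≤ T ^ 2 * x' := mul_le_mul_of_nonneg_left hx1 (by positivity)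
    omega
  have hMM : M ≤ M ^ 2 := by nlinarith
  have hTT : 3 * M ^ 4 ≤ T * (T - 2 * m) := by
    have h1 : T * m ≤ T * (T - 2 * m) := mul_le_mul_of_nonneg_left (by omega) (by omega)
    have h2 := S.Tm
    have h3 : M ^ 4 = m ^ 8 := by rw [hM]; ring
    omega
  have hMM4 : M ^ 2 ≤ M ^ 4 := pow_le_pow_right₀ hM1 (by norm_num)
  have hTT8 : 8 ≤ T * (T - 2 * m) := by
    have h1 : T * m ≤ T * (T - 2 * m) := mul_le_mul_of_nonneg_left (by omega) (by omega)
    have := S.Tm8
    omega
  have hTT2 : T * (T - 2 * m) = T ^ 2 - 2 * (T * m) := by ring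
  by_contra hf0
  rcases lt_or_gt_of_ne hf0 with hf | hf
  · -- `f < 0`
    have h1 := hneg hf
    have h2 : T ∣ g * y ^ 2 + 1 + y * f := by
      have h3 : T ∣ 2 * τ := by
        rcases S.hτ with h | h
        · exact ⟨2 * m, by rw [h]; ring⟩
        · exact ⟨-(2 * m), by rw [h]; ring⟩
      have h4 : T ∣ x * (g * x - f) := ⟨T * x' * (g * x - f), by
        rw [show x * (g * x - f) = (T ^ 2 * x') * (g * x - f) by rw [← hx']]; ring⟩
      have h5 : g * y ^ 2 + 1 + y * f = W - 2 * τ - x * (g * x - f) := by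
        rw [P.hWd]; ring
      rw [h5]
      exact dvd_sub (dvd_sub h1 h3) h4
    have h3 := P.hf1
    have h4 : y * (-(g * y) + 1) ≤ y * f := mul_le_mul_of_nonneg_left (by omega) (by omega)
    have h5 : y * f ≤ y * (-1) := mul_le_mul_of_nonneg_left (by omega) (by omega)
    have h6 : y * (-(g * y) + 1) = -(g * y ^ 2) + y := by ring
    have h7 := Int.le_of_dvd (by omega) h2
    omega
  · rcases S.hτ with ht | ht
    · have hτ : 0 < τ := by rw [ht]; positivity
      have h9 := P.Zpos hτ
      rw [P.Z] at h9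
      have h10 : (x - y) * 1 ≤ (x - y) * f := mul_le_mul_of_nonneg_left (by omega) (by omega)
      omega
    · have hτ : τ < 0 := by
        have : 0 < T * m := by positivity
        omega
      have h9 := P.h11
      rw [P.Z] at h9
      obtain ⟨v, hv⟩ : ∃ v, v = g * x - f := ⟨_, rfl⟩
      have hv1 : 1 ≤ v := by have := P.hf2; omega
      rw [← hv] at h9
      have hvf : g * x - 1 ≤ v * f := by
        have : 0 ≤ (v - 1) * (f - 1) := mul_nonneg (by omega) (by omega)
        have h2 : (v - 1) * (f - 1) = v * f - (v + f) + 1 := by ring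
        omega
      have hvgx : v ≤ g * x := by omega
      have h11 : (x - y) * (g * x - 1) ≤ (x - y) * (v * f) :=
        mul_le_mul_of_nonneg_left hvf (by omega)
      have h12 : v * (g * y ^ 2) ≤ g * x * M ^ 2 :=
        mul_le_mul hvgx hgy2 (by positivity) (by omega)
      have h13 : v * (2 * τ + 1) ≤ 0 := mul_nonpos_of_nonneg_of_nonpos (by omega) (by omega)
      have h14 : (x - y) * (g * x - 1) ≤ g * x * (-τ - 1 + M ^ 2) := by nlinarith
      have hgx2 : 2 ≤ g * x := by omega
      have h15 : (x - y) * (g * x) ≤ (x - y) * (2 * (g * x - 1)) :=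
        mul_le_mul_of_nonneg_left (by omega) (by omega)
      have h16 : g * x * (x - y) ≤ g * x * (2 * (-τ - 1 + M ^ 2)) := by nlinarith
      have h17 := le_of_mul_le_mul_left h16 (by omega)
      omega

end Pool.Agent.TEV
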